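import Pool.Agent.N303.KS.Cnt
import Pool.Agent.H21R2.Defs

/-!
# Sofic approximations and words
-/

set_option autoImplicit false

namespace Pool.Agent.N303.KS

open Finset Filter
open Pool.Agent.H21R2 (IsSofic hamm)

noncomputable section

variable {P : Type} [Group P]

/-- a map to a symmetric group -/
structure SApp (P : Type) where
  d : ℕ
  pos : 0 < d
  σ : P → Equiv.Perm (Fin d)

/-- quality of an approximation -/
def GoodS (A : Finset P) (ε : ℝ) (x : SApp P) : Prop :=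
  x.σ 1 = 1 ∧
    (∀ a ∈ A, ∀ b ∈ A, a * b ∈ A →
      (ct fun y => x.σ (a * b) y ≠ x.σ a (x.σ b y)) ≤ ε * x.d) ∧
    ∀ a ∈ A, a ≠ 1 → (ct fun y => x.σ a y = y) ≤ ε * x.d

theorem GoodS.mono {A B : Finset P} {ε δ : ℝ} {x : SApp P} (h : GoodS B δ x) (hAB : A ⊆ B)
    (hδ : δ ≤ ε) : GoodS A ε x := by
  refine ⟨h.1, fun a ha b hb hab => ?_, fun a ha ha1 => ?_⟩
  · exact (h.2.1 a (hAB ha) b (hAB hb) (hAB hab)).trans
      (mul_le_mul_of_nonneg_right hδ (Nat.cast_nonneg _))
  · exact (h.2.2 a (hAB ha) ha1).trans (mul_le_mul_of_nonneg_right hδ (Nat.cast_nonneg _))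

/-- the filter of good approximations -/
def sF (P : Type) [Group P] : Filter (SApp P) where
  sets := {s | ∃ (A : Finset P) (ε : ℝ), 0 < ε ∧ ∀ x, GoodS A ε x → x ∈ s}
  univ_sets := ⟨∅, 1, one_pos, fun _ _ => Set.mem_univ _⟩
  sets_of_superset := by
    rintro s t ⟨A, ε, hε, h⟩ hst
    exact ⟨A, ε, hε, fun x hx => hst (h x hx)⟩
  inter_sets := by
    classical
    rintro s t ⟨A, ε, hε, h⟩ ⟨B, δ, hδ, h'⟩
    refine ⟨A ∪ B, min ε δ, lt_min hε hδ, fun x hx => ⟨h x ?_, h' x ?_⟩⟩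
    · exact hx.mono subset_union_left (min_le_left _ _)
    · exact hx.mono subset_union_right (min_le_right _ _)

theorem eventually_sF {p : SApp P → Prop} :
    (∀ᶠ x in sF P, p x) ↔ ∃ (A : Finset P) (ε : ℝ), 0 < ε ∧ ∀ x, GoodS A ε x → p x :=
  Iff.rfl

theorem sF_neBot (hP : IsSofic P) : (sF P).NeBot := by
  classical
  rw [neBot_iff]
  intro hbot
  have h : ∀ᶠ x in sF P, False := by rw [hbot]; exact mem_bot
  rw [eventually_sF] at h
  obtain ⟨A, ε, hε, h⟩ := h
  obtain ⟨n, hn, φ, h1, h2, h3⟩ := hP (insert 1 A) (mem_insert_self _ _) ε hε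
  have hn0 : (0 : ℝ) < n := by exact_mod_cast hn
  refine h ⟨n, hn, φ⟩ ⟨h1, fun a ha b hb hab => ?_, fun a ha ha1 => ?_⟩
  · have h4 := h2 a (mem_insert_of_mem ha) b (mem_insert_of_mem hb) (mem_insert_of_mem hab)
    rw [hamm, div_lt_iff₀ hn0] at h4
    refine le_trans (le_of_eq ?_) h4.le
    show (ct fun y : Fin n => φ (a * b) y ≠ (φ a * φ b) y) = _
    unfold ct
    congr!
  · have h4 := h3 a (mem_insert_of_mem ha) ha1
    rw [hamm, le_div_iff₀ hn0] at h4
    have h5 : ((univ.filter fun i => φ a i ≠ (1 : Equiv.Perm (Fin n)) i).card : ℝ) =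
        ct fun i => ¬ φ a i = i := by
      unfold ct
      congr!
    rw [h5] at h4
    have h6 := ct_split (fun _ : Fin n => True) (fun i => φ a i = i)
    have h7 : (ct fun i => True ∧ φ a i = i) = ct fun i => φ a i = i := ct_congr fun i => by simp
    have h8 : (ct fun i => True ∧ ¬ φ a i = i) = ct fun i => ¬ φ a i = i :=
      ct_congr fun i => by simp
    rw [ct_univ, h7, h8, Fintype.card_fin] at h6
    show (ct fun y => φ a y = y) ≤ ε * n
    linarith

theorem sv_one : ∀ᶠ x in sF P, x.σ 1 = 1 :=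
  eventually_sF.2 ⟨∅, 1, one_pos, fun _ hx => hx.1⟩

theorem sv_mul (a b : P) {η : ℝ} (hη : 0 < η) :
    ∀ᶠ x in sF P, (ct fun y => x.σ (a * b) y ≠ x.σ a (x.σ b y)) ≤ η * x.d := by
  classical
  refine eventually_sF.2 ⟨{a, b, a * b}, η, hη, fun x hx => ?_⟩
  exact hx.2.1 a (by simp) b (by simp) (by simp)

theorem sv_ne (a : P) (ha : a ≠ 1) {η : ℝ} (hη : 0 < η) :
    ∀ᶠ x in sF P, (ct fun y => x.σ a y = y) ≤ η * x.d := by
  classical
  refine eventually_sF.2 ⟨{a}, η, hη, fun x hx => ?_⟩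
  exact hx.2.2 a (by simp) ha

/-- the canonical homomorphism from the free group on `P` -/
abbrev cn (P : Type) [Group P] : FreeGroup P →* P := FreeGroup.lift id

/-- the homomorphism of the free group on `P` given by an approximation -/
def Ps (x : SApp P) : FreeGroup P →* Equiv.Perm (Fin x.d) := FreeGroup.lift x.σ

theorem sv_word (w : FreeGroup P) : ∀ η : ℝ, 0 < η →
    ∀ᶠ x in sF P, (ct fun y => Ps x w y ≠ x.σ (cn P w) y) ≤ η * x.d := by
  induction w using FreeGroup.induction_on with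
  | C1 =>
    intro η hη
    filter_upwards [sv_one] with x hx
    rw [ct_false]
    · positivity
    · intro y hy
      apply hy
      rw [map_one, map_one, hx]
  | of a =>
    intro η hη
    filter_upwards with x
    rw [ct_false]
    · positivity
    · intro y hy
      apply hy
      rw [Ps, FreeGroup.lift_apply_of, FreeGroup.lift_apply_of, id]
  | inv_of a _ =>
    intro η hη
    filter_upwards [sv_mul a⁻¹ a hη, sv_one] with x hx hx1
    refine le_trans ?_ hx
    rw [← ct_perm (fun y => Ps x (FreeGroup.of a)⁻¹ y ≠ x.σ (cn P (FreeGroup.of a)⁻¹) y) (x.σ a)]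
    refine ct_mono fun y hy h => hy ?_
    rw [inv_mul_cancel, hx1] at h
    rw [map_inv, map_inv, Ps, FreeGroup.lift_apply_of, FreeGroup.lift_apply_of, id, ← h]
    exact (x.σ a).symm_apply_apply y
  | mul u v hu hv =>
    intro η hη
    filter_upwards [hu (η / 3) (by positivity), hv (η / 3) (by positivity),
      sv_mul (cn P u) (cn P v) (show 0 < η / 3 by positivity)] with x h1 h2 h3
    have h4 : (ct fun y => Ps x (u * v) y ≠ x.σ (cn P (u * v)) y) ≤
        (ct fun y => Ps x v y ≠ x.σ (cn P v) y) +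
        ct fun y => Ps x u (x.σ (cn P v) y) ≠ x.σ (cn P u) (x.σ (cn P v) y) ∨
          x.σ (cn P u * cn P v) y ≠ x.σ (cn P u) (x.σ (cn P v) y) := ct_le_add fun y hy => by
      by_cases c1 : Ps x v y = x.σ (cn P v) y
      · right
        by_cases c2 : Ps x u (x.σ (cn P v) y) = x.σ (cn P u) (x.σ (cn P v) y)
        · right
          intro c3
          apply hy
          rw [map_mul, map_mul, c3, Equiv.Perm.mul_apply, c1, c2]
        · exact Or.inl c2
      · exact Or.inl c1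
    have h5 : (ct fun y => Ps x u (x.σ (cn P v) y) ≠ x.σ (cn P u) (x.σ (cn P v) y) ∨
          x.σ (cn P u * cn P v) y ≠ x.σ (cn P u) (x.σ (cn P v) y)) ≤
        (ct fun y => Ps x u (x.σ (cn P v) y) ≠ x.σ (cn P u) (x.σ (cn P v) y)) +
          ct fun y => x.σ (cn P u * cn P v) y ≠ x.σ (cn P u) (x.σ (cn P v) y) :=
      ct_le_add fun y hy => hy
    rw [ct_perm (fun y => Ps x u y ≠ x.σ (cn P u) y) (x.σ (cn P v))] at h5
    linarith

theorem sv_rel {w : FreeGroup P} (hw : cn P w = 1) {η : ℝ} (hη : 0 < η) :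
    ∀ᶠ x in sF P, (ct fun y => Ps x w y ≠ y) ≤ η * x.d := by
  filter_upwards [sv_word w η hη, sv_one] with x hx hx1
  rw [hw, hx1] at hx
  exact hx

theorem sv_nrel {w : FreeGroup P} (hw : cn P w ≠ 1) {η : ℝ} (hη : 0 < η) :
    ∀ᶠ x in sF P, (ct fun y => Ps x w y = y) ≤ η * x.d := by
  filter_upwards [sv_word w (η / 2) (by positivity), sv_ne _ hw (show 0 < η / 2 by positivity)]
    with x h1 h2
  have h3 : (ct fun y => Ps x w y = y) ≤ (ct fun y => Ps x w y ≠ x.σ (cn P w) y) +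
      ct fun y => x.σ (cn P w) y = y := ct_le_add fun y hy => by
    by_cases c : Ps x w y = x.σ (cn P w) y
    · right
      rw [← c]; exact hy
    · exact Or.inl c
  linarith

/-- **Sofic approximations in terms of words.** -/
theorem sofic_words (hP : IsSofic P) (E : Finset (FreeGroup P)) (v : FreeGroup P)
    (hE : ∀ r ∈ E, cn P r = 1) (hv : cn P v ≠ 1) {ε : ℝ} (hε : 0 < ε) :
    ∃ (d : ℕ) (_ : 0 < d) (Ψ : FreeGroup P →* Equiv.Perm (Fin d)),
      (ct fun y => (∃ r ∈ E, Ψ r y ≠ y) ∨ Ψ v y = y) ≤ ε * d := by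
  classical
  haveI := sF_neBot hP
  set η : ℝ := ε / (E.card + 1) with hη
  have hη0 : 0 < η := by positivity
  have h1 : ∀ᶠ x in sF P, ∀ r ∈ E, (ct fun y => Ps x r y ≠ y) ≤ η * x.d := by
    rw [eventually_all_finset]
    exact fun r hr => sv_rel (hE r hr) hη0
  obtain ⟨x, hx1, hx2⟩ := (h1.and (sv_nrel hv hη0)).exists
  refine ⟨x.d, x.pos, Ps x, ?_⟩
  have h2 : (ct fun y => (∃ r ∈ E, Ps x r y ≠ y) ∨ Ps x v y = y) ≤
      (ct fun y => ∃ r ∈ E, Ps x r y ≠ y) + ct fun y => Ps x v y = y := ct_le_add fun y hy => hy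
  have h3 : (ct fun y => ∃ r ∈ E, Ps x r y ≠ y) ≤ ∑ r ∈ E, ct fun y => Ps x r y ≠ y :=
    ct_le_sum E _ fun y hy => hy
  have h4 : (∑ r ∈ E, ct fun y => Ps x r y ≠ y) ≤ E.card * (η * x.d) := by
    rw [← nsmul_eq_mul]
    exact sum_le_card_nsmul _ _ _ hx1
  have h5 : (E.card : ℝ) * (η * x.d) + η * x.d = ε * x.d := by
    rw [hη]
    field_simp
  linarith

end

end Pool.Agent.N303.KS
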