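import Pool.Agent.N303.KS.Tra

/-!
# Composition of arrows and the numbers of arrows
-/

set_option autoImplicit false

namespace Pool.Agent.N303.KS

open Finset

noncomputable section

variable {V : Type} [Fintype V] {k : ℕ}

/-- composition -/
def cmp (R T : V × V → Prop) (p : V × V) : Prop := ∃ y, R (p.1, y) ∧ T (y, p.2)

theorem cmp_arw {ρ : FreeGroup (Fin k) →* Equiv.Perm V} {Z : V → Prop} {κ τ τ₁ Λ : ℝ}
    {L : V → Option V} (hS : Sys ρ Z κ τ τ₁ L) (hn : Num k κ τ τ₁ Λ) {i j l : V}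
    {R T : V × V → Prop} (hR : Arw ρ L τ₁ i j R) (hT : Arw ρ L τ₁ j l T) :
    Arw ρ L (τ / 4) i l (cmp R T) := by
  classical
  have hκ := hn.κ0
  have hκ1 := hn.κ1
  have hτ := hn.τ0
  have hτ₁ := hn.τ₁0
  obtain ⟨s1, s2⟩ := arw_size hκ1 hτ.le (by linarith [hn.a3]) hS.irr hR
  obtain ⟨s3, s4⟩ := arw_size hκ1 hτ.le (by linarith [hn.a3]) hS.irr hT
  have l1 := hR.le_src
  have l2 := hR.le_tgt
  have l3 := hT.le_src
  have l4 := hT.le_tgt
  have z1 := sz_nonneg L i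
  have z2 := sz_nonneg L j
  have z3 := sz_nonneg L l
  have c1 : sz L j ≤ 102 / 100 * sz L i := by nlinarith
  have c2 : sz L l ≤ 102 / 100 * sz L j := by nlinarith
  have h1 : (ct fun y => L y = some j ∧ ¬ ∃ p, T p ∧ p.1 = y) ≤ κ * sz L j := by
    have h2 := ct_split (fun y => L y = some j) (fun y => ∃ p, T p ∧ p.1 = y)
    have h3 : (ct fun y => L y = some j ∧ ∃ p, T p ∧ p.1 = y) = ct T := by
      rw [← ct_image (π := Prod.fst) hT.inj1]
      refine ct_congr fun y => ⟨fun h => h.2, fun h => ⟨?_, h⟩⟩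
      obtain ⟨p, hp, rfl⟩ := h
      exact hT.src p hp
    unfold sz at *
    linarith
  have h2 : ct R ≤ ct (cmp R T) + ct fun y => L y = some j ∧ ¬ ∃ p, T p ∧ p.1 = y := by
    rw [ct_split R (fun p => ∃ q, T q ∧ q.1 = p.2)]
    refine add_le_add ?_ ?_
    · refine ct_le_of_inj (fun p => (p.1, if h : ∃ q, T q ∧ q.1 = p.2 then h.choose.2 else p.2))
        ?_ ?_
      · rintro p ⟨hp, hq⟩
        simp only [dif_pos hq]
        refine ⟨p.2, hp, ?_⟩
        have h3 := hq.choose_spec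
        have h4 : hq.choose = (p.2, hq.choose.2) := Prod.ext h3.2 rfl
        have h5 := h3.1
        rw [h4] at h5
        exact h5
      · rintro p p' ⟨hp, -⟩ ⟨hp', -⟩ h
        exact hR.inj1 p p' hp hp' (Prod.ext_iff.1 h).1
    · exact ct_le_of_inj Prod.snd (fun p hp => ⟨hR.tgt p hp.1, hp.2⟩)
        fun p q hp hq h => hR.inj2 p q hp.1 hq.1 h
  refine ⟨?_, ?_, ?_, ?_, ?_, ?_, ?_⟩
  · rintro p ⟨y, hy, -⟩
    exact hR.src (p.1, y) hy
  · rintro p ⟨y, -, hy⟩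
    exact hT.tgt (y, p.2) hy
  · rintro ⟨x, z⟩ ⟨x', z'⟩ ⟨y, hy1, hy2⟩ ⟨y', hy1', hy2'⟩ hxx
    simp only at hxx
    subst hxx
    have h3 : y = y' := congrArg Prod.snd (hR.inj1 _ _ hy1 hy1' rfl)
    subst h3
    have h4 : z = z' := congrArg Prod.snd (hT.inj1 _ _ hy2 hy2' rfl)
    rw [h4]
  · rintro ⟨x, z⟩ ⟨x', z'⟩ ⟨y, hy1, hy2⟩ ⟨y', hy1', hy2'⟩ hzz
    simp only at hzz
    subst hzz
    have h3 : y = y' := congrArg Prod.fst (hT.inj2 _ _ hy2 hy2' rfl)
    subst h3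
    have h4 : x = x' := congrArg Prod.fst (hR.inj2 _ _ hy1 hy1' rfl)
    rw [h4]
  · nlinarith [hR.pos.1]
  · nlinarith [hR.pos.1]
  · have hb : bd (pr ρ ρ) (cmp R T) ≤ bd (pr ρ ρ) R + bd (pr ρ ρ) T := by
      unfold bd
      rw [← sum_add_distrib]
      refine sum_le_sum fun s _ => ?_
      refine (ct_le_add
        (q := fun p => ∃ y, (R (p.1, y) ∧ ¬ R (pr ρ ρ (FreeGroup.of s) (p.1, y))) ∧ T (y, p.2))
        (r := fun p => ∃ y, (T (y, p.2) ∧ ¬ T (pr ρ ρ (FreeGroup.of s) (y, p.2))) ∧ R (p.1, y))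
        ?_).trans (add_le_add ?_ ?_)
      · rintro p ⟨⟨y, hy1, hy2⟩, hp⟩
        by_cases c1 : R (pr ρ ρ (FreeGroup.of s) (p.1, y))
        · by_cases c2 : T (pr ρ ρ (FreeGroup.of s) (y, p.2))
          · exact absurd ⟨_, c1, c2⟩ hp
          · exact Or.inr ⟨y, ⟨hy2, c2⟩, hy1⟩
        · exact Or.inl ⟨y, ⟨hy1, c1⟩, hy2⟩
      · refine ct_le_of_inj (fun p => if h : ∃ y, (R (p.1, y) ∧
          ¬ R (pr ρ ρ (FreeGroup.of s) (p.1, y))) ∧ T (y, p.2) then (p.1, h.choose) else p) ?_ ?_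
        · intro p hp
          simp only [dif_pos hp]
          exact hp.choose_spec.1
        · intro p p' hp hp' h
          simp only [dif_pos hp, dif_pos hp'] at h
          have e1 : p.1 = p'.1 := (Prod.ext_iff.1 h).1
          have e2 : hp.choose = hp'.choose := (Prod.ext_iff.1 h).2
          have e3 := hp.choose_spec.2
          rw [e2] at e3
          have e4 := hT.inj1 (hp'.choose, p.2) (hp'.choose, p'.2) e3 hp'.choose_spec.2 rfl
          exact Prod.ext e1 (Prod.ext_iff.1 e4).2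
      · refine ct_le_of_inj (fun p => if h : ∃ y, (T (y, p.2) ∧
          ¬ T (pr ρ ρ (FreeGroup.of s) (y, p.2))) ∧ R (p.1, y) then (h.choose, p.2) else p) ?_ ?_
        · intro p hp
          simp only [dif_pos hp]
          exact hp.choose_spec.1
        · intro p p' hp hp' h
          simp only [dif_pos hp, dif_pos hp'] at h
          have e1 : p.2 = p'.2 := (Prod.ext_iff.1 h).2
          have e2 : hp.choose = hp'.choose := (Prod.ext_iff.1 h).1
          have e3 := hp.choose_spec.2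
          rw [e2] at e3
          have e4 := hR.inj2 (p.1, hp'.choose) (p'.1, hp'.choose) e3 hp'.choose_spec.2 rfl
          exact Prod.ext (Prod.ext_iff.1 e4).1 e1
    have b1 := hR.bdy
    have b2 := hT.bdy
    have b3 := hn.a3
    have b4 : τ₁ * sz L j ≤ τ₁ * (102 / 100 * sz L i) := mul_le_mul_of_nonneg_left c1 hτ₁
    have b5 : τ₁ * sz L i ≤ τ / 200 * sz L i := mul_le_mul_of_nonneg_right b3 z1
    have b6 : 0 ≤ τ * sz L i := by positivity
    linarith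

theorem cmp_refl_close {ρ : FreeGroup (Fin k) →* Equiv.Perm V} {τ₁ : ℝ}
    {L : V → Option V} {i j : V} {R T T' : V × V → Prop} (hR : Arw ρ L τ₁ i j R) :
    (ct fun p => cmp R T p ∧ cmp R T' p) ≤ ct fun p => T p ∧ T' p := by
  classical
  refine ct_le_of_inj (fun p => if h : ∃ y, R (p.1, y) ∧ T (y, p.2) then (h.choose, p.2) else p)
    ?_ ?_
  · rintro p ⟨hp, y', hy1', hy2'⟩
    simp only [cmp] at hp
    simp only [dif_pos hp]
    have h1 := hp.choose_spec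
    have h2 : hp.choose = y' := congrArg Prod.snd (hR.inj1 _ _ h1.1 hy1' rfl)
    refine ⟨h1.2, ?_⟩
    rw [h2]
    exact hy2'
  · rintro p p' ⟨hp, -⟩ ⟨hp', -⟩ h
    simp only [cmp] at hp hp'
    simp only [dif_pos hp, dif_pos hp'] at h
    have e1 : p.2 = p'.2 := (Prod.ext_iff.1 h).2
    have e2 : hp.choose = hp'.choose := (Prod.ext_iff.1 h).1
    have e3 := hp.choose_spec.1
    rw [e2] at e3
    have e4 := hR.inj2 (p.1, hp'.choose) (p'.1, hp'.choose) e3 hp'.choose_spec.1 rfl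
    exact Prod.ext (Prod.ext_iff.1 e4).1 e1

/-- the inverse -/
def flp (R : V × V → Prop) (p : V × V) : Prop := R (p.2, p.1)

theorem ct_flp (R : V × V → Prop) : ct (flp R) = ct R :=
  le_antisymm
    (ct_le_of_inj (fun p => (p.2, p.1)) (fun _ h => h) fun p q _ _ h =>
      Prod.ext (congrArg Prod.snd h) (congrArg Prod.fst h))
    (ct_le_of_inj (fun p => (p.2, p.1)) (fun _ h => h) fun p q _ _ h =>
      Prod.ext (congrArg Prod.snd h) (congrArg Prod.fst h))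

theorem flp_arw {ρ : FreeGroup (Fin k) →* Equiv.Perm V} {Z : V → Prop} {κ τ τ₁ Λ : ℝ}
    {L : V → Option V} (hS : Sys ρ Z κ τ τ₁ L) (hn : Num k κ τ τ₁ Λ) {i j : V}
    {R : V × V → Prop} (hR : Arw ρ L τ₁ i j R) : Arw ρ L (τ / 4) j i (flp R) := by
  have hκ := hn.κ0
  have hκ1 := hn.κ1
  have hτ := hn.τ0
  have hτ₁ := hn.τ₁0
  obtain ⟨s1, s2⟩ := arw_size hκ1 hτ.le (by linarith [hn.a3]) hS.irr hR
  have l2 := hR.le_tgt
  have z1 := sz_nonneg L i
  have z2 := sz_nonneg L j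
  refine ⟨fun p hp => hR.tgt _ hp, fun p hp => hR.src _ hp, ?_, ?_, ?_, ?_, ?_⟩
  · intro p q hp hq h
    have h1 := hR.inj2 _ _ hp hq h
    exact Prod.ext h (congrArg Prod.fst h1)
  · intro p q hp hq h
    have h1 := hR.inj1 _ _ hp hq h
    exact Prod.ext (congrArg Prod.snd h1) h
  · rw [ct_flp]; exact hR.big2
  · rw [ct_flp]; exact hR.big1
  · have h1 : bd (pr ρ ρ) (flp R) = bd (pr ρ ρ) R := by
      unfold bd
      refine sum_congr rfl fun s _ => ?_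
      exact ct_flp fun p => R p ∧ ¬ R (pr ρ ρ (FreeGroup.of s) p)
    rw [h1]
    have b1 := hR.bdy
    have b3 := hn.a3
    have c1 : sz L i ≤ 102 / 100 * sz L j := by nlinarith
    have b4 : τ₁ * sz L i ≤ τ₁ * (102 / 100 * sz L j) := mul_le_mul_of_nonneg_left c1 hτ₁
    have b5 : τ₁ * sz L j ≤ τ / 200 * sz L j := mul_le_mul_of_nonneg_right b3 z2
    have b6 : 0 ≤ τ * sz L j := by positivity
    linarith

theorem one_arw {ρ : FreeGroup (Fin k) →* Equiv.Perm V} {Z : V → Prop} {κ τ τ₁ Λ : ℝ}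
    {L : V → Option V} (hS : Sys ρ Z κ τ τ₁ L) (hn : Num k κ τ τ₁ Λ) {i : V}
    (hi : 0 < sz L i) : Arw ρ L (τ / 4) i i fun p => p.1 = p.2 ∧ L p.1 = some i := by
  have h0 : (ct fun p : V × V => p.1 = p.2 ∧ L p.1 = some i) = sz L i :=
    le_antisymm (ct_le_of_inj Prod.fst (fun p h => h.2) fun p q hp hq h => by
        refine Prod.ext h ?_
        rw [← hp.1, ← hq.1, h])
      (ct_le_of_inj (fun x => (x, x)) (fun x h => ⟨rfl, h⟩) fun x y _ _ h => congrArg Prod.fst h)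
  refine ⟨fun p hp => hp.2, fun p hp => by rw [← hp.1]; exact hp.2, ?_, ?_, ?_, ?_, ?_⟩
  · intro p q hp hq h
    refine Prod.ext h ?_
    rw [← hp.1, ← hq.1, h]
  · intro p q hp hq h
    refine Prod.ext ?_ h
    rw [hp.1, hq.1, h]
  · rw [h0]; linarith
  · rw [h0]; linarith
  · have h1 : bd (pr ρ ρ) (fun p : V × V => p.1 = p.2 ∧ L p.1 = some i) ≤
        bd ρ fun x => L x = some i := by
      unfold bd
      refine sum_le_sum fun s _ => ct_le_of_inj Prod.fst ?_ ?_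
      · rintro p ⟨⟨h1, h2⟩, h3⟩
        refine ⟨h2, fun h4 => h3 ⟨?_, h4⟩⟩
        show ρ (FreeGroup.of s) p.1 = ρ (FreeGroup.of s) p.2
        rw [h1]
      · rintro p q ⟨hp, -⟩ ⟨hq, -⟩ h
        refine Prod.ext h ?_
        rw [← hp.1, ← hq.1, h]
    have h2 := hS.bdy i
    have h3 := hn.a3
    have h4 := hn.τ0
    nlinarith

open Classical in
/-- the number of arrows between two pieces -/
def nij (Y : Finset (AD V)) (i j : V) : ℕ := (Y.filter fun a => a.1 = i ∧ a.2.1 = j).card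

open Classical in
/-- the number of arrows from a piece -/
def ni (Y : Finset (AD V)) (i : V) : ℕ := (Y.filter fun a => a.1 = i).card

open Classical in
theorem ni_eq_sum (Y : Finset (AD V)) (i : V) : ni Y i = ∑ j, nij Y i j := by
  unfold ni nij
  rw [card_eq_sum_card_fiberwise (f := fun a : AD V => a.2.1) (t := univ)
    (fun x _ => mem_coe.2 (mem_univ _))]
  refine sum_congr rfl fun j _ => ?_
  rw [filter_filter]

theorem card_le_rel {A B : Type*} {S : Finset A} {T : Finset B} (r : A → B → Prop)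
    (h1 : ∀ a ∈ S, ∃ b ∈ T, r a b) (h2 : ∀ a ∈ S, ∀ a' ∈ S, ∀ b ∈ T, r a b → r a' b → a = a') :
    S.card ≤ T.card := by
  classical
  have h1' : ∀ a : S, ∃ b ∈ T, r a b := fun a => h1 a a.2
  choose f hf using h1'
  rw [← card_attach]
  refine card_le_card_of_injOn f (fun a _ => (hf a).1) ?_
  intro a _ a' _ h
  have h3 := (hf a').2
  rw [← h] at h3
  exact Subtype.ext (h2 a a.2 a' a'.2 _ (hf a).1 (hf a).2 h3)

section num

variable {ρ : FreeGroup (Fin k) →* Equiv.Perm V} {Z : V → Prop} {κ τ τ₁ Λ : ℝ}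
  {L : V → Option V} {Y : Finset (AD V)}

theorem nij_cmp (hY : Rep ρ κ τ τ₁ L Y) (hS : Sys ρ Z κ τ τ₁ L) (hn : Num k κ τ τ₁ Λ) {a : AD V}
    (ha : a ∈ Y) (l : V) : nij Y a.2.1 l ≤ nij Y a.1 l := by
  classical
  unfold nij
  refine card_le_rel (fun t b => (1 - κ) * sz L a.1 ≤ ct fun p => cmp a.2.2 t.2.2 p ∧ b.2.2 p)
    ?_ ?_
  · intro t ht
    obtain ⟨ht1, ht2, ht3⟩ := mem_filter.1 ht
    have h1 := hY.arw t ht1
    rw [ht2, ht3] at h1
    obtain ⟨b, hb, hb1, hb2, hb3⟩ := hY.rep _ _ _ (cmp_arw hS hn (hY.arw a ha) h1)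
    exact ⟨b, mem_filter.2 ⟨hb, hb1, hb2⟩, hb3⟩
  · intro t ht t' ht' b hb h1 h2
    obtain ⟨ht1, ht2, ht3⟩ := mem_filter.1 ht
    obtain ⟨ht1', ht2', ht3'⟩ := mem_filter.1 ht'
    obtain ⟨hb1, hb2, hb3⟩ := mem_filter.1 hb
    apply hY.eq_of ht1 ht1'
    have h3 := cmp_refl_close (T := t.2.2) (T' := t'.2.2) (hY.arw a ha)
    have h4 : (ct fun p => cmp a.2.2 t.2.2 p ∧ b.2.2 p) ≤
        (ct fun p => cmp a.2.2 t.2.2 p ∧ cmp a.2.2 t'.2.2 p) +
        ct fun p => b.2.2 p ∧ ¬ cmp a.2.2 t'.2.2 p := ct_le_add fun p hp => by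
      by_cases h : cmp a.2.2 t'.2.2 p
      · exact Or.inl ⟨hp.1, h⟩
      · exact Or.inr ⟨hp.2, h⟩
    have h5 := ct_split b.2.2 (cmp a.2.2 t'.2.2)
    have h6 : (ct fun p => b.2.2 p ∧ cmp a.2.2 t'.2.2 p) =
        ct fun p => cmp a.2.2 t'.2.2 p ∧ b.2.2 p := ct_congr fun p => and_comm
    have h7 := (hY.arw b hb1).le_src
    rw [hb2] at h7
    have h8 := (hY.size hS hn ha).2
    have h9 := (hY.arw a ha).le_src
    have h10 := (hY.arw a ha).pos
    have hκ := hn.κ0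
    have hκ1 := hn.κ1
    rw [ht2]
    have z1 := sz_nonneg L a.2.1
    have c1 : sz L a.2.1 ≤ 102 / 100 * sz L a.1 := by nlinarith
    nlinarith

theorem nij_flp (hY : Rep ρ κ τ τ₁ L Y) (hS : Sys ρ Z κ τ τ₁ L) (hn : Num k κ τ τ₁ Λ) (i j : V) :
    nij Y i j ≤ nij Y j i := by
  classical
  unfold nij
  refine card_le_rel (fun t b => (1 - κ) * sz L j ≤ ct fun p => flp t.2.2 p ∧ b.2.2 p)
    ?_ ?_
  · intro t ht
    obtain ⟨ht1, ht2, ht3⟩ := mem_filter.1 ht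
    have h1 := hY.arw t ht1
    rw [ht2, ht3] at h1
    obtain ⟨b, hb, hb1, hb2, hb3⟩ := hY.rep _ _ _ (flp_arw hS hn h1)
    exact ⟨b, mem_filter.2 ⟨hb, hb1, hb2⟩, hb3⟩
  · intro t ht t' ht' b hb h1 h2
    obtain ⟨ht1, ht2, ht3⟩ := mem_filter.1 ht
    obtain ⟨ht1', ht2', ht3'⟩ := mem_filter.1 ht'
    obtain ⟨hb1, hb2, hb3⟩ := mem_filter.1 hb
    apply hY.eq_of ht1 ht1'
    have h3 : (ct fun p => flp t.2.2 p ∧ flp t'.2.2 p) = ct fun p => t.2.2 p ∧ t'.2.2 p :=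
      ct_flp fun p => t.2.2 p ∧ t'.2.2 p
    have h4 : (ct fun p => flp t.2.2 p ∧ b.2.2 p) ≤
        (ct fun p => flp t.2.2 p ∧ flp t'.2.2 p) +
        ct fun p => b.2.2 p ∧ ¬ flp t'.2.2 p := ct_le_add fun p hp => by
      by_cases h : flp t'.2.2 p
      · exact Or.inl ⟨hp.1, h⟩
      · exact Or.inr ⟨hp.2, h⟩
    have h5 := ct_split b.2.2 (flp t'.2.2)
    have h6 : (ct fun p => b.2.2 p ∧ flp t'.2.2 p) =
        ct fun p => flp t'.2.2 p ∧ b.2.2 p := ct_congr fun p => and_comm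
    have h7 := (hY.arw b hb1).le_src
    rw [hb2] at h7
    have h8 := (hY.size hS hn ht1).1
    have h9 := (hY.arw t ht1).le_tgt
    have h10 := (hY.arw t ht1).pos
    rw [ht3] at h9 h10
    have hκ := hn.κ0
    have hκ1 := hn.κ1
    have z1 := sz_nonneg L t.1
    have c1 : sz L t.1 ≤ 102 / 100 * sz L j := by nlinarith
    nlinarith

theorem nij_symm (hY : Rep ρ κ τ τ₁ L Y) (hS : Sys ρ Z κ τ τ₁ L) (hn : Num k κ τ τ₁ Λ) (i j : V) :
    nij Y i j = nij Y j i := le_antisymm (nij_flp hY hS hn i j) (nij_flp hY hS hn j i)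

theorem ni_eq (hY : Rep ρ κ τ τ₁ L Y) (hS : Sys ρ Z κ τ τ₁ L) (hn : Num k κ τ τ₁ Λ) {a : AD V}
    (ha : a ∈ Y) : ni Y a.1 = ni Y a.2.1 := by
  classical
  apply le_antisymm
  · have h1 : 0 < nij Y a.1 a.2.1 := card_pos.2 ⟨a, mem_filter.2 ⟨ha, rfl, rfl⟩⟩
    rw [nij_symm hY hS hn] at h1
    obtain ⟨b, hb⟩ := card_pos.1 h1
    obtain ⟨hb1, hb2, hb3⟩ := mem_filter.1 hb
    rw [ni_eq_sum, ni_eq_sum]
    refine sum_le_sum fun l _ => ?_
    have := nij_cmp hY hS hn hb1 l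
    rwa [hb2, hb3] at this
  · rw [ni_eq_sum, ni_eq_sum]
    exact sum_le_sum fun l _ => nij_cmp hY hS hn ha l

theorem ni_pos (hY : Rep ρ κ τ τ₁ L Y) (hS : Sys ρ Z κ τ τ₁ L) (hn : Num k κ τ τ₁ Λ) {i : V}
    (hi : 0 < sz L i) : 0 < ni Y i := by
  classical
  obtain ⟨a, ha, ha1, -, -⟩ := hY.rep i i _ (one_arw hS hn hi)
  exact card_pos.2 ⟨a, mem_filter.2 ⟨ha, ha1⟩⟩

end num

end

end Pool.Agent.N303.KS
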