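import Mathlib

/-!
# Counting
-/

set_option autoImplicit false

namespace Pool.Agent.N303.KS

open Finset

noncomputable section

open Classical in
/-- The number of elements with a given property, as a real number. -/
def ct {A : Type*} [Fintype A] (p : A → Prop) : ℝ := ((univ.filter p).card : ℝ)

variable {A B : Type*} [Fintype A] [Fintype B]

theorem ct_nonneg (p : A → Prop) : 0 ≤ ct p := Nat.cast_nonneg _

theorem ct_le_of_inj {p : A → Prop} {q : B → Prop} (f : A → B) (hf : ∀ a, p a → q (f a))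
    (hi : ∀ a a', p a → p a' → f a = f a' → a = a') : ct p ≤ ct q := by
  classical
  unfold ct
  have : (univ.filter p).card ≤ (univ.filter q).card := by
    refine card_le_card_of_injOn f ?_ ?_
    · intro a ha
      have ha' : p a := by simpa using ha
      simpa using hf a ha'
    · intro a ha b hb hab
      exact hi a b (by simpa using ha) (by simpa using hb) hab
  exact_mod_cast this

theorem ct_mono {p q : A → Prop} (h : ∀ a, p a → q a) : ct p ≤ ct q :=
  ct_le_of_inj id h fun _ _ _ _ h => h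

theorem ct_congr {p q : A → Prop} (h : ∀ a, p a ↔ q a) : ct p = ct q :=
  le_antisymm (ct_mono fun a => (h a).1) (ct_mono fun a => (h a).2)

theorem ct_perm (p : A → Prop) (σ : Equiv.Perm A) : ct (fun a => p (σ a)) = ct p :=
  le_antisymm (ct_le_of_inj σ (fun _ h => h) fun _ _ _ _ h => σ.injective h)
    (ct_le_of_inj (fun a => σ⁻¹ a) (fun a h => by
      show p (σ (σ⁻¹ a))
      rw [show σ (σ⁻¹ a) = a from σ.apply_symm_apply a]; exact h)
      fun _ _ _ _ h => (σ⁻¹).injective h)

theorem ct_split (p q : A → Prop) : ct p = ct (fun a => p a ∧ q a) + ct fun a => p a ∧ ¬ q a := by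
  classical
  unfold ct
  have h := card_filter_add_card_filter_not (s := univ.filter p) q
  rw [filter_filter, filter_filter] at h
  rw [← h, Nat.cast_add]
  congr!

theorem ct_le_add {p q r : A → Prop} (h : ∀ a, p a → q a ∨ r a) : ct p ≤ ct q + ct r := by
  rw [ct_split p q]
  exact add_le_add (ct_mono fun a ha => ha.2) (ct_mono fun a ha => (h a ha.1).resolve_left ha.2)

theorem ct_pos {p : A → Prop} (h : 0 < ct p) : ∃ a, p a := by
  classical
  unfold ct at h
  have h' : 0 < (univ.filter p).card := by exact_mod_cast h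
  obtain ⟨a, ha⟩ := card_pos.1 h'
  exact ⟨a, by simpa using ha⟩

theorem ct_pos' {p : A → Prop} {a : A} (h : p a) : 1 ≤ ct p := by
  classical
  unfold ct
  have : 1 ≤ (univ.filter p).card := card_pos.2 ⟨a, by simpa using h⟩
  exact_mod_cast this

theorem ct_false {p : A → Prop} (h : ∀ a, ¬ p a) : ct p = 0 := by
  classical
  unfold ct
  rw [filter_false_of_mem fun a _ => h a]
  simp

theorem ct_univ : ct (fun _ : A => True) = Fintype.card A := by
  classical
  unfold ct
  simp

theorem ct_fiber {I : Type*} [Fintype I] (p : A → Prop) (L : A → I) :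
    ct p = ∑ i, ct fun a => p a ∧ L a = i := by
  classical
  unfold ct
  rw [← Nat.cast_sum]
  congr 1
  rw [card_eq_sum_card_fiberwise (f := L) (t := univ) (fun x _ => mem_coe.2 (mem_univ _))]
  refine sum_congr rfl fun i _ => ?_
  rw [filter_filter]
  congr!

theorem ct_eq_sum (p : A → Prop) [DecidablePred p] : ct p = ∑ a, if p a then (1 : ℝ) else 0 := by
  classical
  unfold ct
  rw [Finset.sum_boole]
  congr!

theorem ct_le_sum {I : Type*} (s : Finset I) {p : A → Prop} (q : I → A → Prop)
    (h : ∀ a, p a → ∃ i ∈ s, q i a) : ct p ≤ ∑ i ∈ s, ct (q i) := by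
  classical
  revert p
  induction s using Finset.induction_on with
  | empty =>
    intro p h
    rw [sum_empty, ct_false]
    intro a ha
    obtain ⟨i, hi, -⟩ := h a ha
    exact absurd hi (notMem_empty _)
  | insert i s hi ih =>
    intro p h
    rw [sum_insert hi]
    refine (ct_le_add (q := q i) (r := fun a => ∃ j ∈ s, q j a) ?_).trans
      (by linarith [ih (p := fun a => ∃ j ∈ s, q j a) fun a h => h])
    intro a ha
    obtain ⟨j, hj, hq⟩ := h a ha
    rcases mem_insert.1 hj with rfl | hj
    · exact Or.inl hq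
    · exact Or.inr ⟨j, hj, hq⟩

/-- Markov's inequality for weights -/
theorem markov {I : Type*} [Fintype I] {w v : I → ℝ} {c T : ℝ} (hc : 0 < c)
    (hv : ∀ i, 0 ≤ v i) (hT : ∑ i, v i ≤ T) (p : I → Prop) [DecidablePred p]
    (h : ∀ i, p i → c * w i ≤ v i) : ∑ i ∈ univ.filter p, w i ≤ T / c := by
  rw [le_div_iff₀ hc, sum_mul]
  refine le_trans (sum_le_sum fun i hi => ?_) (le_trans (sum_le_sum_of_subset_of_nonneg
    (filter_subset _ _) fun i _ _ => hv i) hT)
  have := h i (mem_filter.1 hi).2
  linarith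

section boundary

variable {k : ℕ}

/-- The boundary of a set with respect to the generators. -/
def bd (ρ : FreeGroup (Fin k) →* Equiv.Perm A) (p : A → Prop) : ℝ :=
  ∑ s, ct fun a => p a ∧ ¬ p (ρ (FreeGroup.of s) a)

theorem bd_nonneg (ρ : FreeGroup (Fin k) →* Equiv.Perm A) (p : A → Prop) : 0 ≤ bd ρ p :=
  sum_nonneg fun _ _ => ct_nonneg _

/-- the boundary in the inverse direction -/
theorem ct_inv_bd (σ : Equiv.Perm A) (p : A → Prop) :
    (ct fun a => p a ∧ ¬ p (σ⁻¹ a)) = ct fun a => p a ∧ ¬ p (σ a) := by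
  have h1 : (ct fun a => p a ∧ ¬ p (σ⁻¹ a)) = ct fun a => p (σ a) ∧ ¬ p a := by
    rw [← ct_perm (fun a => p a ∧ ¬ p (σ⁻¹ a)) σ]
    refine ct_congr fun a => ?_
    rw [show σ⁻¹ (σ a) = a from σ.symm_apply_apply a]
  have h2 := ct_split (fun a => p (σ a)) p
  have h3 := ct_split p (fun a => p (σ a))
  rw [ct_perm] at h2
  have h4 : (ct fun a => p (σ a) ∧ p a) = ct fun a => p a ∧ p (σ a) :=
    ct_congr fun a => and_comm
  rw [h1]
  linarith

/-- the number of points leaving a set under a word is controlled by the boundary -/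
theorem word_bd (w : FreeGroup (Fin k)) :
    ∃ L : ℕ, ∀ (A : Type) [Fintype A] (ρ : FreeGroup (Fin k) →* Equiv.Perm A) (p : A → Prop),
      (ct fun a => p a ∧ ¬ p (ρ w a)) ≤ L * bd ρ p := by
  induction w using FreeGroup.induction_on with
  | C1 =>
    refine ⟨0, fun A _ ρ p => ?_⟩
    rw [ct_false]
    · simp
    · rintro a ⟨h1, h2⟩
      rw [map_one] at h2
      exact h2 h1
  | of s =>
    refine ⟨1, fun A _ ρ p => ?_⟩
    rw [Nat.cast_one, one_mul, bd]
    exact single_le_sum (f := fun s => ct fun a => p a ∧ ¬ p (ρ (FreeGroup.of s) a))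
      (fun _ _ => ct_nonneg _) (mem_univ s)
  | inv_of s _ =>
    refine ⟨1, fun A _ ρ p => ?_⟩
    rw [Nat.cast_one, one_mul, bd, map_inv, ct_inv_bd]
    exact single_le_sum (f := fun s => ct fun a => p a ∧ ¬ p (ρ (FreeGroup.of s) a))
      (fun _ _ => ct_nonneg _) (mem_univ s)
  | mul u v hu hv =>
    obtain ⟨L, hL⟩ := hu
    obtain ⟨M, hM⟩ := hv
    refine ⟨L + M, fun A _ ρ p => ?_⟩
    have h1 : (ct fun a => p a ∧ ¬ p (ρ (u * v) a)) ≤
        (ct fun a => p (ρ v a) ∧ ¬ p (ρ u (ρ v a))) + ct fun a => p a ∧ ¬ p (ρ v a) := by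
      refine ct_le_add fun a ha => ?_
      by_cases h : p (ρ v a)
      · refine Or.inl ⟨h, ?_⟩
        have := ha.2
        rw [map_mul] at this
        exact this
      · exact Or.inr ⟨ha.1, h⟩
    rw [ct_perm (fun a => p a ∧ ¬ p (ρ u a)) (ρ v)] at h1
    have h2 := hL A ρ p
    have h3 := hM A ρ p
    push_cast
    linarith

end boundary

end

end Pool.Agent.N303.KS
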