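import Pool.Agent.N303.KS.Mov

/-!
# Representatives of the classes of arrows
-/

set_option autoImplicit false

namespace Pool.Agent.N303.KS

open Finset

noncomputable section

section fl

variable {A : Type*} [Fintype A]

/-- the number of points of `P` which `Φ` does not map to `Q` -/
def fl (Φ : Equiv.Perm A) (P Q : A → Prop) : ℝ := ct fun a => P a ∧ ¬ Q (Φ a)

theorem fl_nonneg (Φ : Equiv.Perm A) (P Q : A → Prop) : 0 ≤ fl Φ P Q := ct_nonneg _

theorem fl_comp (Ψ Φ : Equiv.Perm A) (P Q R : A → Prop) :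
    fl (Ψ * Φ) P R ≤ fl Φ P Q + fl Ψ Q R := by
  unfold fl
  rw [← ct_perm (fun a => Q a ∧ ¬ R (Ψ a)) Φ]
  refine ct_le_add fun a ha => ?_
  by_cases h : Q (Φ a)
  · exact Or.inr ⟨h, ha.2⟩
  · exact Or.inl ⟨ha.1, h⟩

theorem fl_inv (Φ : Equiv.Perm A) (P Q : A → Prop) :
    fl Φ⁻¹ Q P = ct Q - ct P + fl Φ P Q := by
  unfold fl
  have h1 := ct_split Q (fun a => P (Φ⁻¹ a))
  have h2 := ct_split P (fun a => Q (Φ a))
  have h3 : (ct fun a => Q a ∧ P (Φ⁻¹ a)) = ct fun a => P a ∧ Q (Φ a) := by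
    rw [← ct_perm (fun a => Q a ∧ P (Φ⁻¹ a)) Φ]
    refine ct_congr fun a => ?_
    rw [show Φ⁻¹ (Φ a) = a from Φ.symm_apply_apply a]
    exact and_comm
  linarith

theorem overlap (Φ : Equiv.Perm A) (P Q Q' : A → Prop) :
    ct P - fl Φ P Q - fl Φ P Q' ≤ ct fun a => Q a ∧ Q' a := by
  have h1 : ct P ≤ (ct fun a => (P a ∧ ¬ Q (Φ a)) ∨ (P a ∧ ¬ Q' (Φ a))) +
      ct fun a => Q (Φ a) ∧ Q' (Φ a) := ct_le_add fun a ha => by
    by_cases h : Q (Φ a)
    · by_cases h' : Q' (Φ a)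
      · exact Or.inr ⟨h, h'⟩
      · exact Or.inl (Or.inr ⟨ha, h'⟩)
    · exact Or.inl (Or.inl ⟨ha, h⟩)
  have h2 : (ct fun a => (P a ∧ ¬ Q (Φ a)) ∨ (P a ∧ ¬ Q' (Φ a))) ≤ fl Φ P Q + fl Φ P Q' :=
    ct_le_add fun a ha => ha
  rw [ct_perm (fun a => Q a ∧ Q' a) Φ] at h1
  linarith

end fl

variable {V : Type} [Fintype V] {k : ℕ}

theorem bd_and (ρ : FreeGroup (Fin k) →* Equiv.Perm V) (P Q : V → Prop) :
    bd ρ (fun x => P x ∧ Q x) ≤ bd ρ P + bd ρ Q := by
  unfold bd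
  rw [← sum_add_distrib]
  refine sum_le_sum fun s _ => ct_le_add fun x hx => ?_
  by_cases h : P (ρ (FreeGroup.of s) x)
  · exact Or.inr ⟨hx.1.2, fun h' => hx.2 ⟨h, h'⟩⟩
  · exact Or.inl ⟨hx.1.1, h⟩

/-- labelled predicates on pairs -/
abbrev AD (V : Type) := V × V × (V × V → Prop)

/-- dichotomy for intersections of arrows -/
theorem inter_irr {ρ : FreeGroup (Fin k) →* Equiv.Perm V} {Z : V → Prop} {κ τ τ₁ : ℝ}
    {L : V → Option V} (hS : Sys ρ Z κ τ τ₁ L) {i j : V} {t t' : ℝ} (ht : t + t' ≤ τ)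
    {R R' : V × V → Prop} (h : Arw ρ L t i j R) (h' : Arw ρ L t' i j R') :
    (ct fun p => R p ∧ R' p) ≤ κ * sz L i ∨ (1 - κ) * sz L i ≤ ct fun p => R p ∧ R' p := by
  refine src_irr (hS.irr i) (fun p hp => h.src p hp.1) (fun p q hp hq hpq =>
    h.inj1 p q hp.1 hq.1 hpq) ?_
  have h1 := bd_and (pr ρ ρ) R R'
  have h2 := h.bdy
  have h3 := h'.bdy
  have h4 := mul_le_mul_of_nonneg_right ht (sz_nonneg L i)
  linarith

/-- representatives of the classes of arrows -/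
structure Rep (ρ : FreeGroup (Fin k) →* Equiv.Perm V) (κ τ τ₁ : ℝ) (L : V → Option V)
    (Y : Finset (AD V)) : Prop where
  arw : ∀ a ∈ Y, Arw ρ L τ₁ a.1 a.2.1 a.2.2
  sep : ∀ a ∈ Y, ∀ b ∈ Y, a.1 = b.1 → a.2.1 = b.2.1 →
    (sz L a.1 < 2 * ct fun p => a.2.2 p ∧ b.2.2 p) → a = b
  rep : ∀ i j R, Arw ρ L (τ / 4) i j R → ∃ a ∈ Y, a.1 = i ∧ a.2.1 = j ∧
    (1 - κ) * sz L i ≤ ct fun p => R p ∧ a.2.2 p

theorem Arw.pos {ρ : FreeGroup (Fin k) →* Equiv.Perm V} {L : V → Option V} {t : ℝ} {i j : V}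
    {R : V × V → Prop} (h : Arw ρ L t i j R) : 0 < sz L i ∧ 0 < sz L j := by
  have h1 := h.big1
  have h2 := h.big2
  have h3 := h.le_src
  have h4 := h.le_tgt
  have h5 := sz_nonneg L i
  have h6 := sz_nonneg L j
  constructor <;> linarith

theorem exists_reps {ρ : FreeGroup (Fin k) →* Equiv.Perm V} {Z : V → Prop} {κ τ τ₁ : ℝ}
    {L : V → Option V} (hS : Sys ρ Z κ τ τ₁ L) (hκ1 : κ ≤ 1 / 100) (hτ : 0 < τ)
    (hτ₁ : τ₁ ≤ τ / 4) : ∃ Y : Finset (AD V), Rep ρ κ τ τ₁ L Y := by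
  classical
  set P : Finset (AD V) → Prop := fun Y => (∀ a ∈ Y, Arw ρ L τ₁ a.1 a.2.1 a.2.2) ∧
    ∀ a ∈ Y, ∀ b ∈ Y, a.1 = b.1 → a.2.1 = b.2.1 →
      (sz L a.1 < 2 * ct fun p => a.2.2 p ∧ b.2.2 p) → a = b with hP
  have hP0 : (∅ : Finset (AD V)) ∈ univ.filter P := by
    rw [mem_filter]
    exact ⟨mem_univ _, by simp [hP]⟩
  obtain ⟨Y, hY, hmax⟩ := exists_max_image (univ.filter P) (fun Y => Y.card) ⟨_, hP0⟩
  obtain ⟨hY1, hY2⟩ := (mem_filter.1 hY).2
  refine ⟨Y, hY1, hY2, fun i j R hR => ?_⟩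
  obtain ⟨R', hR', hRR'⟩ := hS.ref i j R hR
  have hpos := hR'.pos.1
  have hnear : ∃ a ∈ Y, a.1 = i ∧ a.2.1 = j ∧ sz L i < 2 * ct fun p => R' p ∧ a.2.2 p := by
    by_contra hcon
    push Not at hcon
    set b : AD V := (i, j, R') with hb
    have hbb : sz L i < 2 * ct fun p => R' p ∧ R' p := by
      have h1 := hR'.big1
      have h2 : (ct fun p => R' p ∧ R' p) = ct R' := ct_congr fun p => and_self_iff
      rw [h2]; exact h1
    have hbY : b ∉ Y := fun h => by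
      have := hcon b h rfl rfl
      linarith
    have hPi : P (insert b Y) := by
      refine ⟨?_, ?_⟩
      · intro a ha
        rcases mem_insert.1 ha with rfl | ha
        · exact hR'
        · exact hY1 a ha
      · intro a ha c hc h1 h2 h3
        rcases mem_insert.1 ha with rfl | ha
        · rcases mem_insert.1 hc with rfl | hc
          · rfl
          · have := hcon c hc h1.symm h2.symm
            simp only [hb] at h3
            linarith
        · rcases mem_insert.1 hc with rfl | hc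
          · have h4 := hcon a ha h1 h2
            rw [h1] at h3
            have h5 : (ct fun p => a.2.2 p ∧ b.2.2 p) = ct fun p => R' p ∧ a.2.2 p :=
              ct_congr fun p => and_comm
            rw [h5] at h3
            simp only [hb] at h3
            linarith
          · exact hY2 a ha c hc h1 h2 h3
    have h4 := hmax _ (mem_filter.2 ⟨mem_univ _, hPi⟩)
    rw [card_insert_of_notMem hbY] at h4
    omega
  obtain ⟨a, ha, rfl, rfl, ha'⟩ := hnear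
  refine ⟨a, ha, rfl, rfl, ?_⟩
  have e1 := inter_irr hS (t := τ / 4) (t' := τ₁) (by linarith) hR hR'
  have e2 := inter_irr hS (t := τ₁) (t' := τ₁) (by linarith) hR' (hY1 a ha)
  have e3 := inter_irr hS (t := τ / 4) (t' := τ₁) (by linarith) hR (hY1 a ha)
  have f1 : (1 - κ) * sz L a.1 ≤ ct fun p => R p ∧ R' p := e1.resolve_left fun h => by nlinarith
  have f2 : (1 - κ) * sz L a.1 ≤ ct fun p => R' p ∧ a.2.2 p :=
    e2.resolve_left fun h => by nlinarith
  refine e3.resolve_left fun h => ?_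
  have h1 := hR'.le_src
  have h2 := ct_split R' a.2.2
  have h3 : (ct fun p => R p ∧ R' p) ≤ (ct fun p => R p ∧ a.2.2 p) +
      ct fun p => R' p ∧ ¬ a.2.2 p := ct_le_add fun p hp => by
    by_cases h : a.2.2 p
    · exact Or.inl ⟨hp.1, h⟩
    · exact Or.inr ⟨hp.2, h⟩
  nlinarith

end

end Pool.Agent.N303.KS
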