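import Pool.Agent.N303.KS.Ene
import Pool.Agent.H21R2.Criterion

/-!
# The action of the quotient group on arrows satisfies the weighted criterion
-/

set_option autoImplicit false

namespace Pool.Agent.N303.KS

open Finset
open Pool.Agent.H21R2 (IsSofic WeightedCriterion mass energy isSofic_of_weighted)

noncomputable section

open Classical in
/-- weight of a set -/
def ws {T : Type} [Fintype T] (m : T → ℝ) (P : T → Prop) : ℝ := ∑ t, if P t then m t else 0

open Classical in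
/-- The criterion with weights on finite sets. -/
theorem crit_finite {G : Type*} [Group G]
    (h : ∀ A : Finset G, (1 : G) ∈ A → ∀ g ∈ A, g ≠ 1 → ∀ ε : ℝ, 0 < ε →
      ∃ (T : Type) (_ : Fintype T) (φ : G → Equiv.Perm T) (m : T → ℝ), (∀ t, 0 ≤ m t) ∧
        φ 1 = 1 ∧ 0 < ws m (fun t => φ g t ≠ t) ∧
        (∀ a ∈ A, ∑ t, |m (φ a t) - m t| ≤ ε * ws m fun t => φ g t ≠ t) ∧
        ∀ a ∈ A, ∀ b ∈ A, a * b ∈ A → (ws m fun t => φ (a * b) t ≠ φ a (φ b t)) ≤
          ε * ws m fun t => φ g t ≠ t) : IsSofic G := by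
  refine isSofic_of_weighted.{0} G ?_
  intro A h1A g hgA hg ε hε
  obtain ⟨T, _, φ, m, hm, h1, h2, h3, h4⟩ := h A h1A g hgA hg ε hε
  set f : T →₀ ℝ := Finsupp.equivFunOnFinite.symm fun t => Real.sqrt (m t) with hf
  have hfa : ∀ t, f t = Real.sqrt (m t) := fun t => rfl
  have hmass : ∀ P : T → Prop, mass f P = ws m P := by
    intro P
    rw [mass, ws, ← sum_filter]
    have h5 : ∀ t, f t ^ 2 = m t := fun t => by rw [hfa, Real.sq_sqrt (hm t)]
    simp only [h5]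
    refine sum_subset_zero_on_sdiff (filter_subset_filter _ (subset_univ _)) ?_ fun _ _ => rfl
    intro t ht
    rw [mem_sdiff, mem_filter, mem_filter, not_and] at ht
    by_contra hne
    have h6 : t ∈ f.support := by
      rw [Finsupp.mem_support_iff, hfa]
      intro h7
      rw [Real.sqrt_eq_zero (hm t)] at h7
      exact hne h7
    exact ht.2 h6 ht.1.2
  refine ⟨T, φ, f, h1, ?_, ?_, ?_⟩
  · rw [hmass]; exact h2
  · intro a ha
    rw [hmass]
    refine le_trans ?_ (h3 a ha)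
    rw [energy, tsum_fintype]
    refine sum_le_sum fun t _ => ?_
    rw [hfa, hfa]
    have a1 := Real.sqrt_nonneg (m (φ a t))
    have a2 := Real.sqrt_nonneg (m t)
    have a3 := Real.sq_sqrt (hm (φ a t))
    have a4 := Real.sq_sqrt (hm t)
    rw [← a3, ← a4, Real.sqrt_sq a1, Real.sqrt_sq a2]
    set u := Real.sqrt (m (φ a t))
    set v := Real.sqrt (m t)
    have h5 : u ^ 2 - v ^ 2 = (u - v) * (u + v) := by ring
    rw [h5, abs_mul, ← sq_abs (u - v), sq]
    refine mul_le_mul_of_nonneg_left ?_ (abs_nonneg _)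
    rw [abs_of_nonneg (add_nonneg a1 a2)]
    exact abs_le.2 ⟨by linarith, by linarith⟩
  · intro a ha b hb hab
    rw [hmass, hmass]
    exact h4 a ha b hb hab

variable {V : Type} [Fintype V] {k : ℕ}
variable {ρ : FreeGroup (Fin k) →* Equiv.Perm V} {Z : V → Prop} {κ τ τ₁ Λ : ℝ}
  {L : V → Option V} {Y : Finset (AD V)}

/-- the permutation of the arrows induced by a permutation of the vertices -/
theorem exists_perm (hY : Rep ρ κ τ τ₁ L Y) (hS : Sys ρ Z κ τ τ₁ L) (hn : Num k κ τ τ₁ Λ)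
    (α : Equiv.Perm V) : ∃ φ : Equiv.Perm Y, ∀ a b : Y, AR κ L α α a.1 b.1 → φ a = b :=
  ext_rel _ (fun a b b' h h' => Subtype.ext (ar_uniq hY hS hn a.2 b.2 b'.2 h h'))
    fun a a' b h h' => Subtype.ext (ar_inj hY hS hn a.2 a'.2 b.2 h h')

/-- displaced mass -/
theorem displaced (hY : Rep ρ κ τ τ₁ L Y) (hS : Sys ρ Z κ τ τ₁ L) (hn : Num k κ τ τ₁ Λ)
    (hZ : ct Z ≤ τ₁ * Fintype.card V) {g z : Equiv.Perm V} (hg : Ok ρ Z Λ g)
    (hz1 : Tw ρ Z (fun s => FreeGroup.of s) z) (hz2 : Tw ρ Z (fun s => FreeGroup.of s) z⁻¹)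
    (hw : WB Λ fun s : Fin k => FreeGroup.of s) (hgz : ∀ x, ¬ Z x → g (z x) ≠ z (g x))
    (φ : Equiv.Perm Y) (hφ : ∀ a b : Y, AR κ L g g a.1 b.1 → φ a = b) :
    (1 / 2 - 22 * κ) * Fintype.card V ≤ mu L Y fun a => φ a ≠ a := by
  classical
  set n : ℝ := (Fintype.card V : ℝ) with hnn
  have hn0 : 0 ≤ n := Nat.cast_nonneg _
  have hκ := hn.κ0
  have hκ1 := hn.κ1
  have hκn : 0 ≤ κ * n := by positivity
  set F : Y → Prop := fun a => φ a = a ∧ Dm κ L Y g a with hF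
  have hFR : ∀ a : Y, F a → AR κ L g g a.1 a.1 := by
    rintro a ⟨h1, b, hb⟩
    have h2 := hφ a b hb
    rw [h1] at h2
    rw [h2] at hb ⊢
    exact hb
  -- targets not moved by `z`
  have hJ : mu L Y (fun a => ¬ ∃ j, Mv κ L z a.1.2.1 j) ≤ 9 * κ * n := by
    have h1 := mass_tgt hY hS hn (fun i => ¬ ∃ j, Mv κ L z i j)
    have h2 := moves hS hn.κ0 hn.κ1 hn.τ0 hZ (by linarith [hn.Λ1]) hw hw hn.a2 hn.τ₁0 hz1 hz2
      (fun i => ¬ ∃ j, Mv κ L z i j) (fun i hi => hi)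
    have h3 := mu_filter (L := L) (Y := Y) (fun a => ¬ ∃ j, Mv κ L z a.2.1 j)
    rw [h3]
    linarith
  -- the injection
  have hinj : mu L Y (fun a => F a ∧ ∃ j, Mv κ L z a.1.2.1 j) ≤ mu L Y fun a => ¬ F a := by
    have hex : ∀ a : Y, (F a ∧ ∃ j, Mv κ L z a.1.2.1 j) → ∃ b : Y, AR κ L 1 z a.1 b.1 := by
      rintro a ⟨ha, j, hj⟩
      have h1 : Tw ρ Z (fun s => FreeGroup.of s) (1 : Equiv.Perm V) := fun s x _ => rfl
      obtain ⟨b, hb, -, -, hab, -⟩ := ar_exists hY hS hn hw h1 hz1 a.2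
        (Mv.one hκ.le (hY.arw a.1 a.2).pos.1) hj
      exact ⟨⟨b, hb⟩, hab⟩
    set S : Finset Y := univ.filter fun a => F a ∧ ∃ j, Mv κ L z a.1.2.1 j with hS'
    set ζ : Y → Y := fun a => if h : F a ∧ ∃ j, Mv κ L z a.1.2.1 j then (hex a h).choose else a
      with hζ
    have hζ1 : ∀ a ∈ S, AR κ L 1 z a.1 (ζ a).1 := by
      intro a ha
      have h := (mem_filter.1 ha).2
      rw [hζ]
      simp only [dif_pos h]
      exact (hex a h).choose_spec
    have hms : ∀ a ∈ S, ms L Y (ζ a).1 = ms L Y a.1 := by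
      intro a ha
      have h1 := (hζ1 a ha).m1
      have h2 : a.1.1 = (ζ a).1.1 := (Mv.one hκ.le h1.pos).uniq hκ1 h1
      rw [ms, ms, h2]
    have hinj' : ∀ a ∈ S, ∀ a' ∈ S, ζ a = ζ a' → a = a' := by
      intro a ha a' ha' h
      have h1 := hζ1 a ha
      have h2 := hζ1 a' ha'
      rw [← h] at h2
      exact Subtype.ext (ar_inj hY hS hn a.2 a'.2 (ζ a).2 h1 h2)
    have e1 : mu L Y (fun a => F a ∧ ∃ j, Mv κ L z a.1.2.1 j) = ∑ a ∈ S, ms L Y a.1 := by
      rw [hS', sum_filter]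
      refine sum_congr rfl fun a _ => ?_
      by_cases h : F a ∧ ∃ j, Mv κ L z a.1.2.1 j <;> simp only [h, if_true, if_false]
    have e2 : ∑ a ∈ S, ms L Y a.1 = ∑ b ∈ S.image ζ, ms L Y b.1 := by
      rw [sum_image (fun a ha a' ha' h => hinj' a ha a' ha' h)]
      exact sum_congr rfl fun a ha => (hms a ha).symm
    have e3 : ∑ b ∈ S.image ζ, ms L Y b.1 ≤ ∑ b ∈ univ.filter (fun b => ¬ F b), ms L Y b.1 := by
      refine sum_le_sum_of_subset_of_nonneg ?_ fun b _ _ => ms_nonneg L Y b.1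
      intro b hb
      obtain ⟨a, ha, rfl⟩ := mem_image.1 hb
      rw [mem_filter]
      refine ⟨mem_univ _, fun hFb => ?_⟩
      exact ar_disp hY hS hn hgz a.2 (ζ a).2 (hFR a (mem_filter.1 ha).2.1) (hFR _ hFb) (hζ1 a ha)
    have e4 : mu L Y (fun a => ¬ F a) = ∑ b ∈ univ.filter (fun b => ¬ F b), ms L Y b.1 := by
      rw [sum_filter]
      refine sum_congr rfl fun a _ => ?_
      by_cases h : F a <;> simp only [h, not_true_eq_false, not_false_eq_true, if_true, if_false]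
    rw [e1, e4, e2]
    exact e3
  have hdom := mu_dom hY hS hn hZ hg
  have hall : mu L Y (fun _ => True) = ∑ a ∈ Y, ms L Y a := by
    have := mu_filter (L := L) (Y := Y) (fun _ => True)
    rw [this, filter_true]
  obtain ⟨t1, t2⟩ := mass_all hY hS hn
  have s1 := mu_split (L := L) (fun _ : Y => True) (fun a => φ a ≠ a)
  have s2 := mu_split (L := L) (fun _ : Y => True) F
  have c1 : mu L Y (fun a => True ∧ φ a ≠ a) = mu L Y fun a => φ a ≠ a := by
    congr 1; funext a; simp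
  have c2 : mu L Y (fun a => True ∧ ¬ φ a ≠ a) = mu L Y fun a => φ a = a := by
    congr 1; funext a; simp
  have c3 : mu L Y (fun a => True ∧ F a) = mu L Y F := by
    congr 1; funext a; simp
  have c4 : mu L Y (fun a => True ∧ ¬ F a) = mu L Y fun a => ¬ F a := by
    congr 1; funext a; simp
  rw [c1, c2] at s1
  rw [c3, c4] at s2
  have a1 : mu L Y (fun a => φ a = a) ≤ mu L Y F + mu L Y fun a => ¬ Dm κ L Y g a :=
    mu_le_add fun a ha => by
      by_cases c : Dm κ L Y g a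
      · exact Or.inl ⟨ha, c⟩
      · exact Or.inr c
  have a2 : mu L Y F ≤ mu L Y (fun a => F a ∧ ∃ j, Mv κ L z a.1.2.1 j) +
      mu L Y fun a => ¬ ∃ j, Mv κ L z a.1.2.1 j := mu_le_add fun a ha => by
    by_cases c : ∃ j, Mv κ L z a.1.2.1 j
    · exact Or.inl ⟨ha, c⟩
    · exact Or.inr c
  linarith

/-- the product rule for the action -/
theorem product (hY : Rep ρ κ τ τ₁ L Y) (hS : Sys ρ Z κ τ τ₁ L) (hn : Num k κ τ τ₁ Λ)
    (hZ : ct Z ≤ τ₁ * Fintype.card V) {α β γ : Equiv.Perm V} (hα : Ok ρ Z Λ α) (hβ : Ok ρ Z Λ β)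
    (hγ : Ok ρ Z Λ γ) {u : FreeGroup (Fin k)}
    (hu : ∀ p : V × V → Prop, (ct fun x => p x ∧ ¬ p (pr ρ ρ u x)) ≤ Λ * bd (pr ρ ρ) p)
    (huz : ∀ x, ¬ Z x → α (β x) = γ (ρ u x)) (φα φβ φγ : Equiv.Perm Y)
    (h1 : ∀ a b : Y, AR κ L α α a.1 b.1 → φα a = b)
    (h2 : ∀ a b : Y, AR κ L β β a.1 b.1 → φβ a = b)
    (h3 : ∀ a b : Y, AR κ L γ γ a.1 b.1 → φγ a = b) :
    (mu L Y fun a => φγ a ≠ φα (φβ a)) ≤ 121 * κ * Fintype.card V := by
  classical
  have d1 := mu_dom hY hS hn hZ hα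
  have d2 := mu_dom hY hS hn hZ hβ
  have d3 := mu_dom hY hS hn hZ hγ
  have d4 := energy1 hY hS hn hZ hβ φβ h2
  have e1 : (mu L Y fun a => φγ a ≠ φα (φβ a)) ≤ (mu L Y fun a => ¬ Dm κ L Y β a ∨
      ¬ Dm κ L Y γ a) + mu L Y fun a => ¬ Dm κ L Y α (φβ a) := mu_le_add fun a ha => by
    by_cases c1 : Dm κ L Y β a
    · by_cases c2 : Dm κ L Y γ a
      · right
        rintro ⟨b2, hb2⟩
        apply ha
        obtain ⟨b1, hb1⟩ := c1
        obtain ⟨b3, hb3⟩ := c2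
        have g1 := h2 a b1 hb1
        have g3 := h3 a b3 hb3
        rw [g1] at hb2 ⊢
        have g2 := h1 b1 b2 hb2
        rw [g2, g3]
        exact (Subtype.ext (ar_mul hY hS hn hu huz a.2 b1.2 b2.2 b3.2 hb1 hb2 hb3)).symm
      · exact Or.inl (Or.inr c2)
    · exact Or.inl (Or.inl c1)
  have e2 : (mu L Y fun a => ¬ Dm κ L Y β a ∨ ¬ Dm κ L Y γ a) ≤
      (mu L Y fun a => ¬ Dm κ L Y β a) + mu L Y fun a => ¬ Dm κ L Y γ a :=
    mu_le_add fun a ha => ha
  have e3 : (mu L Y fun a => ¬ Dm κ L Y α (φβ a)) ≤ (mu L Y fun a => ¬ Dm κ L Y α a) +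
      ∑ a : Y, |ms L Y (φβ a).1 - ms L Y a.1| := by
    have e4 : (mu L Y fun a => ¬ Dm κ L Y α a) =
        ∑ a : Y, (if ¬ Dm κ L Y α (φβ a) then ms L Y (φβ a).1 else 0) := by
      unfold mu
      rw [← Equiv.sum_comp φβ]
      refine sum_congr rfl fun a _ => ?_
      by_cases h : Dm κ L Y α (φβ a) <;> simp [h]
    rw [e4, mu, ← sum_add_distrib]
    refine sum_le_sum fun a _ => ?_
    have h4 := neg_abs_le (ms L Y (φβ a).1 - ms L Y a.1)
    have h5 := abs_nonneg (ms L Y (φβ a).1 - ms L Y a.1)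
    by_cases h : Dm κ L Y α (φβ a)
    · simp only [h, not_true_eq_false, if_false]
      linarith
    · simp only [h, not_false_eq_true, if_true]
      linarith
  linarith

end

end Pool.Agent.N303.KS
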