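import Pool.Agent.N303.KS.Cnt

/-!
# The greedy partition
-/

set_option autoImplicit false

namespace Pool.Agent.N303.KS

open Finset

noncomputable section

variable {V : Type} [Fintype V] {k : ℕ}

/-- the (two-sided) boundary of `A` inside `U` -/
def bU (ρ : FreeGroup (Fin k) →* Equiv.Perm V) (U A : Finset V) : ℝ :=
  ∑ s, ((ct fun x => x ∈ A ∧ ρ (FreeGroup.of s) x ∈ U ∧ ρ (FreeGroup.of s) x ∉ A) +
    ct fun x => x ∈ A ∧ (ρ (FreeGroup.of s))⁻¹ x ∈ U ∧ (ρ (FreeGroup.of s))⁻¹ x ∉ A)

open Classical in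
theorem greedy (ρ : FreeGroup (Fin k) →* Equiv.Perm V) {θ : ℝ} (hθ : 0 ≤ θ) (n : ℕ) :
    ∀ U : Finset V, U.card = n → ∃ (c : V → V) (W : V → Finset V), (∀ x ∈ U, c x ∈ U) ∧
      (∀ x ∈ U, x ∈ W (c x)) ∧ (∀ i, W i ⊆ U) ∧
      (∀ i, ∀ A ⊆ W i, A.Nonempty → A.card < (U.filter fun x => c x = i).card →
        θ * A.card < bU ρ (W i) A) ∧
      ∑ s, ct (fun x => x ∈ U ∧ ρ (FreeGroup.of s) x ∈ U ∧ c (ρ (FreeGroup.of s) x) ≠ c x) ≤
        θ * U.card := by
  induction n using Nat.strong_induction_on with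
  | _ n ih =>
    intro U hU
    rcases U.eq_empty_or_nonempty with h0 | h0
    · subst h0
      refine ⟨id, fun _ => ∅, by simp, by simp, by simp, ?_, ?_⟩
      · intro i A hA hAn
        rw [subset_empty] at hA
        exact absurd hA hAn.ne_empty
      · rw [sum_eq_zero]
        · simp
        · intro s _
          exact ct_false fun x hx => notMem_empty _ hx.1
    · -- a minimal set with small boundary
      set 𝒜 : Finset (Finset V) := U.powerset.filter fun A => A.Nonempty ∧ bU ρ U A ≤ θ * A.card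
        with h𝒜
      have hUm : U ∈ 𝒜 := by
        rw [h𝒜, mem_filter, mem_powerset]
        refine ⟨Subset.rfl, h0, ?_⟩
        have : bU ρ U U = 0 := by
          rw [bU]
          refine sum_eq_zero fun s _ => ?_
          rw [ct_false fun x hx => hx.2.2 hx.2.1, ct_false fun x hx => hx.2.2 hx.2.1, add_zero]
        rw [this]
        positivity
      obtain ⟨E, hE, hmin⟩ := exists_min_image 𝒜 (fun A => A.card) ⟨U, hUm⟩
      rw [h𝒜, mem_filter, mem_powerset] at hE
      obtain ⟨hEU, ⟨x0, hx0⟩, hEb⟩ := hE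
      have hcard : (U \ E).card < n := by
        rw [← hU]
        exact card_lt_card ⟨sdiff_subset, fun h => (mem_sdiff.1 (h (hEU hx0))).2 hx0⟩
      obtain ⟨c, W, h1, h2, h3, h4, h5⟩ := ih _ hcard (U \ E) rfl
      have hcE : ∀ x ∈ U, x ∉ E → c x ∉ E := fun x hx hxE =>
        (mem_sdiff.1 (h1 x (mem_sdiff.2 ⟨hx, hxE⟩))).2
      have hne : ∀ x ∈ U, x ∉ E → c x ≠ x0 := fun x hx hxE h =>
        hcE x hx hxE (by rw [h]; exact hx0)
      set c' : V → V := fun x => if x ∈ E then x0 else c x with hc'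
      set W' : V → Finset V := fun i => if i = x0 then U else W i with hW'
      have e1 : ∀ x ∈ E, c' x = x0 := fun x hx => if_pos hx
      have e2 : ∀ x, x ∉ E → c' x = c x := fun x hx => if_neg hx
      refine ⟨c', W', ?_, ?_, ?_, ?_, ?_⟩
      · intro x hx
        by_cases hxE : x ∈ E
        · rw [e1 x hxE]; exact hEU hx0
        · rw [e2 x hxE]
          exact (mem_sdiff.1 (h1 x (mem_sdiff.2 ⟨hx, hxE⟩))).1
      · intro x hx
        by_cases hxE : x ∈ E
        · rw [e1 x hxE, hW']
          simp only [if_true]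
          exact hx
        · rw [e2 x hxE, hW']
          simp only [if_neg (hne x hx hxE)]
          exact h2 x (mem_sdiff.2 ⟨hx, hxE⟩)
      · intro i
        rw [hW']
        simp only
        split_ifs
        · exact Subset.rfl
        · exact (h3 i).trans sdiff_subset
      · intro i A hA hAn hAc
        rw [hW'] at hA ⊢
        simp only at hA ⊢
        by_cases hi : i = x0
        · subst hi
          rw [if_pos rfl] at hA ⊢
          have hfE : (U.filter fun x => c' x = i) = E := by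
            ext x
            rw [mem_filter]
            constructor
            · rintro ⟨hx, hcx⟩
              by_contra hxE
              rw [e2 x hxE] at hcx
              exact hne x hx hxE hcx
            · intro hx
              exact ⟨hEU hx, e1 x hx⟩
          rw [hfE] at hAc
          by_contra hcon
          rw [not_lt] at hcon
          have := hmin A (by
            rw [h𝒜, mem_filter, mem_powerset]
            exact ⟨hA, hAn, hcon⟩)
          omega
        · rw [if_neg hi] at hA ⊢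
          apply h4 i A hA hAn
          have hfi : (U.filter fun x => c' x = i) = (U \ E).filter fun x => c x = i := by
            ext x
            rw [mem_filter, mem_filter, mem_sdiff]
            constructor
            · rintro ⟨hx, hcx⟩
              have hxE : x ∉ E := fun h => hi (by rw [← hcx, e1 x h])
              exact ⟨⟨hx, hxE⟩, by rw [← e2 x hxE]; exact hcx⟩
            · rintro ⟨⟨hx, hxE⟩, hcx⟩
              exact ⟨hx, by rw [e2 x hxE]; exact hcx⟩
          rw [hfi] at hAc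
          exact hAc
      · have h6 : ∀ s : Fin k, ct (fun x => x ∈ U ∧ ρ (FreeGroup.of s) x ∈ U ∧
            c' (ρ (FreeGroup.of s) x) ≠ c' x) ≤
            ((ct fun x => x ∈ E ∧ ρ (FreeGroup.of s) x ∈ U ∧ ρ (FreeGroup.of s) x ∉ E) +
              ct fun x => x ∈ E ∧ (ρ (FreeGroup.of s))⁻¹ x ∈ U ∧ (ρ (FreeGroup.of s))⁻¹ x ∉ E) +
            ct (fun x => x ∈ U \ E ∧ ρ (FreeGroup.of s) x ∈ U \ E ∧
              c (ρ (FreeGroup.of s) x) ≠ c x) := by
          intro s
          rw [← ct_perm (fun x => x ∈ E ∧ (ρ (FreeGroup.of s))⁻¹ x ∈ U ∧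
            (ρ (FreeGroup.of s))⁻¹ x ∉ E) (ρ (FreeGroup.of s))]
          refine (ct_le_add (q := fun x => (x ∈ E ∧ ρ (FreeGroup.of s) x ∈ U ∧
              ρ (FreeGroup.of s) x ∉ E) ∨ (ρ (FreeGroup.of s) x ∈ E ∧
              (ρ (FreeGroup.of s))⁻¹ (ρ (FreeGroup.of s) x) ∈ U ∧
              (ρ (FreeGroup.of s))⁻¹ (ρ (FreeGroup.of s) x) ∉ E))
            (r := fun x => x ∈ U \ E ∧ ρ (FreeGroup.of s) x ∈ U \ E ∧
              c (ρ (FreeGroup.of s) x) ≠ c x) ?_).trans
            (add_le_add (ct_le_add fun x hx => hx) le_rfl)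
          rintro x ⟨hx, hsx, hc⟩
          have hinv : (ρ (FreeGroup.of s))⁻¹ (ρ (FreeGroup.of s) x) = x :=
            (ρ (FreeGroup.of s)).symm_apply_apply x
          by_cases hxE : x ∈ E
          · by_cases hsE : ρ (FreeGroup.of s) x ∈ E
            · exact absurd (by rw [e1 _ hxE, e1 _ hsE]) hc
            · exact Or.inl (Or.inl ⟨hxE, hsx, hsE⟩)
          · by_cases hsE : ρ (FreeGroup.of s) x ∈ E
            · refine Or.inl (Or.inr ⟨hsE, ?_, ?_⟩)
              · rw [hinv]; exact hx
              · rw [hinv]; exact hxE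
            · refine Or.inr ⟨mem_sdiff.2 ⟨hx, hxE⟩, mem_sdiff.2 ⟨hsx, hsE⟩, ?_⟩
              rw [← e2 _ hxE, ← e2 _ hsE]
              exact hc
        refine (sum_le_sum fun s _ => h6 s).trans ?_
        rw [sum_add_distrib]
        have h7 : (U.card : ℝ) = (U \ E).card + E.card := by
          rw [← Nat.cast_add, card_sdiff_add_card_eq_card hEU]
        rw [h7, mul_add, add_comm]
        exact add_le_add h5 hEb

/-- the boundary inside `U` is at most twice the boundary -/
theorem bU_le (ρ : FreeGroup (Fin k) →* Equiv.Perm V) (U A : Finset V) (p : V → Prop)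
    (hA : ∀ x, x ∈ A ↔ p x ∧ x ∈ U) : bU ρ U A ≤ 2 * bd ρ p := by
  rw [bU, bd, mul_sum]
  refine sum_le_sum fun s _ => ?_
  have h1 : (ct fun x => x ∈ A ∧ ρ (FreeGroup.of s) x ∈ U ∧ ρ (FreeGroup.of s) x ∉ A) ≤
      ct fun x => p x ∧ ¬ p (ρ (FreeGroup.of s) x) := by
    refine ct_mono fun x hx => ⟨((hA x).1 hx.1).1, fun h => hx.2.2 ((hA _).2 ⟨h, hx.2.1⟩)⟩
  have h2 : (ct fun x => x ∈ A ∧ (ρ (FreeGroup.of s))⁻¹ x ∈ U ∧
      (ρ (FreeGroup.of s))⁻¹ x ∉ A) ≤ ct fun x => p x ∧ ¬ p ((ρ (FreeGroup.of s))⁻¹ x) := by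
    refine ct_mono fun x hx => ⟨((hA x).1 hx.1).1, fun h => hx.2.2 ((hA _).2 ⟨h, hx.2.1⟩)⟩
  rw [ct_inv_bd] at h2
  linarith

/-- The greedy partition of the whole set. -/
theorem partition (ρ : FreeGroup (Fin k) →* Equiv.Perm V) {θ : ℝ} (hθ : 0 ≤ θ) :
    ∃ (c : V → V), ∑ s, ct (fun x => c (ρ (FreeGroup.of s) x) ≠ c x) ≤ θ * Fintype.card V ∧
      ∀ i, ∃ W : V → Prop, (∀ x, c x = i → W x) ∧
        ∀ p : V → Prop, (∀ x, ¬ (p x ∧ W x)) ∨ (ct fun x => c x = i) ≤ ct (fun x => p x ∧ W x) ∨
          θ * ct (fun x => p x ∧ W x) ≤ 2 * bd ρ p := by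
  classical
  obtain ⟨c, W, h1, h2, h3, h4, h5⟩ := greedy ρ hθ _ (univ : Finset V) rfl
  refine ⟨c, ?_, fun i => ⟨fun x => x ∈ W i, ?_, ?_⟩⟩
  · rw [card_univ] at h5
    refine le_trans (sum_le_sum fun s _ => ct_mono fun x hx => ⟨mem_univ _, mem_univ _, hx⟩) h5
  · intro x hx
    rw [← hx]; exact h2 x (mem_univ _)
  · intro p
    set A : Finset V := univ.filter fun x => p x ∧ x ∈ W i with hA
    have hAm : ∀ x, x ∈ A ↔ p x ∧ x ∈ W i := fun x => by rw [hA, mem_filter]; simp
    have hAc : (A.card : ℝ) = ct fun x => p x ∧ x ∈ W i := by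
      unfold ct
      rw [hA]
      congr!
    have hBc : ((univ.filter fun x => c x = i).card : ℝ) = ct fun x => c x = i := by
      unfold ct
      congr!
    rcases A.eq_empty_or_nonempty with h0 | h0
    · left
      intro x hx
      exact notMem_empty x (h0 ▸ (hAm x).2 hx)
    · right
      by_cases hc : A.card < (univ.filter fun x => c x = i).card
      · right
        have h6 := h4 i A (fun x hx => ((hAm x).1 hx).2) h0 hc
        have h7 := bU_le ρ (W i) A p hAm
        rw [hAc] at h6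
        linarith
      · left
        rw [not_lt] at hc
        rw [← hAc, ← hBc]
        exact_mod_cast hc

end

end Pool.Agent.N303.KS
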