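import Pool.Agent.N303.KS.Si
import Pool.Agent.N303.KS.Gre

/-!
# Pieces and arrows
-/

set_option autoImplicit false

namespace Pool.Agent.N303.KS

open Finset Pool.Agent.W661.RC

noncomputable section

variable {V : Type} [Fintype V] {k : ℕ}

/-- product action -/
def pr {V T : Type} (ρ : FreeGroup (Fin k) →* Equiv.Perm V) (ρ' : FreeGroup (Fin k) →* Equiv.Perm T) :
    FreeGroup (Fin k) →* Equiv.Perm (V × T) where
  toFun w := Equiv.prodCongr (ρ w) (ρ' w)
  map_one' := by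
    ext p : 1
    rw [map_one, map_one]
    rfl
  map_mul' a b := by
    ext p : 1
    rw [map_mul, map_mul]
    rfl

theorem pr_apply {V T : Type} (ρ : FreeGroup (Fin k) →* Equiv.Perm V)
    (ρ' : FreeGroup (Fin k) →* Equiv.Perm T) (w : FreeGroup (Fin k)) (p : V × T) :
    pr ρ ρ' w p = (ρ w p.1, ρ' w p.2) := rfl

theorem ct_image {Y X : Type} [Fintype Y] [Fintype X] {π : Y → X} {A : Y → Prop}
    (hinj : ∀ y y', A y → A y' → π y = π y' → y = y') :
    (ct fun x => ∃ y, A y ∧ π y = x) = ct A := by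
  classical
  apply le_antisymm
  · by_cases hY : Nonempty Y
    · obtain ⟨y0⟩ := hY
      refine ct_le_of_inj (fun x => if h : ∃ y, A y ∧ π y = x then h.choose else y0) ?_ ?_
      · intro x hx
        simp only [dif_pos hx]
        exact hx.choose_spec.1
      · intro x x' hx hx' h
        simp only [dif_pos hx, dif_pos hx'] at h
        rw [← hx.choose_spec.2, ← hx'.choose_spec.2, h]
    · rw [ct_false]
      · exact ct_nonneg _
      · rintro x ⟨y, -⟩
        exact hY ⟨y⟩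
  · exact ct_le_of_inj π (fun y hy => ⟨y, hy, rfl⟩) hinj

theorem bd_image {Y X : Type} [Fintype Y] [Fintype X] {ρ : FreeGroup (Fin k) →* Equiv.Perm Y}
    {ρX : FreeGroup (Fin k) →* Equiv.Perm X} {π : Y → X} (hπ : ∀ w y, π (ρ w y) = ρX w (π y))
    (A : Y → Prop) : bd ρX (fun x => ∃ y, A y ∧ π y = x) ≤ bd ρ A := by
  classical
  refine sum_le_sum fun s _ => ?_
  by_cases hY : Nonempty Y
  · obtain ⟨y0⟩ := hY
    refine ct_le_of_inj (fun x => if h : ∃ y, A y ∧ π y = x then h.choose else y0) ?_ ?_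
    · rintro x ⟨hx, hx'⟩
      simp only [dif_pos hx]
      refine ⟨hx.choose_spec.1, fun h => hx' ⟨_, h, ?_⟩⟩
      rw [hπ, hx.choose_spec.2]
    · intro x x' hx hx' h
      simp only [dif_pos hx.1, dif_pos hx'.1] at h
      rw [← hx.1.choose_spec.2, ← hx'.1.choose_spec.2, h]
  · rw [ct_false]
    · exact ct_nonneg _
    · rintro x ⟨⟨y, -⟩, -⟩
      exact hY ⟨y⟩

/-- size of a piece -/
def sz (L : V → Option V) (i : V) : ℝ := ct fun x => L x = some i

theorem sz_nonneg (L : V → Option V) (i : V) : 0 ≤ sz L i := ct_nonneg _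

/-- Arrows: almost equivariant partial bijections between pieces. -/
structure Arw (ρ : FreeGroup (Fin k) →* Equiv.Perm V) (L : V → Option V) (t : ℝ) (i j : V)
    (R : V × V → Prop) : Prop where
  src : ∀ p, R p → L p.1 = some i
  tgt : ∀ p, R p → L p.2 = some j
  inj1 : ∀ p q, R p → R q → p.1 = q.1 → p = q
  inj2 : ∀ p q, R p → R q → p.2 = q.2 → p = q
  big1 : sz L i < 2 * ct R
  big2 : sz L j < 2 * ct R
  bdy : bd (pr ρ ρ) R ≤ t * sz L i

/-- A system of pieces. -/
structure Sys (ρ : FreeGroup (Fin k) →* Equiv.Perm V) (Z : V → Prop) (κ τ τ₁ : ℝ)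
    (L : V → Option V) : Prop where
  cov : (ct fun x => L x = none) ≤ κ * Fintype.card V
  bdy : ∀ i, bd ρ (fun x => L x = some i) ≤ τ₁ * sz L i
  err : ∀ i, (ct fun x => L x = some i ∧ Z x) ≤ τ₁ * sz L i
  irr : ∀ i, ∀ p : V → Prop, (∀ x, p x → L x = some i) → bd ρ p ≤ τ * sz L i →
    ct p ≤ κ * sz L i ∨ (1 - κ) * sz L i ≤ ct p
  ref : ∀ i j R, Arw ρ L (τ / 4) i j R → ∃ R', Arw ρ L τ₁ i j R' ∧
    sz L i < 2 * ct fun p => R p ∧ R' p

theorem src_irr {ρ : FreeGroup (Fin k) →* Equiv.Perm V} {L : V → Option V} {κ τ : ℝ} {i : V}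
    (irr : ∀ p : V → Prop, (∀ x, p x → L x = some i) → bd ρ p ≤ τ * sz L i →
      ct p ≤ κ * sz L i ∨ (1 - κ) * sz L i ≤ ct p) {A : V × V → Prop}
    (h1 : ∀ p, A p → L p.1 = some i) (h2 : ∀ p q, A p → A q → p.1 = q.1 → p = q)
    (h3 : bd (pr ρ ρ) A ≤ τ * sz L i) : ct A ≤ κ * sz L i ∨ (1 - κ) * sz L i ≤ ct A := by
  rw [← ct_image (π := Prod.fst) (A := A) h2]
  apply irr
  · rintro x ⟨p, hp, rfl⟩
    exact h1 p hp
  · exact (bd_image (π := Prod.fst) (ρ := pr ρ ρ) (ρX := ρ) (fun w y => rfl) A).trans h3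

theorem tgt_irr {ρ : FreeGroup (Fin k) →* Equiv.Perm V} {L : V → Option V} {κ τ : ℝ} {j : V}
    (irr : ∀ p : V → Prop, (∀ x, p x → L x = some j) → bd ρ p ≤ τ * sz L j →
      ct p ≤ κ * sz L j ∨ (1 - κ) * sz L j ≤ ct p) {A : V × V → Prop}
    (h1 : ∀ p, A p → L p.2 = some j) (h2 : ∀ p q, A p → A q → p.2 = q.2 → p = q)
    (h3 : bd (pr ρ ρ) A ≤ τ * sz L j) : ct A ≤ κ * sz L j ∨ (1 - κ) * sz L j ≤ ct A := by
  rw [← ct_image (π := Prod.snd) (A := A) h2]
  apply irr
  · rintro x ⟨p, hp, rfl⟩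
    exact h1 p hp
  · exact (bd_image (π := Prod.snd) (ρ := pr ρ ρ) (ρX := ρ) (fun w y => rfl) A).trans h3

/-- an arrow is no larger than its source -/
theorem Arw.le_src {ρ : FreeGroup (Fin k) →* Equiv.Perm V} {L : V → Option V} {t : ℝ} {i j : V}
    {R : V × V → Prop} (h : Arw ρ L t i j R) : ct R ≤ sz L i :=
  ct_le_of_inj Prod.fst h.src h.inj1

theorem Arw.le_tgt {ρ : FreeGroup (Fin k) →* Equiv.Perm V} {L : V → Option V} {t : ℝ} {i j : V}
    {R : V × V → Prop} (h : Arw ρ L t i j R) : ct R ≤ sz L j :=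
  ct_le_of_inj Prod.snd h.tgt h.inj2

/-- sizes of arrows -/
theorem arw_size {ρ : FreeGroup (Fin k) →* Equiv.Perm V} {L : V → Option V} {κ τ t : ℝ}
    {i j : V} (hκ : κ ≤ 1 / 100) (hτ : 0 ≤ τ) (ht : t ≤ τ / 2)
    (irr : ∀ i, ∀ p : V → Prop, (∀ x, p x → L x = some i) → bd ρ p ≤ τ * sz L i →
      ct p ≤ κ * sz L i ∨ (1 - κ) * sz L i ≤ ct p)
    {R : V × V → Prop} (h : Arw ρ L t i j R) :
    (1 - κ) * sz L i ≤ ct R ∧ (1 - κ) * sz L j ≤ ct R := by
  have hi := sz_nonneg L i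
  have hj := sz_nonneg L j
  have h1 := h.le_src
  have h2 := h.le_tgt
  have b1 := h.big1
  have b2 := h.big2
  constructor
  · rcases src_irr (irr i) h.src h.inj1 (h.bdy.trans (by nlinarith)) with h3 | h3
    · nlinarith
    · exact h3
  · have h4 : bd (pr ρ ρ) R ≤ τ * sz L j := by
      have := h.bdy
      nlinarith
    rcases tgt_irr (irr j) h.tgt h.inj2 h4 with h3 | h3
    · nlinarith
    · exact h3

/-- **Existence of a system.** -/
theorem exists_sys {G : Type} [Group G] (γ : FreeGroup (Fin k) →* G) (hT : HasT G)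
    (hγ : Function.Surjective γ) {κ : ℝ} (hκ : 0 < κ) (hκ1 : κ ≤ 1 / 100) :
    ∃ τ : ℝ, 0 < τ ∧ τ ≤ κ ∧ ∀ τ₁ : ℝ, 0 < τ₁ → τ₁ ≤ 1 / 100 → ∃ ε : ℝ, 0 < ε ∧ ε ≤ τ₁ ∧
      ∃ Rel : Finset (FreeGroup (Fin k)), (∀ w ∈ Rel, γ w = 1) ∧
        ∀ (V : Type) [Fintype V] (ρ : FreeGroup (Fin k) →* Equiv.Perm V) (Z : V → Prop),
          ct Z ≤ ε * Fintype.card V → (∀ w ∈ Rel, ∀ x, ¬ Z x → ρ w x = x) →
          ∃ L, Sys ρ Z κ τ τ₁ L := by
  classical
  obtain ⟨C, hC, himp⟩ := improve γ hT hγ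
  have hC0 : 0 < C := by linarith
  set θ : ℝ := κ ^ 2 / (256 * C) with hθ
  have hθ0 : 0 < θ := by positivity
  set τ : ℝ := θ * κ / 4 with hτ
  have hτ0 : 0 < τ := by positivity
  have hCθ : C * θ = κ ^ 2 / 256 := by
    rw [hθ]; field_simp
  have hθκ : θ ≤ κ := by
    have h1 : θ ≤ C * θ := by nlinarith
    have h2 : κ ^ 2 / 256 ≤ κ := by nlinarith
    linarith
  have hτκ : τ ≤ κ := by
    rw [hτ]
    nlinarith
  have hCτ : C * τ ≤ 1 / 32 := by
    have : C * τ = κ ^ 2 / 256 * κ / 4 := by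
      rw [hτ, ← hCθ]; ring
    rw [this]
    have h1 : κ ^ 2 ≤ 1 := by nlinarith
    nlinarith
  refine ⟨τ, hτ0, hτκ, fun τ₁ hτ₁ hτ₁' => ?_⟩
  obtain ⟨δ₁, hδ₁, R₁, hR₁, himp₁⟩ := himp (τ₁ / 4) (by positivity)
  set τ₂ : ℝ := τ₁ / 8 with hτ₂
  have hτ₂0 : 0 < τ₂ := by positivity
  set τ₃ : ℝ := min τ₁ (δ₁ / 4) with hτ₃
  have hτ₃0 : 0 < τ₃ := by positivity
  have hτ₃1 : τ₃ ≤ τ₁ := min_le_left _ _
  have hτ₃2 : 4 * τ₃ ≤ δ₁ := by
    have : τ₃ ≤ δ₁ / 4 := min_le_right _ _
    linarith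
  set η₀ : ℝ := τ₂ * κ ^ 2 / 256 with hη₀
  have hη₀0 : 0 < η₀ := by positivity
  obtain ⟨δ₀, hδ₀, R₀, hR₀, himp₀⟩ := himp η₀ hη₀0
  refine ⟨min δ₀ (τ₃ * κ / 16), by positivity, ?_, R₀ ∪ R₁, ?_, ?_⟩
  · refine (min_le_right _ _).trans ?_
    nlinarith
  · intro w hw
    rcases mem_union.1 hw with h | h
    · exact hR₀ w h
    · exact hR₁ w h
  intro V _ ρ Z hZ hrel
  set n : ℝ := (Fintype.card V : ℝ) with hn
  have hn0 : 0 ≤ n := Nat.cast_nonneg _
  have hZ1 : ct Z ≤ δ₀ * n := hZ.trans (mul_le_mul_of_nonneg_right (min_le_left _ _) hn0)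
  have hZ2 : ct Z ≤ τ₃ * κ / 16 * n := hZ.trans (mul_le_mul_of_nonneg_right (min_le_right _ _) hn0)
  obtain ⟨c, hc1, hc2⟩ := partition ρ hθ0.le
  -- the graph of the partition
  set p : V × V → Prop := fun y => c y.1 = y.2 with hp
  have hcp : ct p = n := by
    rw [hn, ← ct_univ]
    refine le_antisymm (ct_le_of_inj Prod.fst (fun _ _ => trivial) ?_)
      (ct_le_of_inj (fun x => (x, c x)) (fun _ _ => rfl) ?_)
    · intro y y' h h' hyy
      refine Prod.ext hyy ?_
      rw [← show c y.1 = y.2 from h, ← show c y'.1 = y'.2 from h', hyy]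
    · intro x x' _ _ h
      exact congrArg Prod.fst h
  have hbp : bd (pr ρ 1) p ≤ θ * n := by
    refine le_trans (sum_le_sum fun s _ => ?_) hc1
    refine ct_le_of_inj Prod.fst ?_ ?_
    · rintro y ⟨h, h'⟩ h''
      apply h'
      show c (ρ (FreeGroup.of s) y.1) = y.2
      rw [h'']
      exact h
    · rintro y y' ⟨h, -⟩ ⟨h', -⟩ hyy
      refine Prod.ext hyy ?_
      rw [← show c y.1 = y.2 from h, ← show c y'.1 = y'.2 from h', hyy]
  obtain ⟨q, hq1, hq2, hq3⟩ := himp₀ (V × V) (pr ρ 1) p (by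
    intro w hw
    rw [hcp]
    refine le_trans ?_ hZ1
    refine ct_le_of_inj Prod.fst ?_ ?_
    · rintro y ⟨h, h'⟩
      by_contra hZy
      apply h'
      rw [pr_apply, hrel w (mem_union_left _ hw) _ hZy]
      rfl
    · rintro y y' ⟨h, -⟩ ⟨h', -⟩ hyy
      refine Prod.ext hyy ?_
      rw [← show c y.1 = y.2 from h, ← show c y'.1 = y'.2 from h', hyy])
  rw [hcp] at hq1 hq2
  have hqinj : ∀ x i j, q (x, i) → q (x, j) → i = j := by
    intro x i j h h'
    have := hq3 V ρ Prod.fst (fun w y => rfl) (by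
      intro y y' h h' hyy
      refine Prod.ext hyy ?_
      rw [← show c y.1 = y.2 from h, ← show c y'.1 = y'.2 from h', hyy]) (x, i) (x, j) h h' rfl
    exact congrArg Prod.snd this
  set m : ℝ := C * (θ * n) + η₀ * n with hm
  have hq2' : (ct fun y => p y ∧ ¬ q y) + (ct fun y => q y ∧ ¬ p y) ≤ m := by
    refine hq2.trans ?_
    rw [hm]
    have := mul_le_mul_of_nonneg_left hbp hC0.le
    linarith
  -- sizes of the preliminary pieces
  set e0 : V → ℝ := fun i => ct fun x => q (x, i) with he0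
  set D : V → ℝ := fun i => (ct fun x => c x = i ∧ ¬ q (x, i)) + ct fun x => q (x, i) ∧ ¬ c x = i
    with hD
  have he00 : ∀ i, 0 ≤ e0 i := fun i => ct_nonneg _
  have hD0 : ∀ i, 0 ≤ D i := fun i => add_nonneg (ct_nonneg _) (ct_nonneg _)
  have hfib : ∀ r : V × V → Prop, ct r = ∑ i, ct fun x => r (x, i) := by
    intro r
    rw [ct_fiber r Prod.snd]
    refine sum_congr rfl fun i _ => ?_
    refine le_antisymm (ct_le_of_inj Prod.fst ?_ ?_) (ct_le_of_inj (fun x => (x, i)) ?_ ?_)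
    · rintro ⟨x, j⟩ ⟨h, h'⟩
      simp only at h'
      subst h'
      exact h
    · rintro ⟨x, j⟩ ⟨x', j'⟩ ⟨-, h⟩ ⟨-, h'⟩ hxx
      simp only at h h' hxx
      subst h; subst h'; subst hxx; rfl
    · exact fun x h => ⟨h, rfl⟩
    · exact fun x x' _ _ h => congrArg Prod.fst h
  have hDsum : ∑ i, D i ≤ m := by
    rw [hD]
    simp only
    rw [sum_add_distrib]
    have h1 := hfib fun y => p y ∧ ¬ q y
    have h2 := hfib fun y => q y ∧ ¬ p y
    rw [h1, h2] at hq2'
    exact hq2'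
  have hbsum : ∑ i, bd ρ (fun x => q (x, i)) ≤ η₀ * n := by
    refine le_trans (le_of_eq ?_) hq1
    unfold bd
    rw [sum_comm]
    refine sum_congr rfl fun s _ => ?_
    rw [hfib]
    rfl
  have hZsum : ∑ i, ct (fun x => q (x, i) ∧ Z x) ≤ ct Z := by
    rw [← hfib fun y => q y ∧ Z y.1]
    refine ct_le_of_inj Prod.fst (fun y h => h.2) ?_
    rintro ⟨x, i⟩ ⟨x', i'⟩ ⟨h, -⟩ ⟨h', -⟩ hxx
    simp only at hxx
    subst hxx
    rw [hqinj x i i' h h']
  set κ₁ : ℝ := κ / 8 with hκ₁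
  -- good pieces
  set good : V → Prop := fun i => bd ρ (fun x => q (x, i)) ≤ τ₂ * e0 i ∧ D i ≤ κ₁ * e0 i ∧
    ct (fun x => q (x, i) ∧ Z x) ≤ τ₃ * e0 i with hgood
  set L : V → Option V := fun x => if h : ∃ i, q (x, i) ∧ good i then some h.choose else none
    with hL
  have hLi : ∀ x i, L x = some i ↔ q (x, i) ∧ good i := by
    intro x i
    rw [hL]
    simp only
    by_cases h : ∃ i, q (x, i) ∧ good i
    · rw [dif_pos h]
      constructor
      · intro h'
        rw [Option.some.injEq] at h'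
        rw [← h']
        exact h.choose_spec
      · intro h'
        rw [Option.some.injEq]
        exact hqinj x _ _ h.choose_spec.1 h'.1
    · rw [dif_neg h]
      constructor
      · intro h'; simp at h'
      · intro h'; exact absurd ⟨i, h'⟩ h
  have hsz : ∀ i, good i → sz L i = e0 i := by
    intro i hi
    exact ct_congr fun x => by rw [hLi]; exact ⟨fun h => h.1, fun h => ⟨h, hi⟩⟩
  have hsz0 : ∀ i, ¬ good i → ∀ x, L x ≠ some i := by
    intro i hi x hx
    exact hi ((hLi x i).1 hx).2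
  have hszn : ∀ i, ¬ good i → sz L i = 0 := fun i hi => ct_false (hsz0 i hi)
  have hLq : ∀ i, good i → (fun x => L x = some i) = fun x => q (x, i) := by
    intro i hi
    funext x
    exact propext (by rw [hLi]; exact ⟨fun h => h.1, fun h => ⟨h, hi⟩⟩)
  have hcov : (ct fun x => L x = none) ≤ κ * n := by
    have h1 : (ct fun x => L x = none) ≤ ct (fun y => p y ∧ ¬ q y) +
        ∑ i ∈ univ.filter (fun i => ¬ good i), e0 i := by
      refine (ct_le_add (q := fun x => ¬ q (x, c x)) (r := fun x => ∃ i ∈ univ.filter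
        (fun i => ¬ good i), q (x, i)) ?_).trans (add_le_add ?_ ?_)
      · intro x hx
        by_cases h : q (x, c x)
        · right
          refine ⟨c x, mem_filter.2 ⟨mem_univ _, fun hg => ?_⟩, h⟩
          have := (hLi x (c x)).2 ⟨h, hg⟩
          rw [hx] at this
          simp at this
        · exact Or.inl h
      · exact ct_le_of_inj (fun x => (x, c x)) (fun x h => ⟨rfl, h⟩)
          fun x x' _ _ h => congrArg Prod.fst h
      · exact ct_le_sum _ _ fun x hx => hx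
    have h2 : ∑ i ∈ univ.filter (fun i => ¬ good i), e0 i ≤
        η₀ * n / τ₂ + m / κ₁ + ct Z / τ₃ := by
      have a1 := markov (w := e0) hτ₂0 (fun i => bd_nonneg ρ _) hbsum
        (fun i => ¬ bd ρ (fun x => q (x, i)) ≤ τ₂ * e0 i) (fun i h => (not_le.1 h).le)
      have a2 := markov (w := e0) (show 0 < κ₁ by positivity) hD0 hDsum
        (fun i => ¬ D i ≤ κ₁ * e0 i) (fun i h => (not_le.1 h).le)
      have a3 := markov (w := e0) hτ₃0 (fun i => ct_nonneg _) hZsum
        (fun i => ¬ ct (fun x => q (x, i) ∧ Z x) ≤ τ₃ * e0 i) (fun i h => (not_le.1 h).le)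
      have a4 : ∑ i ∈ univ.filter (fun i => ¬ good i), e0 i ≤
          ∑ i ∈ univ.filter (fun i => ¬ bd ρ (fun x => q (x, i)) ≤ τ₂ * e0 i), e0 i +
          ∑ i ∈ univ.filter (fun i => ¬ D i ≤ κ₁ * e0 i), e0 i +
          ∑ i ∈ univ.filter (fun i => ¬ ct (fun x => q (x, i) ∧ Z x) ≤ τ₃ * e0 i), e0 i := by
        rw [sum_filter, sum_filter, sum_filter, sum_filter, ← sum_add_distrib,
          ← sum_add_distrib]
        refine sum_le_sum fun i _ => ?_
        have hi := he00 i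
        by_cases b1 : bd ρ (fun x => q (x, i)) ≤ τ₂ * e0 i
        · by_cases b2 : D i ≤ κ₁ * e0 i
          · by_cases b3 : ct (fun x => q (x, i) ∧ Z x) ≤ τ₃ * e0 i
            · rw [if_neg (not_not.2 ⟨b1, b2, b3⟩)]
              positivity
            · rw [if_pos (fun h => b3 h.2.2), if_pos b3]
              have : 0 ≤ (if ¬ bd ρ (fun x => q (x, i)) ≤ τ₂ * e0 i then e0 i else 0) := by
                split_ifs <;> simp [hi]
              have : 0 ≤ (if ¬ D i ≤ κ₁ * e0 i then e0 i else 0) := by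
                split_ifs <;> simp [hi]
              linarith
          · rw [if_pos (fun h => b2 h.2.1), if_pos b2]
            have : 0 ≤ (if ¬ bd ρ (fun x => q (x, i)) ≤ τ₂ * e0 i then e0 i else 0) := by
              split_ifs <;> simp [hi]
            have : 0 ≤ (if ¬ ct (fun x => q (x, i) ∧ Z x) ≤ τ₃ * e0 i then e0 i else 0) := by
              split_ifs <;> simp [hi]
            linarith
        · rw [if_pos (fun h => b1 h.1), if_pos b1]
          have : 0 ≤ (if ¬ D i ≤ κ₁ * e0 i then e0 i else 0) := by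
            split_ifs <;> simp [hi]
          have : 0 ≤ (if ¬ ct (fun x => q (x, i) ∧ Z x) ≤ τ₃ * e0 i then e0 i else 0) := by
            split_ifs <;> simp [hi]
          linarith
      linarith
    have h3 : η₀ * n / τ₂ ≤ κ / 16 * n := by
      rw [hη₀, div_le_iff₀ hτ₂0]
      have : κ ^ 2 / 256 ≤ κ / 16 := by nlinarith
      have h4 := mul_le_mul_of_nonneg_right this (show 0 ≤ n * τ₂ by positivity)
      calc τ₂ * κ ^ 2 / 256 * n = κ ^ 2 / 256 * (n * τ₂) := by ring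
        _ ≤ κ / 16 * (n * τ₂) := h4
        _ = κ / 16 * n * τ₂ := by ring
    have h4 : ct Z / τ₃ ≤ κ / 16 * n := by
      rw [div_le_iff₀ hτ₃0]
      calc ct Z ≤ τ₃ * κ / 16 * n := hZ2
        _ = _ := by ring
    have hη₀κ : η₀ ≤ κ ^ 2 / 256 := by
      rw [hη₀]
      have : τ₂ ≤ 1 := by rw [hτ₂]; linarith
      nlinarith [sq_nonneg κ]
    have h5 : m ≤ κ ^ 2 / 128 * n := by
      rw [hm]
      have h6 : C * (θ * n) = κ ^ 2 / 256 * n := by rw [← hCθ]; ring
      have h7 := mul_le_mul_of_nonneg_right hη₀κ hn0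
      linarith
    have h6 : m / κ₁ ≤ κ / 16 * n := by
      rw [hκ₁, div_le_iff₀ (by positivity)]
      calc m ≤ κ ^ 2 / 128 * n := h5
        _ = _ := by ring
    have h7 : κ ^ 2 / 128 * n ≤ κ / 16 * n := by
      refine mul_le_mul_of_nonneg_right ?_ hn0
      nlinarith
    have h8 : ct (fun y => p y ∧ ¬ q y) ≤ m := by
      have := ct_nonneg fun y => q y ∧ ¬ p y
      linarith
    have h9 : 0 ≤ κ * n := by positivity
    linarith
  have hirr : ∀ i, ∀ r : V → Prop, (∀ x, r x → L x = some i) → bd ρ r ≤ τ * sz L i →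
      ct r ≤ κ * sz L i ∨ (1 - κ) * sz L i ≤ ct r := by
    intro i r hr hb
    by_cases hi : good i
    · rw [hsz i hi] at hb ⊢
      obtain ⟨W, hW1, hW2⟩ := hc2 i
      have hDi := hi.2.1
      have hd1 : (ct fun x => c x = i ∧ ¬ q (x, i)) ≤ D i := by
        have := ct_nonneg fun x => q (x, i) ∧ ¬ c x = i
        rw [hD]
        simp only
        linarith
      have hd2 : (ct fun x => q (x, i) ∧ ¬ c x = i) ≤ D i := by
        have := ct_nonneg fun x => c x = i ∧ ¬ q (x, i)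
        rw [hD]
        simp only
        linarith
      have hout : (ct fun x => r x ∧ ¬ W x) ≤ κ₁ * e0 i := by
        refine le_trans (ct_mono fun x hx => ?_) (hd2.trans hDi)
        exact ⟨((hLi x i).1 (hr x hx.1)).1, fun h => hx.2 (hW1 x h)⟩
      have hi0 := he00 i
      rcases hW2 r with h | h | h
      · left
        have h1 : ct r ≤ ct fun x => r x ∧ ¬ W x := ct_mono fun x hx => ⟨hx, fun hw => h x ⟨hx, hw⟩⟩
        have h2 : κ₁ * e0 i ≤ κ * e0 i := mul_le_mul_of_nonneg_right (by rw [hκ₁]; linarith) hi0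
        linarith
      · right
        have h1 : e0 i ≤ (ct fun x => c x = i) + ct fun x => q (x, i) ∧ ¬ c x = i :=
          ct_le_add fun x hx => by
            by_cases h : c x = i
            · exact Or.inl h
            · exact Or.inr ⟨hx, h⟩
        have h2 : (ct fun x => r x ∧ W x) ≤ ct r := ct_mono fun x hx => hx.1
        have h3 : κ₁ * e0 i ≤ κ * e0 i := mul_le_mul_of_nonneg_right (by rw [hκ₁]; linarith) hi0
        linarith
      · left
        have h1 := ct_split r W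
        have h2 : θ * ct (fun x => r x ∧ W x) ≤ θ * (κ / 2 * e0 i) := by
          refine h.trans ?_
          have : 2 * (τ * e0 i) = θ * (κ / 2 * e0 i) := by rw [hτ]; ring
          linarith
        have h3 := le_of_mul_le_mul_left h2 hθ0
        have h4 : κ₁ * e0 i ≤ κ / 2 * e0 i := mul_le_mul_of_nonneg_right (by rw [hκ₁]; linarith) hi0
        linarith
    · left
      rw [hszn i hi, mul_zero]
      rw [ct_false]
      intro x hx
      exact hsz0 i hi x (hr x hx)
  have hbdy : ∀ i, bd ρ (fun x => L x = some i) ≤ τ₂ * sz L i := by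
    intro i
    by_cases hi : good i
    · rw [hLq i hi, hsz i hi]
      exact hi.1
    · rw [hszn i hi, mul_zero]
      refine le_of_eq (sum_eq_zero fun s _ => ct_false fun x hx => hsz0 i hi x hx.1)
  have herr : ∀ i, (ct fun x => L x = some i ∧ Z x) ≤ τ₃ * sz L i := by
    intro i
    by_cases hi : good i
    · rw [hsz i hi]
      refine le_trans (ct_mono fun x hx => ⟨((hLi x i).1 hx.1).1, hx.2⟩) hi.2.2
    · rw [hszn i hi, mul_zero]
      exact le_of_eq (ct_false fun x hx => hsz0 i hi x hx.1)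
  refine ⟨L, hcov, fun i => (hbdy i).trans (mul_le_mul_of_nonneg_right (by rw [hτ₂]; linarith)
    (sz_nonneg _ _)), fun i => (herr i).trans (mul_le_mul_of_nonneg_right hτ₃1 (sz_nonneg _ _)),
    hirr, ?_⟩
  -- refinement of arrows
  intro i j R hR
  obtain ⟨s1, s2⟩ := arw_size hκ1 hτ0.le (by linarith) hirr hR
  have l1 := hR.le_src
  have l2 := hR.le_tgt
  have b1 := hR.big1
  have b2 := hR.big2
  have z1 := sz_nonneg L i
  have z2 := sz_nonneg L j
  have r0 := ct_nonneg R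
  obtain ⟨R', h1, h2, h3⟩ := himp₁ (V × V) (pr ρ ρ) R (by
    intro w hw
    have h4 : (ct fun y => R y ∧ pr ρ ρ w y ≠ y) ≤ (ct fun x => L x = some i ∧ Z x) +
        ct fun x => L x = some j ∧ Z x := by
      refine (ct_le_add (q := fun y => R y ∧ Z y.1) (r := fun y => R y ∧ Z y.2) ?_).trans
        (add_le_add (ct_le_of_inj Prod.fst ?_ ?_) (ct_le_of_inj Prod.snd ?_ ?_))
      · rintro y ⟨hy, hne⟩
        by_cases z1 : Z y.1
        · exact Or.inl ⟨hy, z1⟩
        · by_cases z2 : Z y.2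
          · exact Or.inr ⟨hy, z2⟩
          · exfalso
            apply hne
            rw [pr_apply, hrel w (mem_union_right _ hw) _ z1, hrel w (mem_union_right _ hw) _ z2]
      · exact fun y hy => ⟨hR.src y hy.1, hy.2⟩
      · exact fun y y' hy hy' h => hR.inj1 y y' hy.1 hy'.1 h
      · exact fun y hy => ⟨hR.tgt y hy.1, hy.2⟩
      · exact fun y y' hy hy' h => hR.inj2 y y' hy.1 hy'.1 h
    have h5 := herr i
    have h6 := herr j
    have h7 : τ₃ * sz L i + τ₃ * sz L j ≤ 4 * τ₃ * ct R := by nlinarith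
    have h8 : 4 * τ₃ * ct R ≤ δ₁ * ct R := mul_le_mul_of_nonneg_right hτ₃2 r0
    linarith)
  have inj1' : ∀ y y', R' y → R' y' → y.1 = y'.1 → y = y' :=
    h3 V ρ Prod.fst (fun w y => rfl) hR.inj1
  have inj2' : ∀ y y', R' y → R' y' → y.2 = y'.2 → y = y' :=
    h3 V ρ Prod.snd (fun w y => rfl) hR.inj2
  set R'' : V × V → Prop := fun y => R' y ∧ L y.1 = some i ∧ L y.2 = some j with hR''
  have hRR : (ct fun y => R y ∧ R' y) ≤ ct fun y => R y ∧ R'' y :=
    ct_mono fun y hy => ⟨hy.1, hy.2, hR.src y hy.1, hR.tgt y hy.1⟩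
  have hspl := ct_split R R'
  have hlow : ct R - (C * (τ / 4 * sz L i) + τ₁ / 4 * ct R) ≤ ct fun y => R y ∧ R'' y := by
    have h4 := ct_nonneg fun y => R' y ∧ ¬ R y
    have h5 := mul_le_mul_of_nonneg_left hR.bdy hC0.le
    linarith
  have hCτi : C * (τ / 4 * sz L i) ≤ 1 / 128 * sz L i := by
    have : C * (τ / 4 * sz L i) = C * τ * (sz L i / 4) := by ring
    rw [this]
    nlinarith
  have hτ₁R : τ₁ / 4 * ct R ≤ 1 / 100 * ct R := mul_le_mul_of_nonneg_right (by linarith) r0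
  have hle : (ct fun y => R y ∧ R'' y) ≤ ct R'' := ct_mono fun y hy => hy.2
  have h12 : (1 - κ) * sz L i ≥ 99 / 100 * sz L i := by nlinarith
  have h13 : (1 - κ) * sz L j ≥ 99 / 100 * sz L j := by nlinarith
  have hpos : 0 < ct R := by linarith
  refine ⟨R'', ⟨fun y hy => hy.2.1, fun y hy => hy.2.2, fun y y' hy hy' h => inj1' y y' hy.1 hy'.1 h,
    fun y y' hy hy' h => inj2' y y' hy.1 hy'.1 h, ?_, ?_, ?_⟩, ?_⟩
  · linarith
  · linarith
  · have h4 : bd (pr ρ ρ) R'' ≤ bd (pr ρ ρ) R' + bd ρ (fun x => L x = some i) +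
        bd ρ (fun x => L x = some j) := by
      unfold bd
      rw [← sum_add_distrib, ← sum_add_distrib]
      refine sum_le_sum fun s _ => ?_
      refine (ct_le_add (q := fun y => (R' y ∧ ¬ R' (pr ρ ρ (FreeGroup.of s) y)) ∨
        (R' y ∧ L y.1 = some i ∧ ¬ L (ρ (FreeGroup.of s) y.1) = some i))
        (r := fun y => R' y ∧ L y.2 = some j ∧ ¬ L (ρ (FreeGroup.of s) y.2) = some j) ?_).trans
        (add_le_add ((ct_le_add fun y hy => hy).trans (add_le_add le_rfl
          (ct_le_of_inj Prod.fst ?_ ?_))) (ct_le_of_inj Prod.snd ?_ ?_))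
      · rintro y ⟨⟨y1, y2, y3⟩, hy⟩
        by_cases c1 : R' (pr ρ ρ (FreeGroup.of s) y)
        · by_cases c2 : L (ρ (FreeGroup.of s) y.1) = some i
          · by_cases c3 : L (ρ (FreeGroup.of s) y.2) = some j
            · exact absurd ⟨c1, c2, c3⟩ hy
            · exact Or.inr ⟨y1, y3, c3⟩
          · exact Or.inl (Or.inr ⟨y1, y2, c2⟩)
        · exact Or.inl (Or.inl ⟨y1, c1⟩)
      · exact fun y hy => hy.2
      · exact fun y y' hy hy' h => inj1' y y' hy.1 hy'.1 h
      · exact fun y hy => hy.2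
      · exact fun y y' hy hy' h => inj2' y y' hy.1 hy'.1 h
    have h5 := hbdy i
    have h6 := hbdy j
    have h7 : sz L j ≤ 2 * sz L i := by linarith
    have h8 : τ₁ / 4 * ct R ≤ τ₁ / 4 * sz L i := mul_le_mul_of_nonneg_left l1 (by positivity)
    have h9 : τ₂ * sz L j ≤ τ₂ * (2 * sz L i) := mul_le_mul_of_nonneg_left h7 hτ₂0.le
    have h10 : τ₂ * sz L i = τ₁ * sz L i / 8 := by rw [hτ₂]; ring
    have h11 : τ₂ * (2 * sz L i) = τ₁ * sz L i / 4 := by rw [hτ₂]; ring
    have h14 : τ₁ / 4 * sz L i = τ₁ * sz L i / 4 := by ring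
    have h15 : 0 ≤ τ₁ * sz L i := by positivity
    linarith
  · linarith

end

end Pool.Agent.N303.KS
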