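import Pool.Agent.N303.KS.Mas

/-!
# The energy estimate
-/

set_option autoImplicit false

namespace Pool.Agent.N303.KS

open Finset

noncomputable section

variable {V : Type} [Fintype V] {k : ℕ}
variable {ρ : FreeGroup (Fin k) →* Equiv.Perm V} {Z : V → Prop} {κ τ τ₁ Λ : ℝ}
  {L : V → Option V} {Y : Finset (AD V)}

open Classical in
/-- mass of a set of arrows -/
def mu (L : V → Option V) (Y : Finset (AD V)) (P : Y → Prop) : ℝ :=
  ∑ a : Y, if P a then ms L Y a.1 else 0

theorem mu_nonneg (P : Y → Prop) : 0 ≤ mu L Y P := by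
  classical
  refine sum_nonneg fun a _ => ?_
  split_ifs
  · exact ms_nonneg L Y a
  · exact le_rfl

theorem mu_mono {P Q : Y → Prop} (h : ∀ a, P a → Q a) : mu L Y P ≤ mu L Y Q := by
  classical
  refine sum_le_sum fun a _ => ?_
  have h0 := ms_nonneg L Y a
  by_cases c : P a
  · rw [if_pos c, if_pos (h a c)]
  · rw [if_neg c]
    split_ifs
    · exact h0
    · exact le_rfl

theorem mu_le_add {P Q R : Y → Prop} (h : ∀ a, P a → Q a ∨ R a) :
    mu L Y P ≤ mu L Y Q + mu L Y R := by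
  classical
  unfold mu
  rw [← sum_add_distrib]
  refine sum_le_sum fun a _ => ?_
  have h0 := ms_nonneg L Y a
  by_cases c : P a
  · rw [if_pos c]
    rcases h a c with h1 | h1
    · rw [if_pos h1]
      split_ifs <;> linarith
    · rw [if_pos h1]
      split_ifs <;> linarith
  · rw [if_neg c]
    split_ifs <;> linarith

theorem mu_split (P Q : Y → Prop) :
    mu L Y P = mu L Y (fun a => P a ∧ Q a) + mu L Y fun a => P a ∧ ¬ Q a := by
  classical
  unfold mu
  rw [← sum_add_distrib]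
  refine sum_congr rfl fun a _ => ?_
  by_cases c : P a <;> by_cases d : Q a <;> simp [c, d]

theorem mu_filter (P : AD V → Prop) [DecidablePred P] : mu L Y (fun a => P a.1) =
    ∑ a ∈ Y.filter P, ms L Y a := by
  unfold mu
  rw [sum_filter, ← sum_coe_sort Y (fun a => if P a then ms L Y a else 0)]
  refine sum_congr rfl fun a _ => ?_
  by_cases h : P a.1 <;> simp [h]

/-- domain -/
def Dm (κ : ℝ) (L : V → Option V) (Y : Finset (AD V)) (α : Equiv.Perm V) (a : Y) : Prop :=
  ∃ b : Y, AR κ L α α a.1 b.1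

/-- range -/
def Rg (κ : ℝ) (L : V → Option V) (Y : Finset (AD V)) (α : Equiv.Perm V) (b : Y) : Prop :=
  ∃ a : Y, AR κ L α α a.1 b.1

theorem mu_dom (hY : Rep ρ κ τ τ₁ L Y) (hS : Sys ρ Z κ τ τ₁ L) (hn : Num k κ τ τ₁ Λ)
    (hZ : ct Z ≤ τ₁ * Fintype.card V) {α : Equiv.Perm V} (hα : Ok ρ Z Λ α) :
    mu L Y (fun a => ¬ Dm κ L Y α a) ≤ 17 * κ * Fintype.card V := by
  classical
  refine le_trans (le_of_eq ?_) (mass_dom hY hS hn hZ hα)
  rw [← mu_filter (fun a => ¬ ∃ b ∈ Y, AR κ L α α a b)]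
  congr 1
  funext a
  refine propext (not_congr ⟨?_, ?_⟩)
  · rintro ⟨b, hb⟩
    exact ⟨b.1, b.2, hb⟩
  · rintro ⟨b, hb, hab⟩
    exact ⟨⟨b, hb⟩, hab⟩

theorem mu_rng (hY : Rep ρ κ τ τ₁ L Y) (hS : Sys ρ Z κ τ τ₁ L) (hn : Num k κ τ τ₁ Λ)
    (hZ : ct Z ≤ τ₁ * Fintype.card V) {α : Equiv.Perm V} (hα : Ok ρ Z Λ α) :
    mu L Y (fun a => ¬ Rg κ L Y α a) ≤ 17 * κ * Fintype.card V := by
  classical
  refine le_trans (le_of_eq ?_) (mass_rng hY hS hn hZ hα)
  rw [← mu_filter (fun b => ¬ ∃ a ∈ Y, AR κ L α α a b)]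
  congr 1
  funext a
  refine propext (not_congr ⟨?_, ?_⟩)
  · rintro ⟨b, hb⟩
    exact ⟨b.1, b.2, hb⟩
  · rintro ⟨b, hb, hab⟩
    exact ⟨⟨b, hb⟩, hab⟩

theorem mu_src (hY : Rep ρ κ τ τ₁ L Y) (hS : Sys ρ Z κ τ τ₁ L) (hn : Num k κ τ τ₁ Λ) (i : V) :
    mu L Y (fun a => a.1.1 = i) = sz L i := by
  classical
  have h1 := mass_src hY hS hn (fun j => j = i)
  have h2 : ∑ j ∈ univ.filter (fun j => j = i), sz L j = sz L i := by
    rw [sum_filter]; simp
  rw [h2] at h1
  rw [← h1]
  exact mu_filter (L := L) (Y := Y) (fun a => a.1 = i)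

theorem mu_const {P : Y → Prop} {c : ℝ} (h : ∀ a, P a → ms L Y a.1 = c) :
    mu L Y P = ct P * c := by
  classical
  rw [ct_eq_sum, sum_mul]
  refine sum_congr rfl fun a _ => ?_
  split_ifs with hp
  · rw [h a hp, one_mul]
  · rw [zero_mul]

/-- **Energy estimate.** -/
theorem energy1 (hY : Rep ρ κ τ τ₁ L Y) (hS : Sys ρ Z κ τ τ₁ L) (hn : Num k κ τ τ₁ Λ)
    (hZ : ct Z ≤ τ₁ * Fintype.card V) {α : Equiv.Perm V} (hα : Ok ρ Z Λ α) (φ : Equiv.Perm Y)
    (hφ : ∀ a b : Y, AR κ L α α a.1 b.1 → φ a = b) :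
    ∑ a : Y, |ms L Y (φ a).1 - ms L Y a.1| ≤ 70 * κ * Fintype.card V := by
  classical
  set n : ℝ := (Fintype.card V : ℝ) with hnn
  have hn0 : 0 ≤ n := Nat.cast_nonneg _
  have hκ := hn.κ0
  have hκ1 := hn.κ1
  have hdom := mu_dom hY hS hn hZ hα
  have hrng := mu_rng hY hS hn hZ hα
  have hφR : ∀ a : Y, Dm κ L Y α a → AR κ L α α a.1 (φ a).1 := by
    rintro a ⟨b, hb⟩
    rw [hφ a b hb]; exact hb
  -- the moves on sources
  set mv : V → V := fun i => if h : ∃ j, Mv κ L α i j then h.choose else i with hmv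
  have hmv1 : ∀ i j, Mv κ L α i j → mv i = j := by
    intro i j h
    have h' : ∃ j, Mv κ L α i j := ⟨j, h⟩
    rw [hmv]
    simp only [dif_pos h']
    exact h'.choose_spec.uniq hκ1 h
  have hmv2 : ∀ i, (∃ j, Mv κ L α i j) → Mv κ L α i (mv i) := by
    rintro i ⟨j, hj⟩
    rw [hmv1 i j hj]; exact hj
  set I : Finset V := univ.filter fun i => ∃ j, Mv κ L α i j with hI
  -- the estimate for one source
  have hone : ∀ i, ∑ a : Y, (if Dm κ L Y α a ∧ a.1.1 = i then |ms L Y (φ a).1 - ms L Y a.1| else 0) ≤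
      (if i ∈ I then (2 * κ * sz L i + mu L Y (fun a => a.1.1 = i ∧ ¬ Dm κ L Y α a) +
        mu L Y fun b => b.1.1 = mv i ∧ ¬ Rg κ L Y α b) else 0) := by
    intro i
    by_cases hi : i ∈ I
    · rw [if_pos hi]
      have hM := hmv2 i (mem_filter.1 hi).2
      set c : ℝ := sz L i / ni Y i with hc
      set c' : ℝ := sz L (mv i) / ni Y (mv i) with hc'
      have h1 : ∑ a : Y, (if Dm κ L Y α a ∧ a.1.1 = i then |ms L Y (φ a).1 - ms L Y a.1| else 0) =
          (ct fun a : Y => Dm κ L Y α a ∧ a.1.1 = i) * |c' - c| := by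
        rw [ct_eq_sum, sum_mul]
        refine sum_congr rfl fun a _ => ?_
        split_ifs with h
        · rw [one_mul, ms, ms]
          have h2 := hmv1 _ _ (hφR a h.1).m1
          rw [h.2] at h2
          rw [← h2, h.2]
        · rw [zero_mul]
      have h2 : (ct fun a : Y => Dm κ L Y α a ∧ a.1.1 = i) =
          ct fun b : Y => Rg κ L Y α b ∧ b.1.1 = mv i := by
        apply le_antisymm
        · refine ct_le_of_inj φ ?_ fun a a' _ _ h => φ.injective h
          rintro a ⟨h3, h4⟩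
          have h5 := hφR a h3
          refine ⟨⟨a, h5⟩, ?_⟩
          rw [← hmv1 _ _ h5.m1, h4]
        · refine ct_le_of_inj (fun b => φ⁻¹ b) ?_ fun a a' _ _ h => (φ⁻¹).injective h
          rintro b ⟨⟨a, h3⟩, h4⟩
          have h5 : φ⁻¹ b = a := by
            rw [Equiv.Perm.inv_eq_iff_eq]
            exact (hφ a b h3).symm
          show Dm κ L Y α (φ⁻¹ b) ∧ (φ⁻¹ b).1.1 = i
          rw [h5]
          refine ⟨⟨b, h3⟩, ?_⟩
          have h6 := h3.m1
          rw [h4] at h6
          exact h6.inj hκ1 hM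
      have h3 : (ct fun a : Y => Dm κ L Y α a ∧ a.1.1 = i) * c =
          sz L i - mu L Y (fun a => a.1.1 = i ∧ ¬ Dm κ L Y α a) := by
        rw [← mu_const (L := L) (P := fun a : Y => Dm κ L Y α a ∧ a.1.1 = i)
          (fun a ha => by rw [ms, ha.2]), ← mu_src hY hS hn i,
          mu_split (fun a : Y => a.1.1 = i) (Dm κ L Y α)]
        have : mu L Y (fun a => Dm κ L Y α a ∧ a.1.1 = i) =
            mu L Y (fun a => a.1.1 = i ∧ Dm κ L Y α a) := by
          congr 1
          funext a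
          exact propext and_comm
        rw [this]
        ring
      have h4 : (ct fun a : Y => Dm κ L Y α a ∧ a.1.1 = i) * c' =
          sz L (mv i) - mu L Y (fun b => b.1.1 = mv i ∧ ¬ Rg κ L Y α b) := by
        rw [h2, ← mu_const (L := L) (P := fun b : Y => Rg κ L Y α b ∧ b.1.1 = mv i)
          (fun a ha => by rw [ms, ha.2]), ← mu_src hY hS hn (mv i),
          mu_split (fun a : Y => a.1.1 = mv i) (Rg κ L Y α)]
        have : mu L Y (fun a => Rg κ L Y α a ∧ a.1.1 = mv i) =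
            mu L Y (fun a => a.1.1 = mv i ∧ Rg κ L Y α a) := by
          congr 1
          funext a
          exact propext and_comm
        rw [this]
        ring
      have h5 : 0 ≤ ct fun a : Y => Dm κ L Y α a ∧ a.1.1 = i := ct_nonneg _
      have h6 : (ct fun a : Y => Dm κ L Y α a ∧ a.1.1 = i) * |c' - c| =
          |(ct fun a : Y => Dm κ L Y α a ∧ a.1.1 = i) * c' -
            (ct fun a : Y => Dm κ L Y α a ∧ a.1.1 = i) * c| := by
        rw [← mul_sub, abs_mul, abs_of_nonneg h5]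
      rw [h1, h6, h3, h4]
      obtain ⟨m1, m2⟩ := mv_size hM
      have z1 := sz_nonneg L i
      have z2 := sz_nonneg L (mv i)
      have u1 := mu_nonneg (L := L) fun a : Y => a.1.1 = i ∧ ¬ Dm κ L Y α a
      have u2 := mu_nonneg (L := L) fun b : Y => b.1.1 = mv i ∧ ¬ Rg κ L Y α b
      have z3 : sz L (mv i) ≤ 2 * sz L i := by nlinarith
      have z4 : κ * sz L (mv i) ≤ κ * (2 * sz L i) := mul_le_mul_of_nonneg_left z3 hκ.le
      rw [abs_le]
      constructor <;> linarith
    · rw [if_neg hi]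
      refine le_of_eq (sum_eq_zero fun a _ => ?_)
      rw [if_neg]
      rintro ⟨h1, h2⟩
      apply hi
      rw [hI, mem_filter]
      refine ⟨mem_univ _, (φ a).1.1, ?_⟩
      rw [← h2]
      exact (hφR a h1).m1
  -- sum over the sources
  have hsum : ∑ a : Y, (if Dm κ L Y α a then |ms L Y (φ a).1 - ms L Y a.1| else 0) ≤
      2 * κ * n + mu L Y (fun a => ¬ Dm κ L Y α a) + mu L Y (fun a => ¬ Rg κ L Y α a) := by
    have h1 : ∑ a : Y, (if Dm κ L Y α a then |ms L Y (φ a).1 - ms L Y a.1| else 0) =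
        ∑ i, ∑ a : Y, (if Dm κ L Y α a ∧ a.1.1 = i then |ms L Y (φ a).1 - ms L Y a.1| else 0) := by
      rw [sum_comm]
      refine sum_congr rfl fun a _ => ?_
      by_cases h : Dm κ L Y α a
      · simp [h]
      · simp [h]
    rw [h1]
    refine (sum_le_sum fun i _ => hone i).trans ?_
    rw [← sum_filter, filter_mem_eq_inter, univ_inter, sum_add_distrib, sum_add_distrib]
    have h2 : ∑ i ∈ I, 2 * κ * sz L i ≤ 2 * κ * n := by
      rw [← mul_sum]
      refine mul_le_mul_of_nonneg_left ?_ (by positivity)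
      refine (sum_le_sum_of_subset_of_nonneg (subset_univ _) fun i _ _ => sz_nonneg L i).trans ?_
      rw [sum_sz]
      have := ct_nonneg fun x => L x = none
      linarith
    have hfib : ∀ P : Y → Prop, ∑ i, mu L Y (fun a => a.1.1 = i ∧ P a) = mu L Y P := by
      intro P
      unfold mu
      rw [sum_comm]
      refine sum_congr rfl fun a _ => ?_
      by_cases h : P a
      · simp [h]
      · simp [h]
    have h3 : ∑ i ∈ I, mu L Y (fun a => a.1.1 = i ∧ ¬ Dm κ L Y α a) ≤
        mu L Y (fun a => ¬ Dm κ L Y α a) := by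
      rw [← hfib fun a => ¬ Dm κ L Y α a]
      exact sum_le_sum_of_subset_of_nonneg (subset_univ _) fun i _ _ => mu_nonneg _
    have h4 : ∑ i ∈ I, mu L Y (fun a => a.1.1 = mv i ∧ ¬ Rg κ L Y α a) ≤
        mu L Y (fun a => ¬ Rg κ L Y α a) := by
      rw [← hfib fun a => ¬ Rg κ L Y α a]
      rw [← sum_image (s := I) (g := mv)
        (f := fun j => mu L Y (fun a => a.1.1 = j ∧ ¬ Rg κ L Y α a))]
      · exact sum_le_sum_of_subset_of_nonneg (subset_univ _) fun i _ _ => mu_nonneg _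
      · intro i hi i' hi' h
        have e1 := hmv2 i (mem_filter.1 hi).2
        have e2 := hmv2 i' (mem_filter.1 hi').2
        have h : mv i = mv i' := h
        rw [h] at e1
        exact e1.inj hκ1 e2
    linarith
  -- outside the domain
  have hout : ∑ a : Y, (if Dm κ L Y α a then 0 else |ms L Y (φ a).1 - ms L Y a.1|) ≤
      mu L Y (fun a => ¬ Dm κ L Y α a) + mu L Y (fun a => ¬ Rg κ L Y α a) := by
    have h1 : mu L Y (fun a => ¬ Rg κ L Y α a) =
        ∑ a : Y, (if ¬ Rg κ L Y α (φ a) then ms L Y (φ a).1 else 0) := by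
      unfold mu
      rw [← Equiv.sum_comp φ]
      refine sum_congr rfl fun a _ => ?_
      by_cases h : Rg κ L Y α (φ a) <;> simp [h]
    rw [h1, mu, ← sum_add_distrib]
    refine sum_le_sum fun a _ => ?_
    by_cases h : Dm κ L Y α a
    · rw [if_pos h]
      have := ms_nonneg L Y (φ a).1
      have := ms_nonneg L Y a.1
      split_ifs <;> linarith
    · have h2 : ¬ Rg κ L Y α (φ a) := by
        rintro ⟨b, hb⟩
        have h3 := hφ b (φ a) hb
        have h4 := φ.injective h3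
        exact h ⟨φ a, by rw [← h4]; exact hφR b ⟨_, hb⟩⟩
      rw [if_neg h, if_pos h, if_pos h2]
      have h3 := ms_nonneg L Y (φ a).1
      have h4 := ms_nonneg L Y a.1
      rw [abs_le]
      constructor <;> linarith
  have hfin : ∑ a : Y, |ms L Y (φ a).1 - ms L Y a.1| =
      ∑ a : Y, (if Dm κ L Y α a then |ms L Y (φ a).1 - ms L Y a.1| else 0) +
      ∑ a : Y, (if Dm κ L Y α a then 0 else |ms L Y (φ a).1 - ms L Y a.1|) := by
    rw [← sum_add_distrib]
    refine sum_congr rfl fun a _ => ?_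
    split_ifs <;> simp
  rw [hfin]
  linarith

end

end Pool.Agent.N303.KS
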