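import Pool.Agent.N303.KS.Cmp

/-!
# The action on the set of arrows and the masses
-/

set_option autoImplicit false

namespace Pool.Agent.N303.KS

open Finset

noncomputable section

variable {V : Type} [Fintype V] {k : ℕ}

/-- a partial injection of a finite set extends to a permutation -/
theorem ext_rel {T : Type} [Fintype T] (r : T → T → Prop)
    (h1 : ∀ a b b', r a b → r a b' → b = b') (h2 : ∀ a a' b, r a b → r a' b → a = a') :
    ∃ φ : Equiv.Perm T, ∀ a b, r a b → φ a = b := by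
  classical
  let f : {a : T // ∃ b, r a b} → {b : T // ∃ a, r a b} := fun a =>
    ⟨a.2.choose, a.1, a.2.choose_spec⟩
  have hf : Function.Bijective f := by
    constructor
    · intro a a' h
      have h3 : a.2.choose = a'.2.choose := congrArg Subtype.val h
      have h4 := a.2.choose_spec
      rw [h3] at h4
      exact Subtype.ext (h2 _ _ _ h4 a'.2.choose_spec)
    · rintro ⟨b, a, hab⟩
      refine ⟨⟨a, b, hab⟩, Subtype.ext ?_⟩
      have h3 : r a (Exists.choose (⟨b, hab⟩ : ∃ b, r a b)) :=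
        Exists.choose_spec (⟨b, hab⟩ : ∃ b, r a b)
      exact h1 _ _ _ h3 hab
  refine ⟨(Equiv.ofBijective f hf).extendSubtype, fun a b hab => ?_⟩
  rw [Equiv.extendSubtype_apply_of_mem _ a ⟨b, hab⟩]
  have h3 : r a (Exists.choose (⟨b, hab⟩ : ∃ b, r a b)) :=
    Exists.choose_spec (⟨b, hab⟩ : ∃ b, r a b)
  exact h1 _ _ _ h3 hab

/-- hypotheses on a permutation of the vertices -/
def Ok (ρ : FreeGroup (Fin k) →* Equiv.Perm V) (Z : V → Prop) (Λ : ℝ) (α : Equiv.Perm V) : Prop :=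
  ∃ w w' : Fin k → FreeGroup (Fin k), WB Λ w ∧ WB Λ w' ∧ Tw ρ Z w α ∧ Tw ρ Z w' α⁻¹

/-- the mass of an arrow -/
def ms (L : V → Option V) (Y : Finset (AD V)) (a : AD V) : ℝ := sz L a.1 / ni Y a.1

theorem ms_nonneg (L : V → Option V) (Y : Finset (AD V)) (a : AD V) : 0 ≤ ms L Y a :=
  div_nonneg (sz_nonneg L _) (Nat.cast_nonneg _)

section mass

variable {ρ : FreeGroup (Fin k) →* Equiv.Perm V} {Z : V → Prop} {κ τ τ₁ Λ : ℝ}
  {L : V → Option V} {Y : Finset (AD V)}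

open Classical in
theorem sum_src (Y : Finset (AD V)) (G : V → ℝ) : ∑ a ∈ Y, G a.1 = ∑ i, ni Y i * G i := by
  rw [← sum_fiberwise Y (fun a => a.1)]
  refine sum_congr rfl fun i _ => ?_
  rw [ni, ← nsmul_eq_mul, ← sum_const]
  refine sum_congr rfl fun a ha => ?_
  rw [(mem_filter.1 ha).2]

open Classical in
theorem sum_tgt (hY : Rep ρ κ τ τ₁ L Y) (hS : Sys ρ Z κ τ τ₁ L) (hn : Num k κ τ τ₁ Λ)
    (G : V → ℝ) : ∑ a ∈ Y, G a.2.1 = ∑ j, ni Y j * G j := by
  rw [← sum_fiberwise Y (fun a => a.2.1)]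
  refine sum_congr rfl fun j _ => ?_
  have h1 : ni Y j = (Y.filter fun a => a.2.1 = j).card := by
    rw [ni_eq_sum, card_eq_sum_card_fiberwise (f := fun a : AD V => a.1) (t := univ)
      (fun x _ => mem_coe.2 (mem_univ _))]
    refine sum_congr rfl fun i _ => ?_
    rw [nij_symm hY hS hn, nij, filter_filter]
    congr 1
    ext a
    simp only [mem_filter]
    tauto
  rw [h1, ← nsmul_eq_mul, ← sum_const]
  refine sum_congr rfl fun a ha => ?_
  rw [(mem_filter.1 ha).2]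

theorem ni_mul (hY : Rep ρ κ τ τ₁ L Y) (hS : Sys ρ Z κ τ τ₁ L) (hn : Num k κ τ τ₁ Λ) (i : V) :
    ni Y i * (sz L i / ni Y i) = sz L i := by
  rcases (sz_nonneg L i).eq_or_lt with h | h
  · rw [← h]; simp
  · have h1 : (0 : ℝ) < ni Y i := by exact_mod_cast ni_pos hY hS hn h
    field_simp

/-- the mass of the arrows with given source -/
theorem mass_src (hY : Rep ρ κ τ τ₁ L Y) (hS : Sys ρ Z κ τ τ₁ L) (hn : Num k κ τ τ₁ Λ)
    (p : V → Prop) [DecidablePred p] : ∑ a ∈ Y.filter (fun a => p a.1), ms L Y a =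
      ∑ i ∈ univ.filter p, sz L i := by
  rw [sum_filter, sum_filter]
  have h1 := sum_src Y (fun i => if p i then sz L i / ni Y i else 0)
  refine Eq.trans (sum_congr rfl fun a _ => rfl) (h1.trans (sum_congr rfl fun i _ => ?_))
  split_ifs
  · exact ni_mul hY hS hn i
  · rw [mul_zero]

/-- the mass of the arrows with given target -/
theorem mass_tgt (hY : Rep ρ κ τ τ₁ L Y) (hS : Sys ρ Z κ τ τ₁ L) (hn : Num k κ τ τ₁ Λ)
    (p : V → Prop) [DecidablePred p] : ∑ a ∈ Y.filter (fun a => p a.2.1), ms L Y a ≤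
      102 / 100 * ∑ i ∈ univ.filter p, sz L i := by
  have h1 := sum_tgt hY hS hn (fun i => if p i then sz L i / ni Y i else 0)
  have h2 : ∑ i, (ni Y i : ℝ) * (if p i then sz L i / ni Y i else 0) =
      ∑ i ∈ univ.filter p, sz L i := by
    rw [sum_filter]
    refine sum_congr rfl fun i _ => ?_
    split_ifs
    · exact ni_mul hY hS hn i
    · rw [mul_zero]
  rw [← h2, ← h1, sum_filter, mul_sum]
  refine sum_le_sum fun a ha => ?_
  split_ifs
  · unfold ms
    rw [ni_eq hY hS hn ha, ← mul_div_assoc]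
    refine div_le_div_of_nonneg_right ?_ (Nat.cast_nonneg _)
    have h3 := (hY.size hS hn ha).1
    have h4 := (hY.arw a ha).le_tgt
    have h5 := hn.κ1
    have h6 := sz_nonneg L a.1
    nlinarith
  · rw [mul_zero]

open Classical in
/-- total mass -/
theorem mass_all (hY : Rep ρ κ τ τ₁ L Y) (hS : Sys ρ Z κ τ τ₁ L) (hn : Num k κ τ τ₁ Λ) :
    (1 - κ) * Fintype.card V ≤ ∑ a ∈ Y, ms L Y a ∧ ∑ a ∈ Y, ms L Y a ≤ Fintype.card V := by
  have h1 := mass_src hY hS hn (fun _ => True)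
  rw [filter_true, filter_true, sum_sz] at h1
  have h2 := hS.cov
  have h3 := ct_nonneg fun x => L x = none
  rw [h1]
  constructor <;> linarith

open Classical in
/-- the mass of the arrows which are not in the domain of the action of `α` -/
theorem mass_dom (hY : Rep ρ κ τ τ₁ L Y) (hS : Sys ρ Z κ τ τ₁ L) (hn : Num k κ τ τ₁ Λ)
    (hZ : ct Z ≤ τ₁ * Fintype.card V) {α : Equiv.Perm V} (hα : Ok ρ Z Λ α) :
    ∑ a ∈ Y.filter (fun a => ¬ ∃ b ∈ Y, AR κ L α α a b), ms L Y a ≤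
      17 * κ * Fintype.card V := by
  obtain ⟨w, w', hw, hw', hα1, hα2⟩ := hα
  have hm := moves hS hn.κ0 hn.κ1 hn.τ0 hZ (by linarith [hn.Λ1]) hw hw' hn.a2 hn.τ₁0 hα1 hα2
    (fun i => ¬ ∃ j, Mv κ L α i j) (fun i hi => hi)
  have h1 := mass_src hY hS hn (fun i => ¬ ∃ j, Mv κ L α i j)
  have h2 := mass_tgt hY hS hn (fun i => ¬ ∃ j, Mv κ L α i j)
  have h3 : ∑ a ∈ Y.filter (fun a => ¬ ∃ b ∈ Y, AR κ L α α a b), ms L Y a ≤
      ∑ a ∈ Y.filter (fun a => ¬ ∃ j, Mv κ L α a.1 j), ms L Y a +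
      ∑ a ∈ Y.filter (fun a => ¬ ∃ j, Mv κ L α a.2.1 j), ms L Y a := by
    rw [sum_filter, sum_filter, sum_filter, ← sum_add_distrib]
    refine sum_le_sum fun a ha => ?_
    have h0 := ms_nonneg L Y a
    by_cases c1 : ∃ j, Mv κ L α a.1 j
    · by_cases c2 : ∃ j, Mv κ L α a.2.1 j
      · obtain ⟨i', hi⟩ := c1
        obtain ⟨j', hj⟩ := c2
        obtain ⟨b, hb, -, -, hab, -⟩ := ar_exists hY hS hn hw hα1 hα1 ha hi hj
        rw [if_neg (not_not.2 ⟨b, hb, hab⟩)]
        split_ifs <;> linarith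
      · rw [if_pos c2]
        split_ifs <;> linarith
    · rw [if_pos c1]
      split_ifs <;> linarith
  have h4 : (0 : ℝ) ≤ κ * Fintype.card V := by
    have := hn.κ0
    positivity
  linarith

open Classical in
/-- the mass of the arrows which are not in the range of the action of `α` -/
theorem mass_rng (hY : Rep ρ κ τ τ₁ L Y) (hS : Sys ρ Z κ τ τ₁ L) (hn : Num k κ τ τ₁ Λ)
    (hZ : ct Z ≤ τ₁ * Fintype.card V) {α : Equiv.Perm V} (hα : Ok ρ Z Λ α) :
    ∑ b ∈ Y.filter (fun b => ¬ ∃ a ∈ Y, AR κ L α α a b), ms L Y b ≤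
      17 * κ * Fintype.card V := by
  obtain ⟨w, w', hw, hw', hα1, hα2⟩ := hα
  have hm := moves (α := α⁻¹) hS hn.κ0 hn.κ1 hn.τ0 hZ (by linarith [hn.Λ1]) hw' hw hn.a2 hn.τ₁0 hα2
    (by rw [inv_inv]; exact hα1) (fun i => ¬ ∃ j, Mv κ L α j i)
    (fun i hi => fun ⟨j, hj⟩ => hi ⟨j, by
      have := hj.inv hn.κ1
      rwa [inv_inv] at this⟩)
  have h1 := mass_src hY hS hn (fun i => ¬ ∃ j, Mv κ L α j i)
  have h2 := mass_tgt hY hS hn (fun i => ¬ ∃ j, Mv κ L α j i)
  have h3 : ∑ b ∈ Y.filter (fun b => ¬ ∃ a ∈ Y, AR κ L α α a b), ms L Y b ≤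
      ∑ a ∈ Y.filter (fun a => ¬ ∃ j, Mv κ L α j a.1), ms L Y a +
      ∑ a ∈ Y.filter (fun a => ¬ ∃ j, Mv κ L α j a.2.1), ms L Y a := by
    rw [sum_filter, sum_filter, sum_filter, ← sum_add_distrib]
    refine sum_le_sum fun b hb => ?_
    have h0 := ms_nonneg L Y b
    by_cases c1 : ∃ j, Mv κ L α j b.1
    · by_cases c2 : ∃ j, Mv κ L α j b.2.1
      · obtain ⟨i, hi⟩ := c1
        obtain ⟨j, hj⟩ := c2
        obtain ⟨a, ha, -, -, hab⟩ := ar_surj hY hS hn hw' hα2 hα2 hb hi hj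
        rw [if_neg (not_not.2 ⟨a, ha, hab⟩)]
        split_ifs <;> linarith
      · rw [if_pos c2]
        split_ifs <;> linarith
    · rw [if_pos c1]
      split_ifs <;> linarith
  have h4 : (0 : ℝ) ≤ κ * Fintype.card V := by
    have := hn.κ0
    positivity
  linarith

end mass

end

end Pool.Agent.N303.KS
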