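import Pool.Agent.N303.KS.Dec

/-!
# Permutations of the pieces
-/

set_option autoImplicit false

namespace Pool.Agent.N303.KS

open Finset

noncomputable section

variable {V : Type} [Fintype V] {k : ℕ}

theorem majority {I : Type*} [Fintype I] {v : I → ℝ} {κ T : ℝ} (hκ : κ ≤ 1 / 100)
    (hT : 0 < T) (h : ∀ J : Finset I, ∑ j ∈ J, v j ≤ κ * T ∨ (1 - κ) * T ≤ ∑ j ∈ J, v j)
    (hall : T / 2 ≤ ∑ j, v j) : ∃ j, (1 - κ) * T ≤ v j := by
  classical
  set 𝒥 : Finset (Finset I) := univ.filter fun J => (1 - κ) * T ≤ ∑ j ∈ J, v j with h𝒥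
  have hu : univ ∈ 𝒥 := by
    rw [h𝒥, mem_filter]
    refine ⟨mem_univ _, (h univ).resolve_left fun h' => ?_⟩
    nlinarith
  obtain ⟨J, hJ, hmin⟩ := exists_min_image 𝒥 (fun A => A.card) ⟨_, hu⟩
  have hJ2 := (mem_filter.1 hJ).2
  have hne : J.Nonempty := by
    rw [nonempty_iff_ne_empty]
    intro h0
    rw [h0, sum_empty] at hJ2
    nlinarith
  obtain ⟨j, hj⟩ := hne
  have h1 : ∑ i ∈ J.erase j, v i ≤ κ * T := by
    refine (h (J.erase j)).resolve_right fun h' => ?_
    have h2 := hmin (J.erase j) (mem_filter.2 ⟨mem_univ _, h'⟩)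
    have h3 := card_erase_lt_of_mem hj
    omega
  have h2 : v j + ∑ i ∈ J.erase j, v i = ∑ i ∈ J, v i := add_sum_erase J v hj
  refine ⟨j, ?_⟩
  have h3 := h {j}
  rw [sum_singleton] at h3
  refine h3.resolve_left fun h4 => ?_
  nlinarith

/-- bound for the boundary of words -/
def WB (Λ : ℝ) (w : Fin k → FreeGroup (Fin k)) : Prop :=
  ∀ (s : Fin k) (A : Type) [Fintype A] (ρ : FreeGroup (Fin k) →* Equiv.Perm A) (p : A → Prop),
    (ct fun a => p a ∧ ¬ p (ρ (w s) a)) ≤ Λ * bd ρ p

/-- `α` intertwines the generators with the words `w`, outside `Z` -/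
def Tw (ρ : FreeGroup (Fin k) →* Equiv.Perm V) (Z : V → Prop) (w : Fin k → FreeGroup (Fin k))
    (α : Equiv.Perm V) : Prop :=
  ∀ s x, ¬ Z x → ρ (FreeGroup.of s) (α x) = α (ρ (w s) x)

/-- the overlap of two pieces -/
def ov (L : V → Option V) (α : Equiv.Perm V) (i j : V) : ℝ :=
  ct fun x => L x = some i ∧ L (α x) = some j

/-- `α` maps the piece `i` almost to the piece `j` -/
structure Mv (κ : ℝ) (L : V → Option V) (α : Equiv.Perm V) (i j : V) : Prop where
  pos : 0 < sz L i
  le1 : (1 - κ) * sz L i ≤ ov L α i j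
  le2 : (1 - κ) * sz L j ≤ ov L α i j

theorem ov_inv (L : V → Option V) (α : Equiv.Perm V) (i j : V) : ov L α⁻¹ j i = ov L α i j := by
  unfold ov
  rw [← ct_perm (fun x => L x = some j ∧ L (α⁻¹ x) = some i) α]
  refine ct_congr fun x => ?_
  rw [show α⁻¹ (α x) = x from α.symm_apply_apply x]
  exact and_comm

theorem ov_le1 (L : V → Option V) (α : Equiv.Perm V) (i j : V) : ov L α i j ≤ sz L i :=
  ct_mono fun _ h => h.1

theorem ov_le2 (L : V → Option V) (α : Equiv.Perm V) (i j : V) : ov L α i j ≤ sz L j := by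
  rw [← ov_inv]
  exact ov_le1 L α⁻¹ j i

theorem ov_sum_le (L : V → Option V) (α : Equiv.Perm V) (i : V) (J : Finset V) :
    ∑ j ∈ J, ov L α i j ≤ sz L i := by
  classical
  have h : sz L i = ∑ o, ct fun x => L x = some i ∧ L (α x) = o := ct_fiber _ _
  rw [h]
  have h2 : ∑ j ∈ J, ov L α i j = ∑ o ∈ J.map Function.Embedding.some,
      ct fun x => L x = some i ∧ L (α x) = o := by
    rw [sum_map]
    rfl
  rw [h2]
  exact sum_le_sum_of_subset_of_nonneg (subset_univ _) fun _ _ _ => ct_nonneg _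

theorem ov_sum_le2 (L : V → Option V) (α : Equiv.Perm V) (j : V) (J : Finset V) :
    ∑ i ∈ J, ov L α i j ≤ sz L j := by
  have := ov_sum_le L α⁻¹ j J
  simpa only [ov_inv] using this

theorem Mv.inv {κ : ℝ} {L : V → Option V} {α : Equiv.Perm V} {i j : V} (hκ : κ ≤ 1 / 100)
    (h : Mv κ L α i j) : Mv κ L α⁻¹ j i := by
  have h1 := h.le1
  have h2 := ov_le2 L α i j
  have h3 := h.pos
  refine ⟨by nlinarith, ?_, ?_⟩
  · rw [ov_inv]; exact h.le2
  · rw [ov_inv]; exact h.le1

theorem Mv.uniq {κ : ℝ} {L : V → Option V} {α : Equiv.Perm V} {i j j' : V} (hκ : κ ≤ 1 / 100)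
    (h : Mv κ L α i j) (h' : Mv κ L α i j') : j = j' := by
  classical
  by_contra hne
  have h1 := ov_sum_le L α i {j, j'}
  rw [sum_pair hne] at h1
  have h2 := h.le1
  have h3 := h'.le1
  have h4 := h.pos
  nlinarith

theorem Mv.inj {κ : ℝ} {L : V → Option V} {α : Equiv.Perm V} {i i' j : V} (hκ : κ ≤ 1 / 100)
    (h : Mv κ L α i j) (h' : Mv κ L α i' j) : i = i' :=
  (h.inv hκ).uniq hκ (h'.inv hκ)

theorem Mv.one {κ : ℝ} {L : V → Option V} {i : V} (hκ : 0 ≤ κ) (h : 0 < sz L i) :
    Mv κ L 1 i i := by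
  have h1 : ov L 1 i i = sz L i := ct_congr fun x => by
    show L x = some i ∧ L x = some i ↔ _
    exact and_self_iff
  refine ⟨h, ?_, ?_⟩ <;> rw [h1] <;> nlinarith

theorem sum_sz (L : V → Option V) : ∑ i, sz L i = Fintype.card V - ct fun x => L x = none := by
  classical
  have h := ct_fiber (fun _ : V => True) L
  rw [ct_univ, Fintype.sum_option] at h
  have h1 : (ct fun x => True ∧ L x = none) = ct fun x => L x = none := ct_congr fun x => by simp
  have h2 : ∀ i, (ct fun x => True ∧ L x = some i) = sz L i := fun i => ct_congr fun x => by simp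
  simp only [h1, h2] at h
  linarith

/-- first half of the moves lemma: the image of most pieces is mostly in one piece -/
theorem moves1 {ρ : FreeGroup (Fin k) →* Equiv.Perm V} {Z : V → Prop} {κ τ τ₁ : ℝ}
    {L : V → Option V} (hS : Sys ρ Z κ τ τ₁ L) (hκ : 0 < κ) (hκ1 : κ ≤ 1 / 100) (hτ : 0 < τ)
    (hZ : ct Z ≤ τ₁ * Fintype.card V) {Λ : ℝ} (hΛ : 0 ≤ Λ) {w : Fin k → FreeGroup (Fin k)}
    (hw : WB Λ w) (hnum : τ₁ * (1 + k * (1 + Λ)) ≤ κ * τ) (hτ₁ : 0 ≤ τ₁) {α : Equiv.Perm V}
    (hα : Tw ρ Z w α⁻¹) (p : V → Prop) [DecidablePred p]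
    (hp : ∀ i, p i → ¬ ∃ j, 0 < sz L i ∧ (1 - κ) * sz L i ≤ ov L α i j) :
    ∑ i ∈ univ.filter p, sz L i ≤ 3 * κ * Fintype.card V := by
  classical
  set n : ℝ := (Fintype.card V : ℝ) with hn
  have hn0 : 0 ≤ n := Nat.cast_nonneg _
  have hszn : ∑ i, sz L i ≤ n := by
    rw [sum_sz]
    have := ct_nonneg fun x => L x = none
    linarith
  set B : V → V → ℝ := fun i j => bd ρ fun x => L x = some i ∧ L (α x) = some j with hB
  set v1 : V → ℝ := fun i => ∑ j, B i j with hv1
  set v2 : V → ℝ := fun i => ct fun x => L x = some i ∧ L (α x) = none with hv2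
  -- the total boundary
  have hsum1 : ∑ i, v1 i ≤ κ * τ * n := by
    have h1 : ∑ i, v1 i = ∑ s : Fin k, ∑ i, ∑ j, ct fun x =>
        (L x = some i ∧ L (α x) = some j) ∧ ¬ (L (ρ (FreeGroup.of s) x) = some i ∧
          L (α (ρ (FreeGroup.of s) x)) = some j) := by
      rw [hv1, hB]
      simp only [bd]
      have : ∀ i : V, (∑ j, ∑ s : Fin k, ct fun x =>
        (L x = some i ∧ L (α x) = some j) ∧ ¬ (L (ρ (FreeGroup.of s) x) = some i ∧
          L (α (ρ (FreeGroup.of s) x)) = some j)) = ∑ s : Fin k, ∑ j, ct fun x =>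
        (L x = some i ∧ L (α x) = some j) ∧ ¬ (L (ρ (FreeGroup.of s) x) = some i ∧
          L (α (ρ (FreeGroup.of s) x)) = some j) := fun i => sum_comm
      simp only [this]
      exact sum_comm
    have h2 : ∀ s : Fin k, (∑ i, ∑ j, ct fun x =>
        (L x = some i ∧ L (α x) = some j) ∧ ¬ (L (ρ (FreeGroup.of s) x) = some i ∧
          L (α (ρ (FreeGroup.of s) x)) = some j)) ≤
        (∑ i, ct fun x => L x = some i ∧ ¬ L (ρ (FreeGroup.of s) x) = some i) +
        (ct Z + ∑ j, Λ * bd ρ fun x => L x = some j) := by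
      intro s
      have h3 : (∑ i, ∑ j, ct fun x =>
        (L x = some i ∧ L (α x) = some j) ∧ ¬ (L (ρ (FreeGroup.of s) x) = some i ∧
          L (α (ρ (FreeGroup.of s) x)) = some j)) ≤ (∑ i, ∑ j, ct fun x =>
          (L x = some i ∧ ¬ L (ρ (FreeGroup.of s) x) = some i) ∧ L (α x) = some j) +
          ∑ i, ∑ j, ct fun x => (L (α x) = some j ∧ ¬ L (α (ρ (FreeGroup.of s) x)) = some j) ∧
            L x = some i := by
        rw [← sum_add_distrib]
        refine sum_le_sum fun i _ => ?_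
        rw [← sum_add_distrib]
        refine sum_le_sum fun j _ => ct_le_add fun x hx => ?_
        by_cases h : L (ρ (FreeGroup.of s) x) = some i
        · exact Or.inr ⟨⟨hx.1.2, fun h' => hx.2 ⟨h, h'⟩⟩, hx.1.1⟩
        · exact Or.inl ⟨⟨hx.1.1, h⟩, hx.1.2⟩
      have h4 : ∀ (q : V → Prop) (f : V → Option V), (∑ j, ct fun x => q x ∧ f x = some j) ≤
          ct q := by
        intro q f
        rw [ct_fiber q f, Fintype.sum_option]
        have := ct_nonneg fun x => q x ∧ f x = none
        linarith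
      have h5 : (∑ i, ∑ j, ct fun x =>
          (L x = some i ∧ ¬ L (ρ (FreeGroup.of s) x) = some i) ∧ L (α x) = some j) ≤
          ∑ i, ct fun x => L x = some i ∧ ¬ L (ρ (FreeGroup.of s) x) = some i :=
        sum_le_sum fun i _ => h4 _ _
      have h6 : (∑ i, ∑ j, ct fun x => (L (α x) = some j ∧
          ¬ L (α (ρ (FreeGroup.of s) x)) = some j) ∧ L x = some i) ≤
          ∑ j, ct fun x => L (α x) = some j ∧ ¬ L (α (ρ (FreeGroup.of s) x)) = some j := by
        rw [sum_comm]
        exact sum_le_sum fun j _ => h4 _ _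
      have h7 : (∑ j, ct fun x => L (α x) = some j ∧ ¬ L (α (ρ (FreeGroup.of s) x)) = some j) ≤
          ct Z + ∑ j, Λ * bd ρ fun x => L x = some j := by
        have h8 : ∀ j, (ct fun x => L (α x) = some j ∧
            ¬ L (α (ρ (FreeGroup.of s) x)) = some j) ≤
            (ct fun y => Z y ∧ L y = some j) + Λ * bd ρ fun x => L x = some j := by
          intro j
          have h9 : (ct fun x => L (α x) = some j ∧ ¬ L (α (ρ (FreeGroup.of s) x)) = some j) =
              ct fun y => L y = some j ∧ ¬ L (α (ρ (FreeGroup.of s) (α⁻¹ y))) = some j := by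
            rw [← ct_perm (fun y => L y = some j ∧
              ¬ L (α (ρ (FreeGroup.of s) (α⁻¹ y))) = some j) α]
            refine ct_congr fun x => ?_
            rw [show α⁻¹ (α x) = x from α.symm_apply_apply x]
          rw [h9]
          refine (ct_le_add (q := fun y => Z y ∧ L y = some j)
            (r := fun y => L y = some j ∧ ¬ L (ρ (w s) y) = some j) ?_).trans
            (add_le_add le_rfl (hw s V ρ fun y => L y = some j))
          rintro y ⟨h10, h11⟩
          by_cases hz : Z y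
          · exact Or.inl ⟨hz, h10⟩
          · refine Or.inr ⟨h10, fun h12 => h11 ?_⟩
            rw [hα s y hz, show α (α⁻¹ (ρ (w s) y)) = ρ (w s) y from α.apply_symm_apply _]
            exact h12
        refine (sum_le_sum fun j _ => h8 j).trans ?_
        rw [sum_add_distrib]
        exact add_le_add (h4 _ _) le_rfl
      linarith
    have h10 : ∑ i, bd ρ (fun x => L x = some i) ≤ τ₁ * n := by
      refine (sum_le_sum fun i _ => hS.bdy i).trans ?_
      rw [← mul_sum]
      exact mul_le_mul_of_nonneg_left hszn hτ₁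
    have h11 : ∑ s : Fin k, ∑ i, (ct fun x => L x = some i ∧
        ¬ L (ρ (FreeGroup.of s) x) = some i) = ∑ i, bd ρ (fun x => L x = some i) := by
      unfold bd
      rw [sum_comm]
    rw [h1]
    refine (sum_le_sum fun s _ => h2 s).trans ?_
    rw [sum_add_distrib, h11, sum_const, card_univ, Fintype.card_fin, nsmul_eq_mul, ← mul_sum]
    have h12 : Λ * ∑ i, bd ρ (fun x => L x = some i) ≤ Λ * (τ₁ * n) :=
      mul_le_mul_of_nonneg_left h10 hΛ
    have h13 : (k : ℝ) * (ct Z + Λ * ∑ i, bd ρ (fun x => L x = some i)) ≤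
        k * (τ₁ * n + Λ * (τ₁ * n)) :=
      mul_le_mul_of_nonneg_left (by linarith) (Nat.cast_nonneg _)
    have h14 := mul_le_mul_of_nonneg_right hnum hn0
    calc _ ≤ τ₁ * n + k * (τ₁ * n + Λ * (τ₁ * n)) := by linarith
      _ = τ₁ * (1 + k * (1 + Λ)) * n := by ring
      _ ≤ _ := h14
  have hsum2 : ∑ i, v2 i ≤ κ * n := by
    refine le_trans ?_ hS.cov
    rw [← ct_perm (fun x => L x = none) α, ct_fiber (fun x => L (α x) = none) L,
      Fintype.sum_option]
    have h1 := ct_nonneg fun x => L (α x) = none ∧ L x = none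
    have h2 : ∑ i, v2 i = ∑ i, ct fun x => L (α x) = none ∧ L x = some i :=
      sum_congr rfl fun i _ => ct_congr fun x => and_comm
    linarith
  -- Markov
  have m1 := markov (w := sz L) hτ (fun i => sum_nonneg fun j _ => bd_nonneg ρ _) hsum1
    (fun i => τ * sz L i < v1 i) (fun i h => h.le)
  have m2 := markov (w := sz L) (show (0 : ℝ) < 1 / 2 by norm_num)
    (fun i => ct_nonneg _) hsum2 (fun i => 1 / 2 * sz L i < v2 i) (fun i h => h.le)
  have m3 : ∑ i ∈ univ.filter p, sz L i ≤ ∑ i ∈ univ.filter (fun i => τ * sz L i < v1 i), sz L i +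
      ∑ i ∈ univ.filter (fun i => 1 / 2 * sz L i < v2 i), sz L i := by
    rw [sum_filter, sum_filter, sum_filter, ← sum_add_distrib]
    refine sum_le_sum fun i _ => ?_
    have hi := sz_nonneg L i
    by_cases hpi : p i
    · rw [if_pos hpi]
      by_cases b1 : τ * sz L i < v1 i
      · rw [if_pos b1]
        split_ifs <;> linarith
      · by_cases b2 : 1 / 2 * sz L i < v2 i
        · rw [if_pos b2, if_neg b1]
          linarith
        · rw [if_neg b1, if_neg b2, add_zero]
          by_contra hpos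
          rw [not_le] at hpos
          rw [not_lt] at b1 b2
          apply hp i hpi
          have hall : sz L i / 2 ≤ ∑ j, ov L α i j := by
            have h1 : sz L i = ∑ o, ct fun x => L x = some i ∧ L (α x) = o := ct_fiber _ _
            rw [Fintype.sum_option] at h1
            have h2 : ∑ j, ov L α i j = ∑ j, ct fun x => L x = some i ∧ L (α x) = some j := rfl
            rw [h2]
            have h3 : (ct fun x => L x = some i ∧ L (α x) = none) = v2 i := rfl
            linarith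
          obtain ⟨j, hj⟩ := majority hκ1 hpos (v := fun j => ov L α i j) (fun J => by
            have h1 : ∑ j ∈ J, ov L α i j = ct fun x => L x = some i ∧ ∃ j ∈ J, L (α x) = some j := by
              rw [ct_fiber (fun x => L x = some i ∧ ∃ j ∈ J, L (α x) = some j) (fun x => L (α x)),
                Fintype.sum_option]
              rw [show (ct fun x => (L x = some i ∧ ∃ j ∈ J, L (α x) = some j) ∧ L (α x) = none) = 0
                from ct_false (by
                  rintro x ⟨⟨-, j, -, h⟩, h'⟩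
                  rw [h] at h'
                  simp at h'), zero_add]
              rw [← sum_subset (subset_univ J)]
              · refine sum_congr rfl fun j hj => ct_congr fun x => ?_
                constructor
                · rintro ⟨h1, h2⟩
                  exact ⟨⟨h1, j, hj, h2⟩, h2⟩
                · rintro ⟨⟨h1, -⟩, h2⟩
                  exact ⟨h1, h2⟩
              · intro j _ hj
                apply ct_false
                rintro x ⟨⟨-, j', hj', h⟩, h'⟩
                rw [h, Option.some.injEq] at h'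
                exact hj (h' ▸ hj')
            rw [h1]
            apply hS.irr i _ fun x hx => hx.1
            refine le_trans ?_ b1
            refine le_trans (b := ∑ j ∈ J, B i j) ?_
              (sum_le_sum_of_subset_of_nonneg (subset_univ _) fun j _ _ => bd_nonneg ρ _)
            rw [hB]
            simp only [bd]
            rw [sum_comm]
            refine sum_le_sum fun s _ => ct_le_sum J _ ?_
            rintro x ⟨⟨h1, j, hj, h2⟩, h3⟩
            exact ⟨j, hj, ⟨h1, h2⟩, fun h4 => h3 ⟨h4.1, j, hj, h4.2⟩⟩) hall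
          exact ⟨j, hpos, hj⟩
    · rw [if_neg hpi]
      have : 0 ≤ (if τ * sz L i < v1 i then sz L i else 0) := by split_ifs <;> linarith
      have : 0 ≤ (if 1 / 2 * sz L i < v2 i then sz L i else 0) := by split_ifs <;> linarith
      linarith
  have m4 : κ * τ * n / τ = κ * n := by field_simp
  rw [m4] at m1
  linarith

/-- **The moves lemma.** -/
theorem moves {ρ : FreeGroup (Fin k) →* Equiv.Perm V} {Z : V → Prop} {κ τ τ₁ : ℝ}
    {L : V → Option V} (hS : Sys ρ Z κ τ τ₁ L) (hκ : 0 < κ) (hκ1 : κ ≤ 1 / 100) (hτ : 0 < τ)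
    (hZ : ct Z ≤ τ₁ * Fintype.card V) {Λ : ℝ} (hΛ : 0 ≤ Λ) {w w' : Fin k → FreeGroup (Fin k)}
    (hw : WB Λ w) (hw' : WB Λ w') (hnum : τ₁ * (1 + k * (1 + Λ)) ≤ κ * τ) (hτ₁ : 0 ≤ τ₁)
    {α : Equiv.Perm V} (hα : Tw ρ Z w α) (hα' : Tw ρ Z w' α⁻¹) (p : V → Prop) [DecidablePred p]
    (hp : ∀ i, p i → ¬ ∃ j, Mv κ L α i j) :
    ∑ i ∈ univ.filter p, sz L i ≤ 8 * κ * Fintype.card V := by
  classical
  set n : ℝ := (Fintype.card V : ℝ) with hn
  have hn0 : 0 ≤ n := Nat.cast_nonneg _
  set S₁ : V → Prop := fun i => ∃ j, 0 < sz L i ∧ (1 - κ) * sz L i ≤ ov L α i j with hS₁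
  set S₂ : V → Prop := fun j => ∃ i, 0 < sz L j ∧ (1 - κ) * sz L j ≤ ov L α i j with hS₂
  have a1 : ∑ i ∈ univ.filter (fun i => ¬ S₁ i), sz L i ≤ 3 * κ * n :=
    moves1 hS hκ hκ1 hτ hZ hΛ hw' hnum hτ₁ hα' _ fun i hi => hi
  have a2 : ∑ i ∈ univ.filter (fun i => ¬ S₂ i), sz L i ≤ 3 * κ * n := by
    refine moves1 (α := α⁻¹) hS hκ hκ1 hτ hZ hΛ hw hnum hτ₁ (by rw [inv_inv]; exact hα) _
      fun i hi => ?_
    rintro ⟨j, hj1, hj2⟩
    rw [ov_inv] at hj2
    exact hi ⟨j, hj1, hj2⟩
  -- choose the majority piece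
  set f : V → V := fun i => if h : S₁ i then h.choose else i with hf
  have hf1 : ∀ i, S₁ i → 0 < sz L i ∧ (1 - κ) * sz L i ≤ ov L α i (f i) := by
    intro i hi
    rw [hf]
    simp only [dif_pos hi]
    exact hi.choose_spec
  have h1 : ∑ i ∈ univ.filter p, sz L i ≤ ∑ i ∈ univ.filter (fun i => ¬ S₁ i), sz L i +
      ∑ i ∈ univ.filter (fun i => p i ∧ S₁ i), sz L i := by
    rw [sum_filter, sum_filter, sum_filter, ← sum_add_distrib]
    refine sum_le_sum fun i _ => ?_
    have hi := sz_nonneg L i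
    by_cases b1 : p i <;> by_cases b2 : S₁ i <;> simp [b1, b2, hi]
  have h2 : (1 - κ) * ∑ i ∈ univ.filter (fun i => p i ∧ S₁ i), sz L i ≤
      ∑ i ∈ univ.filter (fun i => p i ∧ S₁ i), ov L α i (f i) := by
    rw [mul_sum]
    exact sum_le_sum fun i hi => (hf1 i (mem_filter.1 hi).2.2).2
  have h3 : ∑ i ∈ univ.filter (fun i => p i ∧ S₁ i), ov L α i (f i) =
      ∑ j, ∑ i ∈ (univ.filter (fun i => p i ∧ S₁ i)).filter (fun i => f i = j), ov L α i j := by
    rw [← sum_fiberwise (univ.filter (fun i => p i ∧ S₁ i)) f]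
    refine sum_congr rfl fun j _ => sum_congr rfl fun i hi => ?_
    rw [(mem_filter.1 hi).2]
  have h4 : ∀ j, ∑ i ∈ (univ.filter (fun i => p i ∧ S₁ i)).filter (fun i => f i = j),
      ov L α i j ≤ (if ¬ S₂ j then sz L j else 0) + κ * sz L j := by
    intro j
    have hj := sz_nonneg L j
    by_cases hj2 : S₂ j
    · rw [if_neg (not_not.2 hj2), zero_add]
      obtain ⟨i', hi'1, hi'2⟩ := hj2
      have h5 : i' ∉ (univ.filter (fun i => p i ∧ S₁ i)).filter (fun i => f i = j) := by
        intro h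
        rw [mem_filter, mem_filter] at h
        obtain ⟨⟨-, h6, h7⟩, h8⟩ := h
        have h9 := hf1 i' h7
        rw [h8] at h9
        exact hp i' h6 ⟨j, h9.1, h9.2, hi'2⟩
      have h6 := ov_sum_le2 L α j
        (insert i' ((univ.filter (fun i => p i ∧ S₁ i)).filter (fun i => f i = j)))
      rw [sum_insert h5] at h6
      linarith
    · rw [if_pos hj2]
      have := ov_sum_le2 L α j ((univ.filter (fun i => p i ∧ S₁ i)).filter (fun i => f i = j))
      nlinarith
  have h5 : ∑ i ∈ univ.filter (fun i => p i ∧ S₁ i), ov L α i (f i) ≤ 4 * κ * n := by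
    rw [h3]
    refine (sum_le_sum fun j _ => h4 j).trans ?_
    rw [sum_add_distrib, ← sum_filter, ← mul_sum]
    have h6 : ∑ i, sz L i ≤ n := by
      rw [sum_sz]
      have := ct_nonneg fun x => L x = none
      linarith
    have h7 := mul_le_mul_of_nonneg_left h6 hκ.le
    linarith
  have h6 : 0 ≤ ∑ i ∈ univ.filter (fun i => p i ∧ S₁ i), sz L i :=
    sum_nonneg fun i _ => sz_nonneg L i
  have h7 : 0 ≤ κ * n := by positivity
  nlinarith

end

end Pool.Agent.N303.KS
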