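import Pool.Agent.N303.KS.Smo

/-!
# Improvement of almost invariant sets for Kazhdan groups
-/

set_option autoImplicit false

namespace Pool.Agent.N303.KS

open Finset Pool.Agent.W661.RC

noncomputable section

theorem cnt_thr (M : ℕ) (hM : 0 < M) (a b : ℝ) :
    (((range M).filter fun m : ℕ => b ≤ 1 / 2 + ((m : ℝ) + 1) / (4 * M) ∧
      1 / 2 + ((m : ℝ) + 1) / (4 * M) < a).card : ℝ) ≤ 4 * M * |a - b| + 1 := by
  set S := (range M).filter fun m : ℕ => b ≤ 1 / 2 + ((m : ℝ) + 1) / (4 * M) ∧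
      1 / 2 + ((m : ℝ) + 1) / (4 * M) < a with hS
  have hM0 : (0 : ℝ) < M := by exact_mod_cast hM
  rcases S.eq_empty_or_nonempty with h | h
  · rw [h, card_empty]
    have := abs_nonneg (a - b)
    push_cast
    positivity
  · have h1 := (mem_filter.1 (S.min'_mem h)).2.1
    have h2 := (mem_filter.1 (S.max'_mem h)).2.2
    have h3 : S ⊆ Finset.Icc (S.min' h) (S.max' h) := fun m hm =>
      mem_Icc.2 ⟨S.min'_le m hm, S.le_max' m hm⟩
    have h4 := card_le_card h3
    rw [Nat.card_Icc] at h4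
    have h5 : S.min' h ≤ S.max' h := S.min'_le_max' h
    have h6 : (S.card : ℝ) ≤ (S.max' h : ℝ) + 1 - (S.min' h : ℝ) := by
      have h7 : S.card + S.min' h ≤ S.max' h + 1 := by omega
      have h8 : ((S.card + S.min' h : ℕ) : ℝ) ≤ ((S.max' h + 1 : ℕ) : ℝ) := by exact_mod_cast h7
      push_cast at h8
      linarith
    have h9 : ((S.max' h : ℝ) + 1) / (4 * M) - ((S.min' h : ℝ) + 1) / (4 * M) < |a - b| :=
      lt_of_lt_of_le (by linarith) (le_abs_self (a - b))
    have h10 : ((S.max' h : ℝ) + 1) / (4 * M) - ((S.min' h : ℝ) + 1) / (4 * M) =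
        ((S.max' h : ℝ) - S.min' h) / (4 * M) := by ring
    rw [h10, div_lt_iff₀ (by positivity)] at h9
    linarith

variable {Y : Type} [Fintype Y] {k : ℕ}

/-- a good level set -/
theorem exists_level (ρ : FreeGroup (Fin k) →* Equiv.Perm Y) {f : Y → ℝ} (hf : ∀ y, 0 ≤ f y)
    {a e : ℝ} (he : 0 < e) (hsum : ∑ y, f y ≤ a)
    (hen : ∑ s, ∑ y, (f y - f (ρ (FreeGroup.of s) y)) ^ 2 ≤ e ^ 2 * a) :
    ∃ t : ℝ, 1 / 2 < t ∧ t ≤ 3 / 4 ∧ bd ρ (fun y => t < f y) ≤ (10 * k + 10) * e * a := by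
  classical
  have ha : 0 ≤ a := (sum_nonneg fun y _ => hf y).trans hsum
  obtain ⟨M, hM⟩ := exists_nat_gt (1 / e)
  have hM0' : (0 : ℝ) < M := lt_trans (by positivity) hM
  have hM0 : 0 < M := by exact_mod_cast hM0'
  set t : ℕ → ℝ := fun m => 1 / 2 + ((m : ℝ) + 1) / (4 * M) with ht
  -- the set where `f` is large
  set F : Finset Y := univ.filter fun y => 1 / 2 < f y with hF
  have hFc : (F.card : ℝ) ≤ 2 * a := by
    have h1 : (F.card : ℝ) * (1 / 2) ≤ ∑ y ∈ F, f y := by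
      rw [← nsmul_eq_mul]
      exact card_nsmul_le_sum _ _ _ fun y hy => (mem_filter.1 hy).2.le
    have h2 : ∑ y ∈ F, f y ≤ ∑ y, f y :=
      sum_le_sum_of_subset_of_nonneg (filter_subset _ _) fun y _ _ => hf y
    linarith
  have hF0 : (0 : ℝ) ≤ F.card := Nat.cast_nonneg _
  -- sum over the thresholds
  have h1 : ∀ s : Fin k, ∑ m ∈ range M, ct (fun y => t m < f y ∧ ¬ t m < f (ρ (FreeGroup.of s) y)) ≤
      ∑ y ∈ F, (4 * M * |f y - f (ρ (FreeGroup.of s) y)| + 1) := by
    intro s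
    have h2 : ∀ m, ct (fun y => t m < f y ∧ ¬ t m < f (ρ (FreeGroup.of s) y)) =
        ∑ y, if (t m < f y ∧ ¬ t m < f (ρ (FreeGroup.of s) y)) then (1 : ℝ) else 0 := fun m =>
      ct_eq_sum _
    simp only [h2]
    rw [sum_comm, ← sum_filter_add_sum_filter_not univ (fun y => 1 / 2 < f y)]
    have h3 : ∑ y ∈ univ.filter (fun y => ¬ 1 / 2 < f y), ∑ m ∈ range M,
        (if (t m < f y ∧ ¬ t m < f (ρ (FreeGroup.of s) y)) then (1 : ℝ) else 0) = 0 := by
      refine sum_eq_zero fun y hy => sum_eq_zero fun m _ => ?_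
      rw [if_neg]
      rintro ⟨h4, -⟩
      apply (mem_filter.1 hy).2
      refine lt_of_le_of_lt ?_ h4
      rw [ht]
      have : (0 : ℝ) ≤ ((m : ℝ) + 1) / (4 * M) := by positivity
      simp only
      linarith
    rw [h3, add_zero]
    refine sum_le_sum fun y _ => ?_
    rw [sum_boole]
    refine le_trans ?_ (cnt_thr M hM0 (f y) (f (ρ (FreeGroup.of s) y)))
    have : ((range M).filter fun m => t m < f y ∧ ¬ t m < f (ρ (FreeGroup.of s) y)).card ≤
        ((range M).filter fun m : ℕ => f (ρ (FreeGroup.of s) y) ≤ 1 / 2 + ((m : ℝ) + 1) / (4 * M) ∧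
      1 / 2 + ((m : ℝ) + 1) / (4 * M) < f y).card := by
      refine card_le_card fun m hm => ?_
      rw [mem_filter] at hm ⊢
      exact ⟨hm.1, not_lt.1 hm.2.2, hm.2.1⟩
    exact_mod_cast this
  have h5 : ∀ s : Fin k, ∑ y ∈ F, (4 * M * |f y - f (ρ (FreeGroup.of s) y)| + 1) ≤
      2 * M * (2 * e * a + (∑ y, (f y - f (ρ (FreeGroup.of s) y)) ^ 2) / e) + 2 * a := by
    intro s
    have h6 : ∀ y, |f y - f (ρ (FreeGroup.of s) y)| ≤
        (e + (f y - f (ρ (FreeGroup.of s) y)) ^ 2 / e) / 2 := by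
      intro y
      set d := f y - f (ρ (FreeGroup.of s) y)
      have h7 : 0 ≤ (|d| - e) ^ 2 / e := by positivity
      have h8 : (|d| - e) ^ 2 / e = d ^ 2 / e - 2 * |d| + e := by
        field_simp
        rw [sub_sq, sq_abs]
        ring
      rw [h8] at h7
      linarith
    have h9 : ∑ y ∈ F, (4 * M * |f y - f (ρ (FreeGroup.of s) y)| + 1) ≤
        ∑ y ∈ F, (4 * M * ((e + (f y - f (ρ (FreeGroup.of s) y)) ^ 2 / e) / 2) + 1) := by
      refine sum_le_sum fun y _ => ?_
      have := mul_le_mul_of_nonneg_left (h6 y) (show (0 : ℝ) ≤ 4 * M by positivity)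
      linarith
    have h10 : ∑ y ∈ F, (4 * M * ((e + (f y - f (ρ (FreeGroup.of s) y)) ^ 2 / e) / 2) + 1) =
        2 * M * (e * F.card + (∑ y ∈ F, (f y - f (ρ (FreeGroup.of s) y)) ^ 2) / e) + F.card := by
      rw [sum_add_distrib, sum_const, nsmul_eq_mul, mul_one, ← mul_sum, ← sum_div,
        sum_add_distrib, sum_const, nsmul_eq_mul, ← sum_div]
      ring
    have h11 : ∑ y ∈ F, (f y - f (ρ (FreeGroup.of s) y)) ^ 2 ≤
        ∑ y, (f y - f (ρ (FreeGroup.of s) y)) ^ 2 :=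
      sum_le_sum_of_subset_of_nonneg (filter_subset _ _) fun y _ _ => sq_nonneg _
    have h12 : (∑ y ∈ F, (f y - f (ρ (FreeGroup.of s) y)) ^ 2) / e ≤
        (∑ y, (f y - f (ρ (FreeGroup.of s) y)) ^ 2) / e :=
      div_le_div_of_nonneg_right h11 he.le
    have h13 : e * (F.card : ℝ) ≤ e * (2 * a) := mul_le_mul_of_nonneg_left hFc he.le
    have h14 := mul_le_mul_of_nonneg_left (add_le_add h13 h12) (show (0 : ℝ) ≤ 2 * M by positivity)
    rw [h10] at h9
    linarith
  -- average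
  have h15 : ∑ m ∈ range M, bd ρ (fun y => t m < f y) ≤ M * ((10 * k + 10) * e * a) := by
    have h16 : ∑ m ∈ range M, bd ρ (fun y => t m < f y) =
        ∑ s : Fin k, ∑ m ∈ range M,
          ct (fun y => t m < f y ∧ ¬ t m < f (ρ (FreeGroup.of s) y)) := by
      unfold bd
      rw [sum_comm]
    rw [h16]
    refine le_trans (sum_le_sum fun s _ => (h1 s).trans (h5 s)) ?_
    rw [sum_add_distrib, ← mul_sum, sum_add_distrib, ← sum_div, sum_const, sum_const, card_univ,
      Fintype.card_fin, nsmul_eq_mul, nsmul_eq_mul]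
    have h17 : (∑ s : Fin k, ∑ y, (f y - f (ρ (FreeGroup.of s) y)) ^ 2) / e ≤ e * a := by
      rw [div_le_iff₀ he]
      calc _ ≤ e ^ 2 * a := hen
        _ = _ := by ring
    have h18 : 1 < e * M := by
      rw [div_lt_iff₀ he] at hM
      linarith
    have h19 : 2 * (M : ℝ) * (k * (2 * e * a) + (∑ s : Fin k, ∑ y,
        (f y - f (ρ (FreeGroup.of s) y)) ^ 2) / e) ≤ 2 * M * (k * (2 * e * a) + e * a) :=
      mul_le_mul_of_nonneg_left (by linarith) (by positivity)
    have h20 : (k : ℝ) * (2 * a) ≤ (k * (2 * a)) * (e * M) := by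
      have : (0 : ℝ) ≤ k * (2 * a) := by positivity
      nlinarith
    have h21 : (0 : ℝ) ≤ M * e * a := by positivity
    have h22 : (0 : ℝ) ≤ k * (M * e * a) := by positivity
    nlinarith
  have h23 : ∃ m ∈ range M, bd ρ (fun y => t m < f y) ≤ (10 * k + 10) * e * a := by
    by_contra hcon
    push Not at hcon
    have h24 : ∑ m ∈ range M, (10 * k + 10) * e * a < ∑ m ∈ range M, bd ρ (fun y => t m < f y) :=
      sum_lt_sum_of_nonempty ⟨0, mem_range.2 hM0⟩ fun m hm => hcon m hm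
    rw [sum_const, card_range, nsmul_eq_mul] at h24
    linarith
  obtain ⟨m, hm, hb⟩ := h23
  refine ⟨t m, ?_, ?_, hb⟩
  · rw [ht]
    have : (0 : ℝ) < ((m : ℝ) + 1) / (4 * M) := by positivity
    simp only
    linarith
  · rw [ht]
    have h25 : (m : ℝ) + 1 ≤ M := by
      have := mem_range.1 hm
      exact_mod_cast this
    have h26 : ((m : ℝ) + 1) / (4 * M) ≤ 1 / 4 := by
      rw [div_le_iff₀ (by positivity)]
      linarith
    simp only
    linarith

open Classical in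
/-- the indicator function -/
def ind (p : Y → Prop) (y : Y) : ℝ := if p y then 1 else 0

theorem ind_sum (p : Y → Prop) : ∑ y, ind p y = ct p := by
  classical
  rw [ct_eq_sum]
  rfl

theorem ind_sq_sum (p : Y → Prop) : ∑ y, ind p y ^ 2 = ct p := by
  classical
  rw [ct_eq_sum]
  refine sum_congr rfl fun y _ => ?_
  rw [ind]
  split_ifs <;> norm_num

theorem ind_diff (p q : Y → Prop) :
    ∑ y, (ind p y - ind q y) ^ 2 = (ct fun y => p y ∧ ¬ q y) + ct fun y => q y ∧ ¬ p y := by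
  classical
  rw [ct_eq_sum, ct_eq_sum, ← sum_add_distrib]
  refine sum_congr rfl fun y _ => ?_
  rw [ind, ind]
  by_cases h1 : p y <;> by_cases h2 : q y <;> simp [h1, h2]

/-- **Improvement of almost invariant sets.** -/
theorem improve {G : Type} [Group G] (γ : FreeGroup (Fin k) →* G) (hT : HasT G)
    (hγ : Function.Surjective γ) :
    ∃ C : ℝ, 1 ≤ C ∧ ∀ η : ℝ, 0 < η → ∃ δ : ℝ, 0 < δ ∧
      ∃ R : Finset (FreeGroup (Fin k)), (∀ w ∈ R, γ w = 1) ∧
        ∀ (Y : Type) [Fintype Y] (ρ : FreeGroup (Fin k) →* Equiv.Perm Y) (p : Y → Prop),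
          (∀ w ∈ R, ct (fun y => p y ∧ ρ w y ≠ y) ≤ δ * ct p) →
          ∃ q : Y → Prop, bd ρ q ≤ η * ct p ∧
            (ct fun y => p y ∧ ¬ q y) + (ct fun y => q y ∧ ¬ p y) ≤ C * bd ρ p + η * ct p ∧
            ∀ (X : Type) [Fintype X] (ρX : FreeGroup (Fin k) →* Equiv.Perm X) (π : Y → X),
              (∀ w y, π (ρ w y) = ρX w (π y)) →
              (∀ y y', p y → p y' → π y = π y' → y = y') →
              ∀ y y', q y → q y' → π y = π y' → y = y' := by
  classical
  obtain ⟨C, hC, h⟩ := smoothing γ hT hγ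
  refine ⟨32 * C, by linarith, fun η hη => ?_⟩
  set e : ℝ := min η 1 / (16 * (k + 1)) with he
  have he0 : 0 < e := by positivity
  have hk : (0 : ℝ) ≤ k := Nat.cast_nonneg k
  have he1 : 16 * (k + 1) * e ≤ η := by
    rw [he]
    have : 16 * ((k : ℝ) + 1) * (min η 1 / (16 * (k + 1))) = min η 1 := by field_simp
    rw [this]; exact min_le_left _ _
  have he2 : 16 * (k + 1) * e ≤ 1 := by
    rw [he]
    have : 16 * ((k : ℝ) + 1) * (min η 1 / (16 * (k + 1))) = min η 1 := by field_simp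
    rw [this]; exact min_le_right _ _
  have he3 : 16 * e ≤ 1 := by nlinarith
  have he4 : 16 * e ≤ η := by nlinarith
  obtain ⟨K, δ, hδ, R, hR, hall⟩ := h (e ^ 2) (by positivity)
  refine ⟨δ ^ 2 / 2, by positivity, R, hR, fun Y _ ρ p hp => ?_⟩
  have hsq : ∀ (f g : Y → ℝ), ‖emb f - emb g‖ ^ 2 = ∑ y, (f y - g y) ^ 2 := by
    intro f g
    rw [emb_sub, norm_emb]
  have hn : ‖emb (ind p)‖ ^ 2 = ct p := by rw [norm_emb, ind_sq_sum]
  have hsmo : Smo (uRep ρ) K C (e ^ 2) (emb (ind p)) := by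
    apply hall
    intro w hw
    have h1 : ‖(uRep ρ w : EuclideanSpace ℂ Y →L[ℂ] EuclideanSpace ℂ Y) (emb (ind p)) -
        emb (ind p)‖ ^ 2 ≤ (δ * ‖emb (ind p)‖) ^ 2 := by
      rw [uRep_emb, hsq, mul_pow, hn]
      have h2 : (fun y => ind p ((ρ w)⁻¹ y)) = ind fun y => p ((ρ w)⁻¹ y) := rfl
      have h3 : ∑ y, (ind p ((ρ w)⁻¹ y) - ind p y) ^ 2 =
          (ct fun y => p ((ρ w)⁻¹ y) ∧ ¬ p y) + ct fun y => p y ∧ ¬ p ((ρ w)⁻¹ y) :=
        ind_diff (fun y => p ((ρ w)⁻¹ y)) p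
      rw [h3]
      have h4 : (ct fun y => p ((ρ w)⁻¹ y) ∧ ¬ p y) = ct fun y => p y ∧ ¬ p (ρ w y) := by
        rw [← ct_perm (fun y => p ((ρ w)⁻¹ y) ∧ ¬ p y) (ρ w)]
        refine ct_congr fun y => ?_
        rw [show (ρ w)⁻¹ (ρ w y) = y from (ρ w).symm_apply_apply y]
      have h5 := ct_inv_bd (ρ w) p
      have h6 : (ct fun y => p y ∧ ¬ p (ρ w y)) ≤ ct fun y => p y ∧ ρ w y ≠ y :=
        ct_mono fun y hy => ⟨hy.1, fun h => hy.2 (by rw [h]; exact hy.1)⟩
      have h7 := hp w hw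
      rw [h4, h5]
      linarith
    exact (abs_le_of_sq_le_sq' h1 (by positivity)).2
  obtain ⟨hs1, hs2⟩ := hsmo
  rw [Mk_pow_emb, hn] at hs1 hs2
  set f : Y → ℝ := (Av ρ)^[K] (ind p) with hf
  have hind0 : ∀ y, 0 ≤ ind p y := by
    intro y
    rw [ind]
    split_ifs <;> norm_num
  have hiter : ∀ (P : (Y → ℝ) → Prop), P (ind p) → (∀ f, P f → P (Av ρ f)) → P f := by
    intro P h0 h1
    exact Function.Iterate.rec P h0 h1 K
  have hf0 : ∀ y, 0 ≤ f y := hiter (fun f => ∀ y, 0 ≤ f y) hind0 fun f hf y => Av_nonneg ρ hf y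
  have hfs : ∑ y, f y = ct p :=
    hiter (fun f => ∑ y, f y = ct p) (ind_sum p) fun f hf => by rw [Av_sum, hf]
  have hen : ∑ s, ∑ y, (f y - f (ρ (FreeGroup.of s) y)) ^ 2 ≤ e ^ 2 * ct p := by
    refine le_trans (le_of_eq ?_) hs1
    refine sum_congr rfl fun s _ => ?_
    rw [uRep_emb, hsq, ← Equiv.sum_comp (ρ (FreeGroup.of s))
      (fun y => (f ((ρ (FreeGroup.of s))⁻¹ y) - f y) ^ 2)]
    refine sum_congr rfl fun y _ => ?_
    rw [show (ρ (FreeGroup.of s))⁻¹ (ρ (FreeGroup.of s) y) = y from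
      (ρ (FreeGroup.of s)).symm_apply_apply y]
  have hdist : ∑ y, (f y - ind p y) ^ 2 ≤ C * (2 * bd ρ p) + e ^ 2 * ct p := by
    rw [hsq] at hs2
    refine le_trans hs2 ?_
    have h1 : ∑ s : Fin k, ‖(uRep ρ (FreeGroup.of s) : EuclideanSpace ℂ Y →L[ℂ] EuclideanSpace ℂ Y)
        (emb (ind p)) - emb (ind p)‖ ^ 2 = 2 * bd ρ p := by
      rw [bd, mul_sum]
      refine sum_congr rfl fun s _ => ?_
      rw [uRep_emb, hsq]
      have h3 : ∑ y, (ind p ((ρ (FreeGroup.of s))⁻¹ y) - ind p y) ^ 2 =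
          (ct fun y => p ((ρ (FreeGroup.of s))⁻¹ y) ∧ ¬ p y) +
            ct fun y => p y ∧ ¬ p ((ρ (FreeGroup.of s))⁻¹ y) :=
        ind_diff (fun y => p ((ρ (FreeGroup.of s))⁻¹ y)) p
      have h4 : (ct fun y => p ((ρ (FreeGroup.of s))⁻¹ y) ∧ ¬ p y) =
          ct fun y => p y ∧ ¬ p (ρ (FreeGroup.of s) y) := by
        rw [← ct_perm (fun y => p ((ρ (FreeGroup.of s))⁻¹ y) ∧ ¬ p y) (ρ (FreeGroup.of s))]
        refine ct_congr fun y => ?_
        rw [show (ρ (FreeGroup.of s))⁻¹ (ρ (FreeGroup.of s) y) = y from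
          (ρ (FreeGroup.of s)).symm_apply_apply y]
      have h5 := ct_inv_bd (ρ (FreeGroup.of s)) p
      rw [h3, h4, h5]
      ring
    rw [h1]
  obtain ⟨t, ht1, ht2, hb⟩ := exists_level ρ hf0 he0 hfs.le hen
  have hp0 : 0 ≤ ct p := ct_nonneg p
  refine ⟨fun y => t < f y, ?_, ?_, ?_⟩
  · refine hb.trans (mul_le_mul_of_nonneg_right ?_ hp0)
    nlinarith
  · have h1 : (ct fun y => p y ∧ ¬ t < f y) + (ct fun y => t < f y ∧ ¬ p y) ≤
        16 * ∑ y, (f y - ind p y) ^ 2 := by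
      rw [ct_eq_sum, ct_eq_sum, ← sum_add_distrib, mul_sum]
      refine sum_le_sum fun y _ => ?_
      rw [ind]
      by_cases h2 : p y <;> by_cases h3 : t < f y
      · simp only [h2, h3, not_true_eq_false, and_false, if_false, add_zero, if_true]
        positivity
      · simp only [h2, h3, not_false_eq_true, and_true, if_true, false_and, if_false, add_zero]
        rw [not_lt] at h3
        have h4 : 1 / 4 ≤ 1 - f y := by linarith
        nlinarith
      · simp only [h2, h3, not_true_eq_false, false_and, if_false, zero_add, not_false_eq_true,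
          and_true, if_true, sub_zero]
        nlinarith
      · simp only [h2, h3, false_and, if_false, add_zero]
        positivity
    have h2 : (e ^ 2) * ct p ≤ η / 16 * ct p := by
      refine mul_le_mul_of_nonneg_right ?_ hp0
      nlinarith
    linarith
  · intro X _ ρX π hπ hinj
    have hfib : ∀ x, ∑ y, (if π y = x then f y else 0) ≤ 1 := by
      refine hiter (fun f => ∀ x, ∑ y, (if π y = x then f y else 0) ≤ 1) ?_
        fun f hf x => Av_fib hπ hf x
      intro x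
      by_cases hx : ∃ y, p y ∧ π y = x
      · obtain ⟨y0, hy0, hy0x⟩ := hx
        rw [Finset.sum_eq_single y0]
        · rw [if_pos hy0x, ind]
          split_ifs <;> norm_num
        · intro y _ hy
          by_cases hyx : π y = x
          · rw [if_pos hyx, ind, if_neg]
            intro hpy
            exact hy (hinj y y0 hpy hy0 (hyx.trans hy0x.symm))
          · rw [if_neg hyx]
        · intro h; exact absurd (mem_univ _) h
      · rw [sum_eq_zero]
        · norm_num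
        · intro y _
          by_cases hyx : π y = x
          · rw [if_pos hyx, ind, if_neg]
            intro hpy
            exact hx ⟨y, hpy, hyx⟩
          · rw [if_neg hyx]
    intro y y' hy hy' hyy
    by_contra hne
    have h1 := hfib (π y)
    have h2 : f y + f y' ≤ ∑ z, (if π z = π y then f z else 0) := by
      have h3 : ∑ z ∈ ({y, y'} : Finset Y), (if π z = π y then f z else 0) = f y + f y' := by
        rw [sum_pair hne, if_pos rfl, if_pos hyy.symm]
      rw [← h3]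
      refine sum_le_sum_of_subset_of_nonneg (subset_univ _) fun z _ _ => ?_
      split_ifs
      · exact hf0 z
      · exact le_rfl
    linarith

end

end Pool.Agent.N303.KS
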