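import Pool.Agent.N303.KS.Cnt
import Pool.Agent.W440.RC.PTA
import Pool.Agent.W681.RC.PTB
import Pool.Agent.W103.RC.PTC

/-!
# Smoothing of almost invariant sets for Kazhdan groups
-/

set_option autoImplicit false

namespace Pool.Agent.N303.KS

open Finset Pool.Agent.W661.RC

noncomputable section

/-- the smoothing estimate for almost representations -/
theorem smoothing {G : Type} [Group G] {k : ℕ} (γ : FreeGroup (Fin k) →* G) (hT : HasT G)
    (hγ : Function.Surjective γ) :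
    ∃ C : ℝ, 1 ≤ C ∧ ∀ η : ℝ, 0 < η → ∃ K : ℕ, ∃ δ : ℝ, 0 < δ ∧
      ∃ R : Finset (FreeGroup (Fin k)), (∀ w ∈ R, γ w = 1) ∧
        ∀ (H : Type) [NormedAddCommGroup H] [InnerProductSpace ℂ H] [CompleteSpace H]
          (ρ : FreeGroup (Fin k) →* unitary (H →L[ℂ] H)) (ξ : H),
          (∀ w ∈ R, ‖(ρ w : H →L[ℂ] H) ξ - ξ‖ ≤ δ * ‖ξ‖) → Smo ρ K C η ξ := by
  have hptb : PtbP := Pool.Agent.W681.RC.main W440.RC.main
  have hptc : PtcP := Pool.Agent.W103.RC.main
  obtain ⟨C, hC, h⟩ := hptb G k γ hT hγ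
  refine ⟨C, hC, fun η hη => ?_⟩
  obtain ⟨K, hK⟩ := h (η / 2) (by positivity)
  obtain ⟨δ, hδ, R, hR, hall⟩ := hptc k γ.ker K C (η / 2) (by positivity)
    (fun H _ _ _ ρ hρ ξ => hK H ρ (fun w hw => hρ w (MonoidHom.mem_ker.2 hw)) ξ)
  refine ⟨K, δ, hδ, R, fun w hw => MonoidHom.mem_ker.1 (hR w hw), fun H _ _ _ ρ ξ hξ => ?_⟩
  have := hall H ρ ξ hξ
  rwa [show 2 * (η / 2) = η by ring] at this

section rep

variable {Y : Type} [Fintype Y] {k : ℕ}

/-- the permutation representation -/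
def pRep (Y : Type) [Fintype Y] :
    Equiv.Perm Y →* (EuclideanSpace ℂ Y ≃ₗᵢ[ℂ] EuclideanSpace ℂ Y) where
  toFun σ := LinearIsometryEquiv.piLpCongrLeft 2 ℂ ℂ σ
  map_one' := by
    ext v y
    rfl
  map_mul' σ τ := by
    ext v y
    rfl

/-- the unitary representation given by an action -/
def uRep (ρ : FreeGroup (Fin k) →* Equiv.Perm Y) :
    FreeGroup (Fin k) →* unitary (EuclideanSpace ℂ Y →L[ℂ] EuclideanSpace ℂ Y) :=
  (Unitary.linearIsometryEquiv.symm.toMonoidHom).comp ((pRep Y).comp ρ)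

theorem uRep_apply (ρ : FreeGroup (Fin k) →* Equiv.Perm Y) (w : FreeGroup (Fin k))
    (v : EuclideanSpace ℂ Y) (y : Y) :
    ((uRep ρ w : EuclideanSpace ℂ Y →L[ℂ] EuclideanSpace ℂ Y) v) y = v ((ρ w)⁻¹ y) := rfl

/-- real functions as vectors -/
def emb (f : Y → ℝ) : EuclideanSpace ℂ Y := WithLp.toLp 2 fun y => (f y : ℂ)

theorem emb_apply (f : Y → ℝ) (y : Y) : emb f y = (f y : ℂ) := rfl

theorem norm_emb (f : Y → ℝ) : ‖emb f‖ ^ 2 = ∑ y, f y ^ 2 := by
  rw [EuclideanSpace.norm_sq_eq]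
  refine sum_congr rfl fun y _ => ?_
  rw [emb_apply, Complex.norm_real, Real.norm_eq_abs, sq_abs]

theorem emb_sub (f g : Y → ℝ) : emb f - emb g = emb (fun y => f y - g y) := by
  ext y
  rw [PiLp.sub_apply, emb_apply, emb_apply, emb_apply]
  push_cast
  rfl

theorem uRep_emb (ρ : FreeGroup (Fin k) →* Equiv.Perm Y) (w : FreeGroup (Fin k)) (f : Y → ℝ) :
    (uRep ρ w : EuclideanSpace ℂ Y →L[ℂ] EuclideanSpace ℂ Y) (emb f) =
      emb fun y => f ((ρ w)⁻¹ y) := by
  ext y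
  rw [uRep_apply, emb_apply, emb_apply]

/-- the lazy average -/
def Av (ρ : FreeGroup (Fin k) →* Equiv.Perm Y) (f : Y → ℝ) (y : Y) : ℝ :=
  1 / 2 * f y + 1 / (2 * (2 * k + 1)) *
    (f y + ∑ s, (f ((ρ (FreeGroup.of s))⁻¹ y) + f (ρ (FreeGroup.of s) y)))

theorem Mk_emb (ρ : FreeGroup (Fin k) →* Equiv.Perm Y) (f : Y → ℝ) :
    Mk (uRep ρ) (emb f) = emb (Av ρ f) := by
  ext y
  rw [emb_apply, Av, Mk]
  simp only [ContinuousLinearMap.add_apply, ContinuousLinearMap.smul_apply,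
    ContinuousLinearMap.one_apply, ContinuousLinearMap.sum_apply, PiLp.add_apply,
    PiLp.smul_apply, WithLp.ofLp_sum, Finset.sum_apply, uRep_apply, emb_apply, smul_eq_mul]
  have h : ∀ s : Fin k, (ρ (FreeGroup.of s)⁻¹)⁻¹ y = ρ (FreeGroup.of s) y := by
    intro s
    rw [map_inv, inv_inv]
  simp only [h]
  push_cast
  ring

theorem Mk_pow_emb (ρ : FreeGroup (Fin k) →* Equiv.Perm Y) (K : ℕ) (f : Y → ℝ) :
    (Mk (uRep ρ) ^ K) (emb f) = emb ((Av ρ)^[K] f) := by
  induction K generalizing f with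
  | zero => simp
  | succ K ih =>
    rw [pow_succ, Function.iterate_succ, Function.comp, ← ih, ← Mk_emb]
    rfl

theorem Av_nonneg (ρ : FreeGroup (Fin k) →* Equiv.Perm Y) {f : Y → ℝ} (hf : ∀ y, 0 ≤ f y) (y : Y) :
    0 ≤ Av ρ f y := by
  unfold Av
  have h1 : 0 ≤ ∑ s, (f ((ρ (FreeGroup.of s))⁻¹ y) + f (ρ (FreeGroup.of s) y)) :=
    sum_nonneg fun s _ => add_nonneg (hf _) (hf _)
  have h2 := hf y
  positivity

/-- fibre sums at most one are preserved -/
theorem Av_fib {X : Type} [DecidableEq X] {ρ : FreeGroup (Fin k) →* Equiv.Perm Y}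
    {ρX : FreeGroup (Fin k) →* Equiv.Perm X} {π : Y → X}
    (hπ : ∀ w y, π (ρ w y) = ρX w (π y)) {f : Y → ℝ} {c : ℝ}
    (hf : ∀ x, ∑ y, (if π y = x then f y else 0) ≤ c) (x : X) :
    ∑ y, (if π y = x then Av ρ f y else 0) ≤ c := by
  have h1 : ∀ s : Fin k, ∑ y, (if π y = x then f ((ρ (FreeGroup.of s))⁻¹ y) else 0) ≤ c := by
    intro s
    refine le_trans (le_of_eq ?_) (hf ((ρX (FreeGroup.of s))⁻¹ x))
    rw [← Equiv.sum_comp (ρ (FreeGroup.of s))]
    refine sum_congr rfl fun y _ => ?_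
    rw [hπ, show (ρ (FreeGroup.of s))⁻¹ (ρ (FreeGroup.of s) y) = y from
      (ρ (FreeGroup.of s)).symm_apply_apply y]
    by_cases h : ρX (FreeGroup.of s) (π y) = x
    · rw [if_pos h, if_pos]
      rw [← h]; exact ((ρX (FreeGroup.of s)).symm_apply_apply _).symm
    · rw [if_neg h, if_neg]
      intro h'
      apply h
      rw [h']; exact (ρX (FreeGroup.of s)).apply_symm_apply x
  have h2 : ∀ s : Fin k, ∑ y, (if π y = x then f (ρ (FreeGroup.of s) y) else 0) ≤ c := by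
    intro s
    refine le_trans (le_of_eq ?_) (hf (ρX (FreeGroup.of s) x))
    symm
    rw [← Equiv.sum_comp (ρ (FreeGroup.of s))]
    refine sum_congr rfl fun y _ => ?_
    rw [hπ]
    by_cases h : π y = x
    · rw [if_pos h, if_pos (by rw [h])]
    · rw [if_neg h, if_neg fun h' => h ((ρX (FreeGroup.of s)).injective h')]
  have h3 : ∑ y, (if π y = x then Av ρ f y else 0) =
      1 / 2 * ∑ y, (if π y = x then f y else 0) + 1 / (2 * (2 * k + 1)) *
        (∑ y, (if π y = x then f y else 0) +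
          ∑ s : Fin k, (∑ y, (if π y = x then f ((ρ (FreeGroup.of s))⁻¹ y) else 0) +
            ∑ y, (if π y = x then f (ρ (FreeGroup.of s) y) else 0))) := by
    have h4 : ∑ s : Fin k, (∑ y, (if π y = x then f ((ρ (FreeGroup.of s))⁻¹ y) else 0) +
            ∑ y, (if π y = x then f (ρ (FreeGroup.of s) y) else 0)) =
        ∑ y, ∑ s : Fin k, (if π y = x then
          (f ((ρ (FreeGroup.of s))⁻¹ y) + f (ρ (FreeGroup.of s) y)) else 0) := by
      rw [sum_comm]
      refine sum_congr rfl fun s _ => ?_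
      rw [← sum_add_distrib]
      refine sum_congr rfl fun y _ => ?_
      split_ifs <;> simp
    rw [h4, ← sum_add_distrib, mul_sum, mul_sum, ← sum_add_distrib]
    refine sum_congr rfl fun y _ => ?_
    by_cases h : π y = x
    · simp only [if_pos h]
      rfl
    · simp only [if_neg h]
      simp
  rw [h3]
  have h5 : ∑ s : Fin k, (∑ y, (if π y = x then f ((ρ (FreeGroup.of s))⁻¹ y) else 0) +
            ∑ y, (if π y = x then f (ρ (FreeGroup.of s) y) else 0)) ≤ ∑ s : Fin k, (c + c) :=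
    sum_le_sum fun s _ => add_le_add (h1 s) (h2 s)
  rw [sum_const, card_univ, Fintype.card_fin, nsmul_eq_mul] at h5
  have h6 := hf x
  have h7 : (0 : ℝ) < 2 * k + 1 := by positivity
  have h8 : 1 / (2 * (2 * (k : ℝ) + 1)) * (∑ y, (if π y = x then f y else 0) +
          ∑ s : Fin k, (∑ y, (if π y = x then f ((ρ (FreeGroup.of s))⁻¹ y) else 0) +
            ∑ y, (if π y = x then f (ρ (FreeGroup.of s) y) else 0))) ≤
      1 / (2 * (2 * (k : ℝ) + 1)) * ((2 * k + 1) * c) :=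
    mul_le_mul_of_nonneg_left (by linarith) (by positivity)
  have h9 : 1 / (2 * (2 * (k : ℝ) + 1)) * ((2 * k + 1) * c) = c / 2 := by
    field_simp
  linarith

theorem Av_sum (ρ : FreeGroup (Fin k) →* Equiv.Perm Y) (f : Y → ℝ) :
    ∑ y, Av ρ f y = ∑ y, f y := by
  unfold Av
  rw [sum_add_distrib, ← mul_sum, ← mul_sum, sum_add_distrib, sum_comm]
  have h1 : ∀ s : Fin k, ∑ y, (f ((ρ (FreeGroup.of s))⁻¹ y) + f (ρ (FreeGroup.of s) y)) =
      2 * ∑ y, f y := by
    intro s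
    rw [sum_add_distrib, Equiv.sum_comp (ρ (FreeGroup.of s)) f,
      Equiv.sum_comp (ρ (FreeGroup.of s))⁻¹ f]
    ring
  simp only [h1, sum_const, card_univ, Fintype.card_fin, nsmul_eq_mul]
  have h7 : (0 : ℝ) < 2 * k + 1 := by positivity
  field_simp
  ring

end rep

end

end Pool.Agent.N303.KS
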