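import Pool.Agent.N303.KS.Arr

/-!
# Transport and composition of arrows
-/

set_option autoImplicit false

namespace Pool.Agent.N303.KS

open Finset

noncomputable section

variable {V : Type} [Fintype V] {k : ℕ}

/-- the conditions on the constants -/
structure Num (k : ℕ) (κ τ τ₁ Λ : ℝ) : Prop where
  κ0 : 0 < κ
  κ1 : κ ≤ 1 / 100
  τ0 : 0 < τ
  τκ : τ ≤ κ
  τ₁0 : 0 ≤ τ₁
  Λ1 : 1 ≤ Λ
  num : τ₁ * ((k + 2) * (1 + Λ)) ≤ κ * τ

theorem Num.a1 {κ τ τ₁ Λ : ℝ} (h : Num k κ τ τ₁ Λ) : τ₁ * (1 + Λ) ≤ κ * τ := by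
  have h1 := h.num
  have h2 : 0 ≤ τ₁ * (1 + Λ) := mul_nonneg h.τ₁0 (by linarith [h.Λ1])
  have h3 : (0 : ℝ) ≤ k := Nat.cast_nonneg _
  nlinarith

theorem Num.a2 {κ τ τ₁ Λ : ℝ} (h : Num k κ τ τ₁ Λ) : τ₁ * (1 + k * (1 + Λ)) ≤ κ * τ := by
  have h1 := h.num
  have h2 : 0 ≤ τ₁ * (1 + Λ) := mul_nonneg h.τ₁0 (by linarith [h.Λ1])
  have h3 : 0 ≤ τ₁ * Λ := mul_nonneg h.τ₁0 (by linarith [h.Λ1])
  nlinarith

theorem Num.a3 {κ τ τ₁ Λ : ℝ} (h : Num k κ τ τ₁ Λ) : τ₁ ≤ τ / 200 := by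
  have h1 := h.a1
  have h2 := h.κ1
  have h3 := h.τ0
  have h4 : τ₁ * 2 ≤ τ₁ * (1 + Λ) := mul_le_mul_of_nonneg_left (by linarith [h.Λ1]) h.τ₁0
  nlinarith

theorem Num.a4 {κ τ τ₁ Λ : ℝ} (h : Num k κ τ τ₁ Λ) : Λ * τ₁ + τ₁ ≤ 1 / 10000 := by
  have h1 := h.a1
  have h2 := h.κ1
  have h3 := h.τ0
  have h4 := h.τκ
  have h5 := h.κ0
  nlinarith

/-- product permutation -/
def pp (α β : Equiv.Perm V) : Equiv.Perm (V × V) := Equiv.prodCongr α β

theorem pp_apply (α β : Equiv.Perm V) (p : V × V) : pp α β p = (α p.1, β p.2) := rfl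

theorem pp_inv (α β : Equiv.Perm V) : (pp α β)⁻¹ = pp α⁻¹ β⁻¹ := rfl

/-- transport of a set of pairs -/
def tra (L : V → Option V) (α β : Equiv.Perm V) (i j : V) (R : V × V → Prop) (q : V × V) : Prop :=
  R (α⁻¹ q.1, β⁻¹ q.2) ∧ L q.1 = some i ∧ L q.2 = some j

theorem ct_tra (L : V → Option V) (α β : Equiv.Perm V) (i j : V) (R : V × V → Prop) :
    ct (tra L α β i j R) = ct fun p => R p ∧ L (α p.1) = some i ∧ L (β p.2) = some j := by
  rw [← ct_perm (tra L α β i j R) (pp α β)]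
  refine ct_congr fun p => ?_
  unfold tra
  rw [pp_apply]
  simp only
  rw [show α⁻¹ (α p.1) = p.1 from α.symm_apply_apply _,
    show β⁻¹ (β p.2) = p.2 from β.symm_apply_apply _]

theorem mv_size {κ : ℝ} {L : V → Option V} {α : Equiv.Perm V} {i i' : V} (h : Mv κ L α i i') :
    (1 - κ) * sz L i ≤ sz L i' ∧ (1 - κ) * sz L i' ≤ sz L i :=
  ⟨h.le1.trans (ov_le2 L α i i'), h.le2.trans (ov_le1 L α i i')⟩

theorem mv_out {κ : ℝ} {L : V → Option V} {α : Equiv.Perm V} {i i' : V} (h : Mv κ L α i i') :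
    (ct fun x => L x = some i ∧ ¬ L (α x) = some i') ≤ κ * sz L i := by
  have h1 := ct_split (fun x => L x = some i) (fun x => L (α x) = some i')
  have h2 := h.le1
  unfold ov at h2
  unfold sz at *
  linarith

/-- **Transport of arrows.** -/
theorem tra_arw {ρ : FreeGroup (Fin k) →* Equiv.Perm V} {Z : V → Prop} {κ τ τ₁ Λ : ℝ}
    {L : V → Option V} (hS : Sys ρ Z κ τ τ₁ L) (hn : Num k κ τ τ₁ Λ)
    {w : Fin k → FreeGroup (Fin k)} (hw : WB Λ w) {α β : Equiv.Perm V} (hα : Tw ρ Z w α)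
    (hβ : Tw ρ Z w β) {i j i' j' : V} (hi : Mv κ L α i i') (hj : Mv κ L β j j')
    {R : V × V → Prop} (hR : Arw ρ L τ₁ i j R) :
    Arw ρ L (τ / 4) i' j' (tra L α β i' j' R) := by
  have hκ := hn.κ0
  have hκ1 := hn.κ1
  have hτ := hn.τ0
  have hτ₁ := hn.τ₁0
  obtain ⟨s1, s2⟩ := arw_size hκ1 hτ.le (by linarith [hn.a3]) hS.irr hR
  have l1 := hR.le_src
  have l2 := hR.le_tgt
  obtain ⟨m1, m2⟩ := mv_size hi
  obtain ⟨m3, m4⟩ := mv_size hj
  have o1 := mv_out hi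
  have o2 := mv_out hj
  have z1 := sz_nonneg L i
  have z2 := sz_nonneg L j
  have z3 := sz_nonneg L i'
  have z4 := sz_nonneg L j'
  have p1 := hR.pos.1
  -- all sizes are comparable
  have c1 : sz L i ≤ 102 / 100 * sz L i' := by nlinarith
  have c2 : sz L j ≤ 102 / 100 * sz L i := by nlinarith
  have c3 : sz L j' ≤ 102 / 100 * sz L j := by nlinarith
  have c4 : sz L i' ≤ 102 / 100 * sz L i := by nlinarith
  have hct : ct R ≤ ct (tra L α β i' j' R) + κ * sz L i + κ * sz L j := by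
    rw [ct_tra]
    have h1 : ct R ≤ (ct fun p => R p ∧ L (α p.1) = some i' ∧ L (β p.2) = some j') +
        ct fun p => (R p ∧ ¬ L (α p.1) = some i') ∨ (R p ∧ ¬ L (β p.2) = some j') :=
      ct_le_add fun p hp => by
        by_cases h : L (α p.1) = some i'
        · by_cases h' : L (β p.2) = some j'
          · exact Or.inl ⟨hp, h, h'⟩
          · exact Or.inr (Or.inr ⟨hp, h'⟩)
        · exact Or.inr (Or.inl ⟨hp, h⟩)
    have h2 : (ct fun p => (R p ∧ ¬ L (α p.1) = some i') ∨ (R p ∧ ¬ L (β p.2) = some j')) ≤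
        (ct fun p => R p ∧ ¬ L (α p.1) = some i') + ct fun p => R p ∧ ¬ L (β p.2) = some j' :=
      ct_le_add fun p hp => hp
    have h3 : (ct fun p => R p ∧ ¬ L (α p.1) = some i') ≤
        ct fun x => L x = some i ∧ ¬ L (α x) = some i' :=
      ct_le_of_inj Prod.fst (fun p hp => ⟨hR.src p hp.1, hp.2⟩)
        fun p q hp hq h => hR.inj1 p q hp.1 hq.1 h
    have h4 : (ct fun p => R p ∧ ¬ L (β p.2) = some j') ≤
        ct fun x => L x = some j ∧ ¬ L (β x) = some j' :=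
      ct_le_of_inj Prod.snd (fun p hp => ⟨hR.tgt p hp.1, hp.2⟩)
        fun p q hp hq h => hR.inj2 p q hp.1 hq.1 h
    linarith
  refine ⟨fun q hq => hq.2.1, fun q hq => hq.2.2, ?_, ?_, ?_, ?_, ?_⟩
  · rintro ⟨x, y⟩ ⟨x', y'⟩ h h' hxx
    simp only at hxx
    subst hxx
    have h1 := hR.inj1 _ _ h.1 h'.1 rfl
    have h2 := congrArg Prod.snd h1
    exact Prod.ext rfl ((β⁻¹).injective h2)
  · rintro ⟨x, y⟩ ⟨x', y'⟩ h h' hyy
    simp only at hyy
    subst hyy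
    have h1 := hR.inj2 _ _ h.1 h'.1 rfl
    have h2 := congrArg Prod.fst h1
    exact Prod.ext ((α⁻¹).injective h2) rfl
  · nlinarith
  · nlinarith
  · -- the boundary
    have hb : bd (pr ρ ρ) (tra L α β i' j' R) ≤ bd ρ (fun x => L x = some i') +
        bd ρ (fun x => L x = some j') + ∑ s : Fin k, ((ct fun x => L x = some i ∧ Z x) +
          (ct fun x => L x = some j ∧ Z x) + Λ * bd (pr ρ ρ) R) := by
      unfold bd
      rw [← sum_add_distrib, ← sum_add_distrib]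
      refine sum_le_sum fun s _ => ?_
      rw [← ct_perm _ (pp α β)]
      have h1 : (ct fun p => tra L α β i' j' R (pp α β p) ∧
          ¬ tra L α β i' j' R (pr ρ ρ (FreeGroup.of s) (pp α β p))) ≤
          (ct fun p => (R p ∧ L (α p.1) = some i' ∧ ¬ L (ρ (FreeGroup.of s) (α p.1)) = some i') ∨
            (R p ∧ L (β p.2) = some j' ∧ ¬ L (ρ (FreeGroup.of s) (β p.2)) = some j')) +
          ((ct fun p => (R p ∧ Z p.1) ∨ (R p ∧ Z p.2)) +
            ct fun p => R p ∧ ¬ R (pr ρ ρ (w s) p)) := by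
        refine (ct_le_add (q := fun p => (R p ∧ L (α p.1) = some i' ∧
            ¬ L (ρ (FreeGroup.of s) (α p.1)) = some i') ∨
            (R p ∧ L (β p.2) = some j' ∧ ¬ L (ρ (FreeGroup.of s) (β p.2)) = some j'))
          (r := fun p => ((R p ∧ Z p.1) ∨ (R p ∧ Z p.2)) ∨ (R p ∧ ¬ R (pr ρ ρ (w s) p)))
          ?_).trans (add_le_add le_rfl (ct_le_add fun p hp => hp))
        rintro p ⟨⟨h1, h2, h3⟩, h4⟩
        simp only [pp_apply] at h1 h2 h3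
        rw [show α⁻¹ (α p.1) = p.1 from α.symm_apply_apply _,
          show β⁻¹ (β p.2) = p.2 from β.symm_apply_apply _] at h1
        by_cases g1 : L (ρ (FreeGroup.of s) (α p.1)) = some i'
        · by_cases g2 : L (ρ (FreeGroup.of s) (β p.2)) = some j'
          · right
            by_cases g3 : Z p.1
            · exact Or.inl (Or.inl ⟨h1, g3⟩)
            · by_cases g4 : Z p.2
              · exact Or.inl (Or.inr ⟨h1, g4⟩)
              · refine Or.inr ⟨h1, fun g5 => h4 ⟨?_, g1, g2⟩⟩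
                show R (α⁻¹ (ρ (FreeGroup.of s) (α p.1)), β⁻¹ (ρ (FreeGroup.of s) (β p.2)))
                rw [hα s _ g3, hβ s _ g4,
                  show α⁻¹ (α (ρ (w s) p.1)) = ρ (w s) p.1 from α.symm_apply_apply _,
                  show β⁻¹ (β (ρ (w s) p.2)) = ρ (w s) p.2 from β.symm_apply_apply _]
                exact g5
          · exact Or.inl (Or.inr ⟨h1, h3, g2⟩)
        · exact Or.inl (Or.inl ⟨h1, h2, g1⟩)
      have h2 : (ct fun p => (R p ∧ L (α p.1) = some i' ∧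
            ¬ L (ρ (FreeGroup.of s) (α p.1)) = some i') ∨
            (R p ∧ L (β p.2) = some j' ∧ ¬ L (ρ (FreeGroup.of s) (β p.2)) = some j')) ≤
          (ct fun x => L x = some i' ∧ ¬ L (ρ (FreeGroup.of s) x) = some i') +
            ct fun x => L x = some j' ∧ ¬ L (ρ (FreeGroup.of s) x) = some j' := by
        refine (ct_le_add fun p hp => hp).trans (add_le_add ?_ ?_)
        · exact ct_le_of_inj (fun p => α p.1) (fun p hp => hp.2)
            fun p q hp hq h => hR.inj1 p q hp.1 hq.1 (α.injective h)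
        · exact ct_le_of_inj (fun p => β p.2) (fun p hp => hp.2)
            fun p q hp hq h => hR.inj2 p q hp.1 hq.1 (β.injective h)
      have h3 : (ct fun p => (R p ∧ Z p.1) ∨ (R p ∧ Z p.2)) ≤
          (ct fun x => L x = some i ∧ Z x) + ct fun x => L x = some j ∧ Z x := by
        refine (ct_le_add fun p hp => hp).trans (add_le_add ?_ ?_)
        · exact ct_le_of_inj Prod.fst (fun p hp => ⟨hR.src p hp.1, hp.2⟩)
            fun p q hp hq h => hR.inj1 p q hp.1 hq.1 h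
        · exact ct_le_of_inj Prod.snd (fun p hp => ⟨hR.tgt p hp.1, hp.2⟩)
            fun p q hp hq h => hR.inj2 p q hp.1 hq.1 h
      have h4 := hw s (V × V) (pr ρ ρ) R
      unfold bd at h4
      linarith
    rw [sum_const, card_univ, Fintype.card_fin, nsmul_eq_mul] at hb
    have b1 := hS.bdy i'
    have b2 := hS.bdy j'
    have b3 := hS.err i
    have b4 := hS.err j
    have b5 := hR.bdy
    have hk : (0 : ℝ) ≤ k := Nat.cast_nonneg _
    have hΛ : 0 ≤ Λ := by linarith [hn.Λ1]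
    have d1 : sz L j' ≤ 110 / 100 * sz L i' := by nlinarith
    have d2 : sz L i ≤ 110 / 100 * sz L i' := by nlinarith
    have d3 : sz L j ≤ 110 / 100 * sz L i' := by nlinarith
    have e1 : τ₁ * sz L j' ≤ τ₁ * (110 / 100 * sz L i') := mul_le_mul_of_nonneg_left d1 hτ₁
    have e2 : τ₁ * sz L i ≤ τ₁ * (110 / 100 * sz L i') := mul_le_mul_of_nonneg_left d2 hτ₁
    have e3 : τ₁ * sz L j ≤ τ₁ * (110 / 100 * sz L i') := mul_le_mul_of_nonneg_left d3 hτ₁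
    have e4 : Λ * bd (pr ρ ρ) R ≤ Λ * (τ₁ * (110 / 100 * sz L i')) :=
      mul_le_mul_of_nonneg_left (by linarith) hΛ
    have e5 : (k : ℝ) * ((ct fun x => L x = some i ∧ Z x) + (ct fun x => L x = some j ∧ Z x) +
        Λ * bd (pr ρ ρ) R) ≤ k * (τ₁ * (110 / 100 * sz L i') + τ₁ * (110 / 100 * sz L i') +
          Λ * (τ₁ * (110 / 100 * sz L i'))) :=
      mul_le_mul_of_nonneg_left (by linarith) hk
    have e6 : τ₁ * (1 + k * (1 + Λ)) * (22 / 10 * sz L i') ≤ κ * τ * (22 / 10 * sz L i') :=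
      mul_le_mul_of_nonneg_right hn.a2 (by positivity)
    have e7 : κ * τ * (22 / 10 * sz L i') ≤ 1 / 100 * τ * (22 / 10 * sz L i') := by
      refine mul_le_mul_of_nonneg_right ?_ (by positivity)
      exact mul_le_mul_of_nonneg_right hκ1 hτ.le
    have e8 : 0 ≤ τ₁ * sz L i' := by positivity
    have e9 : 0 ≤ k * (τ₁ * sz L i') := by positivity
    have e10 : 0 ≤ k * (Λ * (τ₁ * sz L i')) := by positivity
    have e11 : 0 ≤ τ * sz L i' := by positivity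
    have e12 : τ₁ * (1 + k * (1 + Λ)) * (22 / 10 * sz L i') = 22 / 10 * (τ₁ * sz L i') +
        22 / 10 * (k * (τ₁ * sz L i')) + 22 / 10 * (k * (Λ * (τ₁ * sz L i'))) := by ring
    have e13 : (k : ℝ) * (τ₁ * (110 / 100 * sz L i') + τ₁ * (110 / 100 * sz L i') +
          Λ * (τ₁ * (110 / 100 * sz L i'))) = 22 / 10 * (k * (τ₁ * sz L i')) +
          11 / 10 * (k * (Λ * (τ₁ * sz L i'))) := by ring
    linarith

/-- the relation that `α × β` maps the arrow `a` almost to the arrow `b` -/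
structure AR (κ : ℝ) (L : V → Option V) (α β : Equiv.Perm V) (a b : AD V) : Prop where
  m1 : Mv κ L α a.1 b.1
  m2 : Mv κ L β a.2.1 b.2.1
  cl : fl (pp α β) a.2.2 b.2.2 ≤ sz L a.1 / 20

section ar

variable {ρ : FreeGroup (Fin k) →* Equiv.Perm V} {Z : V → Prop} {κ τ τ₁ Λ : ℝ}
  {L : V → Option V} {Y : Finset (AD V)}

theorem Rep.size (hY : Rep ρ κ τ τ₁ L Y) (hS : Sys ρ Z κ τ τ₁ L) (hn : Num k κ τ τ₁ Λ) {a : AD V}
    (ha : a ∈ Y) : (1 - κ) * sz L a.1 ≤ ct a.2.2 ∧ (1 - κ) * sz L a.2.1 ≤ ct a.2.2 :=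
  arw_size hn.κ1 hn.τ0.le (by linarith [hn.a3, hn.τ0]) hS.irr (hY.arw a ha)

theorem ar_exists (hY : Rep ρ κ τ τ₁ L Y) (hS : Sys ρ Z κ τ τ₁ L) (hn : Num k κ τ τ₁ Λ)
    {w : Fin k → FreeGroup (Fin k)} (hw : WB Λ w) {α β : Equiv.Perm V} (hα : Tw ρ Z w α)
    (hβ : Tw ρ Z w β) {a : AD V} (ha : a ∈ Y) {i' j' : V} (hi : Mv κ L α a.1 i')
    (hj : Mv κ L β a.2.1 j') :
    ∃ b ∈ Y, b.1 = i' ∧ b.2.1 = j' ∧ AR κ L α β a b ∧
      fl (pp α β) a.2.2 b.2.2 ≤ sz L a.1 / 50 := by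
  obtain ⟨b, hb, hb1, hb2, hb3⟩ := hY.rep i' j' _ (tra_arw hS hn hw hα hβ hi hj (hY.arw a ha))
  have h1 : (ct fun p => tra L α β i' j' a.2.2 p ∧ b.2.2 p) ≤
      ct fun p => a.2.2 p ∧ b.2.2 (pp α β p) := by
    rw [← ct_perm _ (pp α β)]
    refine ct_mono fun p hp => ⟨?_, hp.2⟩
    have h2 := hp.1.1
    simp only [pp_apply] at h2
    rwa [show α⁻¹ (α p.1) = p.1 from α.symm_apply_apply _,
      show β⁻¹ (β p.2) = p.2 from β.symm_apply_apply _] at h2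
  have h2 := ct_split a.2.2 (fun p => b.2.2 (pp α β p))
  have h3 := (hY.arw a ha).le_src
  have h4 := (mv_size hi).1
  have hκ := hn.κ0
  have hκ1 := hn.κ1
  have z1 := sz_nonneg L a.1
  have h5 : fl (pp α β) a.2.2 b.2.2 ≤ sz L a.1 / 50 := by
    have h6 : (1 - κ) * ((1 - κ) * sz L a.1) ≤ (1 - κ) * sz L i' :=
      mul_le_mul_of_nonneg_left h4 (by linarith)
    have h7 : 98 / 100 * sz L a.1 ≤ (1 - κ) * ((1 - κ) * sz L a.1) := by
      rw [← mul_assoc]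
      refine mul_le_mul_of_nonneg_right ?_ z1
      nlinarith
    unfold fl
    linarith
  refine ⟨b, hb, hb1, hb2, ⟨?_, ?_, by linarith⟩, h5⟩
  · rw [hb1]; exact hi
  · rw [hb2]; exact hj

/-- closeness criterion -/
theorem Rep.eq_of (hY : Rep ρ κ τ τ₁ L Y) {a b : AD V} (ha : a ∈ Y) (hb : b ∈ Y)
    (h : sz L a.1 < 2 * ct fun p => a.2.2 p ∧ b.2.2 p) : a = b := by
  have h0 : 0 < ct fun p => a.2.2 p ∧ b.2.2 p := by
    have := sz_nonneg L a.1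
    linarith
  obtain ⟨p, hp1, hp2⟩ := ct_pos h0
  have h1 := (hY.arw a ha).src p hp1
  have h2 := (hY.arw b hb).src p hp2
  have h3 := (hY.arw a ha).tgt p hp1
  have h4 := (hY.arw b hb).tgt p hp2
  rw [h1, Option.some.injEq] at h2
  rw [h3, Option.some.injEq] at h4
  exact hY.sep a ha b hb h2 h4 h

theorem ar_uniq (hY : Rep ρ κ τ τ₁ L Y) (hS : Sys ρ Z κ τ τ₁ L) (hn : Num k κ τ τ₁ Λ)
    {α β : Equiv.Perm V} {a b b' : AD V} (ha : a ∈ Y) (hb : b ∈ Y) (hb' : b' ∈ Y)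
    (h : AR κ L α β a b) (h' : AR κ L α β a b') : b = b' := by
  apply hY.eq_of hb hb'
  have h1 := overlap (pp α β) a.2.2 b.2.2 b'.2.2
  have h2 := (hY.size hS hn ha).1
  have h3 := (mv_size h.m1).2
  have h4 := h.cl
  have h5 := h'.cl
  have hκ := hn.κ0
  have hκ1 := hn.κ1
  have z1 := h.m1.pos
  have z2 := sz_nonneg L b.1
  nlinarith

theorem ar_inj (hY : Rep ρ κ τ τ₁ L Y) (hS : Sys ρ Z κ τ τ₁ L) (hn : Num k κ τ τ₁ Λ)
    {α β : Equiv.Perm V} {a a' b : AD V} (ha : a ∈ Y) (ha' : a' ∈ Y) (hb : b ∈ Y)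
    (h : AR κ L α β a b) (h' : AR κ L α β a' b) : a = a' := by
  apply hY.eq_of ha ha'
  have h0 : a.1 = a'.1 := h.m1.inj hn.κ1 h'.m1
  have h1 := overlap (pp α β)⁻¹ b.2.2 a.2.2 a'.2.2
  have h2 := (hY.size hS hn ha).1
  have h2' := (hY.size hS hn ha').1
  have h2'' := (hY.size hS hn hb).1
  have h3 := (mv_size h.m1).2
  have h3' := (mv_size h.m1).1
  have h4 := h.cl
  have h5 := h'.cl
  have h6 := fl_inv (pp α β) a.2.2 b.2.2
  have h7 := fl_inv (pp α β) a'.2.2 b.2.2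
  have h8 := (hY.arw b hb).le_src
  have hκ := hn.κ0
  have hκ1 := hn.κ1
  have z1 := h.m1.pos
  have z2 := sz_nonneg L b.1
  rw [← h0] at h2' h5
  nlinarith

theorem ar_surj (hY : Rep ρ κ τ τ₁ L Y) (hS : Sys ρ Z κ τ τ₁ L) (hn : Num k κ τ τ₁ Λ)
    {w' : Fin k → FreeGroup (Fin k)} (hw' : WB Λ w') {α β : Equiv.Perm V}
    (hα : Tw ρ Z w' α⁻¹) (hβ : Tw ρ Z w' β⁻¹) {b : AD V} (hb : b ∈ Y) {i j : V}
    (hi : Mv κ L α i b.1) (hj : Mv κ L β j b.2.1) :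
    ∃ a ∈ Y, a.1 = i ∧ a.2.1 = j ∧ AR κ L α β a b := by
  obtain ⟨a, ha, ha1, ha2, har, hfl⟩ := ar_exists hY hS hn hw' hα hβ hb (hi.inv hn.κ1)
    (hj.inv hn.κ1)
  refine ⟨a, ha, ha1, ha2, ?_, ?_, ?_⟩
  · rw [ha1]; exact hi
  · rw [ha2]; exact hj
  · have h1 := fl_inv (pp α⁻¹ β⁻¹) b.2.2 a.2.2
    rw [pp_inv, inv_inv, inv_inv] at h1
    have h2 := (hY.size hS hn hb).1
    have h3 := (hY.arw a ha).le_src
    rw [← ha1] at hi
    obtain ⟨h4, h5⟩ := mv_size hi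
    have hκ := hn.κ0
    have hκ1 := hn.κ1
    have z1 := hi.pos
    have z2 := sz_nonneg L b.1
    nlinarith

theorem ar_one (hY : Rep ρ κ τ τ₁ L Y) (hn : Num k κ τ τ₁ Λ) {a : AD V} (ha : a ∈ Y) :
    AR κ L 1 1 a a := by
  have h := (hY.arw a ha).pos
  refine ⟨Mv.one hn.κ0.le h.1, Mv.one hn.κ0.le h.2, ?_⟩
  have : fl (pp (1 : Equiv.Perm V) 1) a.2.2 a.2.2 = 0 := ct_false fun p hp => hp.2 hp.1
  rw [this]
  linarith

theorem ct_Z (hY : Rep ρ κ τ τ₁ L Y) (hS : Sys ρ Z κ τ τ₁ L) (hn : Num k κ τ τ₁ Λ) {a : AD V}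
    (ha : a ∈ Y) : (ct fun p => a.2.2 p ∧ (Z p.1 ∨ Z p.2)) ≤ 3 * τ₁ * sz L a.1 := by
  have hR := hY.arw a ha
  have h1 : (ct fun p => a.2.2 p ∧ (Z p.1 ∨ Z p.2)) ≤
      (ct fun x => L x = some a.1 ∧ Z x) + ct fun x => L x = some a.2.1 ∧ Z x := by
    refine (ct_le_add (q := fun p => a.2.2 p ∧ Z p.1) (r := fun p => a.2.2 p ∧ Z p.2)
      fun p hp => ?_).trans (add_le_add ?_ ?_)
    · rcases hp.2 with h | h
      · exact Or.inl ⟨hp.1, h⟩
      · exact Or.inr ⟨hp.1, h⟩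
    · exact ct_le_of_inj Prod.fst (fun p hp => ⟨hR.src p hp.1, hp.2⟩)
        fun p q hp hq h => hR.inj1 p q hp.1 hq.1 h
    · exact ct_le_of_inj Prod.snd (fun p hp => ⟨hR.tgt p hp.1, hp.2⟩)
        fun p q hp hq h => hR.inj2 p q hp.1 hq.1 h
  have h2 := hS.err a.1
  have h3 := hS.err a.2.1
  have h4 := (hY.size hS hn ha).2
  have h5 := hR.le_src
  have h6 : sz L a.2.1 ≤ 2 * sz L a.1 := by
    have := hn.κ1
    have := sz_nonneg L a.2.1
    nlinarith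
  have h7 := mul_le_mul_of_nonneg_left h6 hn.τ₁0
  linarith

/-- **The product rule.** -/
theorem ar_mul (hY : Rep ρ κ τ τ₁ L Y) (hS : Sys ρ Z κ τ τ₁ L) (hn : Num k κ τ τ₁ Λ)
    {α β γ : Equiv.Perm V} {u : FreeGroup (Fin k)}
    (hu : ∀ p : V × V → Prop, (ct fun x => p x ∧ ¬ p (pr ρ ρ u x)) ≤ Λ * bd (pr ρ ρ) p)
    (huz : ∀ x, ¬ Z x → α (β x) = γ (ρ u x)) {a b1 b2 b3 : AD V} (ha : a ∈ Y) (hb1 : b1 ∈ Y)
    (hb2 : b2 ∈ Y) (hb3 : b3 ∈ Y) (h1 : AR κ L β β a b1) (h2 : AR κ L α α b1 b2)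
    (h3 : AR κ L γ γ a b3) : b2 = b3 := by
  apply hY.eq_of hb2 hb3
  have f1 := fl_comp (pp α α) (pp β β) a.2.2 b1.2.2 b2.2.2
  have f2 : fl (pp α α * pp β β) a.2.2 b3.2.2 ≤
      (ct fun p => a.2.2 p ∧ (Z p.1 ∨ Z p.2)) + fl (pp γ γ * pr ρ ρ u) a.2.2 b3.2.2 := by
    refine ct_le_add fun p hp => ?_
    by_cases hz1 : Z p.1
    · exact Or.inl ⟨hp.1, Or.inl hz1⟩
    · by_cases hz2 : Z p.2
      · exact Or.inl ⟨hp.1, Or.inr hz2⟩
      · refine Or.inr ⟨hp.1, fun h => hp.2 ?_⟩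
        have h4 : (pp α α * pp β β) p = (α (β p.1), α (β p.2)) := rfl
        have h5 : (pp γ γ * pr ρ ρ u) p = (γ (ρ u p.1), γ (ρ u p.2)) := rfl
        rw [h4, huz _ hz1, huz _ hz2, ← h5]
        exact h
  have f3 := fl_comp (pp γ γ) (pr ρ ρ u) a.2.2 a.2.2 b3.2.2
  have f4 : fl (pr ρ ρ u) a.2.2 a.2.2 ≤ Λ * (τ₁ * sz L a.1) :=
    (hu a.2.2).trans (mul_le_mul_of_nonneg_left (hY.arw a ha).bdy (by linarith [hn.Λ1]))
  have f5 := ct_Z hY hS hn ha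
  have f6 := overlap (pp α α * pp β β) a.2.2 b2.2.2 b3.2.2
  have g1 := h1.cl
  have g2 := h2.cl
  have g3 := h3.cl
  obtain ⟨m1, m2⟩ := mv_size h1.m1
  obtain ⟨m3, m4⟩ := mv_size h2.m1
  have s1 := (hY.size hS hn ha).1
  have hκ := hn.κ0
  have hκ1 := hn.κ1
  have z1 := h1.m1.pos
  have z2 := sz_nonneg L b1.1
  have z3 := sz_nonneg L b2.1
  have c1 : sz L b1.1 ≤ 102 / 100 * sz L a.1 := by nlinarith
  have c2 : sz L b2.1 ≤ 110 / 100 * sz L a.1 := by nlinarith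
  have h4 := hn.a4
  have h5 : Λ * (τ₁ * sz L a.1) + 3 * τ₁ * sz L a.1 ≤ 3 / 10000 * sz L a.1 := by
    have h6 : Λ * (τ₁ * sz L a.1) + 3 * τ₁ * sz L a.1 = (Λ * τ₁ + 3 * τ₁) * sz L a.1 := by ring
    rw [h6]
    refine mul_le_mul_of_nonneg_right ?_ z1.le
    have := hn.τ₁0
    have : 0 ≤ Λ * τ₁ := mul_nonneg (by linarith [hn.Λ1]) hn.τ₁0
    linarith
  have s2 : 99 / 100 * sz L a.1 ≤ (1 - κ) * sz L a.1 :=
    mul_le_mul_of_nonneg_right (by linarith) z1.le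
  linarith

/-- **Displacement.** -/
theorem ar_disp (hY : Rep ρ κ τ τ₁ L Y) (hS : Sys ρ Z κ τ τ₁ L) (hn : Num k κ τ τ₁ Λ)
    {g z : Equiv.Perm V} (hgz : ∀ x, ¬ Z x → g (z x) ≠ z (g x)) {a b : AD V} (ha : a ∈ Y)
    (hb : b ∈ Y) (h1 : AR κ L g g a a) (h2 : AR κ L g g b b) (h3 : AR κ L 1 z a b) : False := by
  have f1 := fl_comp (pp 1 z) (pp g g) a.2.2 a.2.2 b.2.2
  have f2 := fl_comp (pp g g) (pp 1 z) a.2.2 b.2.2 b.2.2
  have f3 := ct_Z hY hS hn ha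
  have f4 : ct a.2.2 ≤ (ct fun p => a.2.2 p ∧ (Z p.1 ∨ Z p.2)) +
      (fl (pp 1 z * pp g g) a.2.2 b.2.2 + fl (pp g g * pp 1 z) a.2.2 b.2.2) := by
    refine (ct_le_add (q := fun p => a.2.2 p ∧ (Z p.1 ∨ Z p.2))
      (r := fun p => (a.2.2 p ∧ ¬ b.2.2 ((pp 1 z * pp g g) p)) ∨
        (a.2.2 p ∧ ¬ b.2.2 ((pp g g * pp 1 z) p))) fun p hp => ?_).trans
      (add_le_add le_rfl (ct_le_add fun p hp => hp))
    by_cases hz : Z p.1 ∨ Z p.2
    · exact Or.inl ⟨hp, hz⟩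
    · right
      by_cases c1 : b.2.2 ((pp 1 z * pp g g) p)
      · by_cases c2 : b.2.2 ((pp g g * pp 1 z) p)
        · exfalso
          have h4 : (pp 1 z * pp g g) p = (g p.1, z (g p.2)) := rfl
          have h5 : (pp g g * pp 1 z) p = (g p.1, g (z p.2)) := rfl
          rw [h4] at c1
          rw [h5] at c2
          have h6 := (hY.arw b hb).inj1 _ _ c1 c2 rfl
          exact hgz p.2 (fun h => hz (Or.inr h)) (congrArg Prod.snd h6).symm
        · exact Or.inr ⟨hp, c2⟩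
      · exact Or.inl ⟨hp, c1⟩
  have g1 := h1.cl
  have g2 := h2.cl
  have g3 := h3.cl
  have s1 := (hY.size hS hn ha).1
  obtain ⟨m1, m2⟩ := mv_size h3.m1
  have hκ := hn.κ0
  have hκ1 := hn.κ1
  have z1 := h1.m1.pos
  have z2 := sz_nonneg L b.1
  have c1 : sz L b.1 ≤ 102 / 100 * sz L a.1 := by nlinarith
  have h4 := hn.a3
  have h5 := hn.τκ
  have s2 : 99 / 100 * sz L a.1 ≤ (1 - κ) * sz L a.1 :=
    mul_le_mul_of_nonneg_right (by linarith) z1.le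
  have s3 : 3 * τ₁ * sz L a.1 ≤ 1 / 100 * sz L a.1 :=
    mul_le_mul_of_nonneg_right (by linarith) z1.le
  linarith

end ar

end

end Pool.Agent.N303.KS
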